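import Mathlib

set_option autoImplicit false
set_option linter.unusedSectionVars false
set_option linter.unusedDecidableInType false

/-! [CYC-Defs] Metric TSP, subtour points with a binary hierarchy of tight sets: definitions. -/

namespace CYC

open Finset

/-- binary trees with labelled leaves -/
inductive HT (V : Type) : Type
  | leaf : V → HT V
  | node : HT V → HT V → HT V

/-- the four ends of the two arcs of an inner node: arc 1 goes from `t1` (left) to `h1` (right),
arc 2 goes from `t2` (right) to `h2` (left) -/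
structure Dg (V : Type) where
  t1 : V
  h1 : V
  t2 : V
  h2 : V

namespace HT

variable {V : Type}

/-- the inner nodes -/
def Nd : HT V → Type
  | leaf _ => Empty
  | node l r => Option (l.Nd ⊕ r.Nd)

instance instFt : (t : HT V) → Fintype t.Nd
  | leaf _ => inferInstanceAs (Fintype Empty)
  | node l r => by
      haveI := instFt l
      haveI := instFt r
      exact inferInstanceAs (Fintype (Option (l.Nd ⊕ r.Nd)))

instance instDc : (t : HT V) → DecidableEq t.Nd
  | leaf _ => inferInstanceAs (DecidableEq Empty)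
  | node l r => by
      haveI := instDc l
      haveI := instDc r
      exact inferInstanceAs (DecidableEq (Option (l.Nd ⊕ r.Nd)))

/-- the root node -/
def nRoot (l r : HT V) : (node l r).Nd := (none : Option (l.Nd ⊕ r.Nd))
/-- the nodes of the left subtree -/
def nL (l r : HT V) (p : l.Nd) : (node l r).Nd := (some (Sum.inl p) : Option (l.Nd ⊕ r.Nd))
/-- the nodes of the right subtree -/
def nR (l r : HT V) (p : r.Nd) : (node l r).Nd := (some (Sum.inr p) : Option (l.Nd ⊕ r.Nd))

theorem Nd_cases {l r : HT V} {C : (node l r).Nd → Prop} (h0 : C (nRoot l r))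
    (h1 : ∀ p, C (nL l r p)) (h2 : ∀ p, C (nR l r p)) : ∀ p, C p := by
  intro p
  match (show Option (l.Nd ⊕ r.Nd) from p) with
  | none => exact h0
  | some (Sum.inl q) => exact h1 q
  | some (Sum.inr q) => exact h2 q

theorem sum_Nd {A : Type} [AddCommMonoid A] {l r : HT V} (f : (node l r).Nd → A) :
    ∑ p, f p = f (nRoot l r) + (∑ p, f (nL l r p) + ∑ p, f (nR l r p)) := by
  have h : ∑ p, f p = ∑ p : Option (l.Nd ⊕ r.Nd), f p := rfl
  rw [h, Fintype.sum_option, Fintype.sum_sum_type]
  rfl

theorem sum_Nd_leaf {A : Type} [AddCommMonoid A] {v : V} (f : (leaf v).Nd → A) :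
    ∑ p, f p = 0 := by
  have h : ∑ p, f p = ∑ p : Empty, f p := rfl
  rw [h]
  simp

variable [DecidableEq V]

/-- the set of leaves -/
def lv : HT V → Finset V
  | leaf v => {v}
  | node l r => l.lv ∪ r.lv

/-- the leaves are distinct -/
def Ok : HT V → Prop
  | leaf _ => True
  | node l r => Disjoint l.lv r.lv ∧ l.Ok ∧ r.Ok

/-- leaves of the left child of an inner node -/
def lt : (t : HT V) → t.Nd → Finset V
  | leaf _ => fun p => p.elim
  | node l r => fun p => match (show Option (l.Nd ⊕ r.Nd) from p) with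
    | none => l.lv
    | some (Sum.inl q) => lt l q
    | some (Sum.inr q) => lt r q

/-- leaves of the right child of an inner node -/
def rt : (t : HT V) → t.Nd → Finset V
  | leaf _ => fun p => p.elim
  | node l r => fun p => match (show Option (l.Nd ⊕ r.Nd) from p) with
    | none => r.lv
    | some (Sum.inl q) => rt l q
    | some (Sum.inr q) => rt r q

@[simp] theorem lt_root (l r : HT V) : (node l r).lt (nRoot l r) = l.lv := rfl
@[simp] theorem lt_nL (l r : HT V) (p : l.Nd) : (node l r).lt (nL l r p) = l.lt p := rfl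
@[simp] theorem lt_nR (l r : HT V) (p : r.Nd) : (node l r).lt (nR l r p) = r.lt p := rfl
@[simp] theorem rt_root (l r : HT V) : (node l r).rt (nRoot l r) = r.lv := rfl
@[simp] theorem rt_nL (l r : HT V) (p : l.Nd) : (node l r).rt (nL l r p) = l.rt p := rfl
@[simp] theorem rt_nR (l r : HT V) (p : r.Nd) : (node l r).rt (nR l r p) = r.rt p := rfl

/-- `Str t a g e`: the arcs `e` of the inner nodes of `t` and the tails `a`, `g` of the two arcs
which leave `t`: at each inner node the two arcs which leave the set of leaves have their tails in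
different children. -/
def Str : (t : HT V) → V → V → (t.Nd → Dg V) → Prop
  | leaf v, a, g, _ => a = v ∧ g = v
  | node l r, a, g, e => ∃ x y : V, ((a = x ∧ g = y) ∨ (a = y ∧ g = x)) ∧
      (e (nRoot l r)).h1 ∈ r.lv ∧ (e (nRoot l r)).h2 ∈ l.lv ∧
      Str l x (e (nRoot l r)).t1 (fun p => e (nL l r p)) ∧
      Str r y (e (nRoot l r)).t2 (fun p => e (nR l r p))

/-- the cost of the arcs -/
noncomputable def cst (d : V → V → ℝ) {t : HT V} (e : t.Nd → Dg V) : ℝ :=
  ∑ p, (d (e p).t1 (e p).h1 + d (e p).t2 (e p).h2)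

/-- the `x`-cost between the two children of the node `p` -/
noncomputable def wt (x d : V → V → ℝ) (t : HT V) (p : t.Nd) : ℝ :=
  ∑ u ∈ t.lt p, ∑ v ∈ t.rt p, x u v * d u v

/-- the `x`-cost inside the set of leaves -/
noncomputable def inn (x d : V → V → ℝ) (t : HT V) : ℝ := ∑ p, wt x d t p

/-- the `x`-cut of a set -/
noncomputable def cut [Fintype V] (x : V → V → ℝ) (S : Finset V) : ℝ :=
  ∑ u ∈ S, ∑ v ∈ Sᶜ, x u v

/-- all subtrees are tight -/
def Tgt [Fintype V] (x : V → V → ℝ) : HT V → Prop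
  | leaf v => cut x {v} = 2
  | node l r => cut x (l.lv ∪ r.lv) = 2 ∧ Tgt x l ∧ Tgt x r

end HT

/-- a system of arcs with root edges: vertices `V`, a root `r`, two arcs for each element of `N`,
and four root edges `a`-`r`, `g`-`r`, `k1`-`r`, `k2`-`r` (the first two are arcs to `r`). -/
structure Sys (V N : Type) where
  r : V
  a : V
  g : V
  k1 : V
  k2 : V
  e : N → Dg V

/-- 0/1 indicator in a commutative semiring -/
def ind {A : Type} [Zero A] [One A] (p : Prop) [Decidable p] : A := if p then 1 else 0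

namespace Sys

variable {V N : Type} [DecidableEq V] [Fintype V] [Fintype N] [DecidableEq N]

/-- number of arcs of `p` which leave `W` -/
def ou (C : Sys V N) (W : Finset V) (p : N) : ℕ :=
  ind ((C.e p).t1 ∈ W ∧ (C.e p).h1 ∉ W) + ind ((C.e p).t2 ∈ W ∧ (C.e p).h2 ∉ W)

/-- number of arcs of `p` which enter `W` -/
def it (C : Sys V N) (W : Finset V) (p : N) : ℕ :=
  ind ((C.e p).t1 ∉ W ∧ (C.e p).h1 ∈ W) + ind ((C.e p).t2 ∉ W ∧ (C.e p).h2 ∈ W)

/-- the two properties of the system: (out) at least two arcs leave every set without the root;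
(pri) every cut which does not isolate the root is crossed by the two arcs of some `p` in opposite
directions. -/
structure Gd (C : Sys V N) : Prop where
  out : ∀ W : Finset V, C.r ∉ W → W.Nonempty →
    2 ≤ ∑ p, C.ou W p + ind (C.a ∈ W) + ind (C.g ∈ W)
  pri : ∀ W : Finset V, C.r ∉ W → W.Nonempty → (∃ v, v ≠ C.r ∧ v ∉ W) →
    ∃ p, C.ou W p = 1 ∧ C.it W p = 1

/-- the code of the relations between the nodes -/
def code (C : Sys V N) : Submodule (ZMod 2) (N → ZMod 2) where
  carrier := {c | ∃ φ : V → ZMod 2, φ C.r = 0 ∧ φ C.a = 0 ∧ φ C.g = 0 ∧ φ C.k1 = 0 ∧ φ C.k2 = 0 ∧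
    ∀ p, φ (C.e p).t1 + φ (C.e p).h1 = c p ∧ φ (C.e p).t2 + φ (C.e p).h2 = c p}
  add_mem' := by
    rintro c c' ⟨φ, h0, h1, h2, h3, h4, h5⟩ ⟨φ', h0', h1', h2', h3', h4', h5'⟩
    refine ⟨φ + φ', by simp [h0, h0'], by simp [h1, h1'], by simp [h2, h2'], by simp [h3, h3'],
      by simp [h4, h4'], fun p => ?_⟩
    have e1 := h5 p
    have e2 := h5' p
    simp only [Pi.add_apply]
    rw [← e1.1, ← e2.1]
    refine ⟨by ring, ?_⟩
    rw [e1.1, e2.1, ← e1.2, ← e2.2]
    ring
  zero_mem' := ⟨0, rfl, rfl, rfl, rfl, rfl, fun p => ⟨by simp, by simp⟩⟩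
  smul_mem' := by
    rintro a c ⟨φ, h0, h1, h2, h3, h4, h5⟩
    refine ⟨a • φ, by simp [h0], by simp [h1], by simp [h2], by simp [h3], by simp [h4],
      fun p => ?_⟩
    have e1 := h5 p
    simp only [Pi.smul_apply, smul_eq_mul]
    rw [← mul_add, ← mul_add, e1.1, e1.2]
    exact ⟨rfl, rfl⟩

/-- `(y1, y2, w)` is an even edge set (a flow over `ZMod 2`): `y1`, `y2` on the arcs 1 and 2 of the
nodes, `w` on the root edges `a`, `g`, `k1`, `k2` -/
def Flow (C : Sys V N) (y1 y2 : N → ZMod 2) (w : Fin 4 → ZMod 2) : Prop :=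
  ∀ v, v ≠ C.r → ∑ p, (y1 p * (ind ((C.e p).t1 = v) + ind ((C.e p).h1 = v)) +
    y2 p * (ind ((C.e p).t2 = v) + ind ((C.e p).h2 = v))) +
    (w 0 * ind (C.a = v) + w 1 * ind (C.g = v) + w 2 * ind (C.k1 = v) + w 3 * ind (C.k2 = v)) = 0

end Sys

/-- the vectors supported in `Z` -/
def sup {N : Type} (Z : Finset N) : Submodule (ZMod 2) (N → ZMod 2) where
  carrier := {c | ∀ p, p ∉ Z → c p = 0}
  add_mem' := by
    intro a b ha hb p hp
    simp [ha p hp, hb p hp]
  zero_mem' := fun p _ => rfl
  smul_mem' := by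
    intro a b hb p hp
    simp [hb p hp]

end CYC
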