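import Pool.Agent.CYC.T1
import Pool.Agent.TSPU.Kruskal
import Pool.Agent.TSPU.Bridge

set_option autoImplicit false
set_option linter.unusedSectionVars false
set_option linter.unusedDecidableInType false

/-! [CYC-F1] from a flow to a tour. -/

namespace CYC

open Finset TSPU TSPU.MG

private theorem F1_01 (z : ZMod 2) : z = 0 ∨ z = 1 := by
  revert z
  decide

private theorem F1_mul (z : ZMod 2) (y : ZMod 2) : (if z = 1 then y else 0) = z * y := by
  revert z y
  decide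

/-- (1) PROOF. As `SQP.tour_of_cfg` (`Pool/Agent/SQP/N1.lean`). Edge type
`E = (Nd × Fin 3) ⊕ Fin 4` (arc 1, arc 2 and the edge `u p`-`v p` of each node; the root edges), `X` = the edges with
flow value 1 (never an edge `(p, 2)`), `F` = the edges `(p, 2)` with `y1 p = y2 p = 0`, the root edge 2 (`k1`) if
`w 0 = w 2 = 0` and the root edge 3 (`k2`) if `w 1 = w 3 = 0`. Apply
`Pool.Agent.TSPU.exists_closed_walk s t hnn hsymm X F` and `W.exists_perm`. Parity at `v ≠ C.r` is `hF v`, at `C.r` it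
follows since the sum over all points is 0 (each edge has two ends), or directly. Connectivity: by `Bridge.cmp_iff` it is
enough that a set `P` of points which is crossed by no edge of `X ∪ F` contains both or none of two points; replace
`P` by its complement if `C.r ∈ P`; if `P` is nonempty and does not contain all points `≠ C.r` then `HT.principal`
gives a node `p` with `lt p ⊆ P` and `rt p` disjoint from `P` (or conversely), and one of its three edges
(`HT.Str.dg`, `huv`) is in `X ∪ F` and crosses; if `P` is everything except `C.r` then one of the root edges 0, 2 is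
in `X ∪ F` and crosses. -/
theorem tour_flow {n : ℕ} (hn : 1 ≤ n) (d : Fin n → Fin n → ℝ) (hsymm : ∀ i j, d i j = d j i)
    (hdiag : ∀ i, d i i = 0) (htri : ∀ i j k, d i k ≤ d i j + d j k) (l r : HT (Fin n))
    (C : Sys (Fin n) (HT.node l r).Nd) (hr : C.r ∉ (HT.node l r).lv)
    (hu : ∀ v, v ≠ C.r → v ∈ (HT.node l r).lv) (hS : HT.Str (HT.node l r) C.a C.g C.e)
    (ha : C.a ∈ l.lv) (hg : C.g ∈ r.lv) (hk1 : C.k1 ∈ l.lv) (hk2 : C.k2 ∈ r.lv)
    (y1 y2 : (HT.node l r).Nd → ZMod 2) (w : Fin 4 → ZMod 2) (hF : C.Flow y1 y2 w)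
    (u v : (HT.node l r).Nd → Fin n)
    (huv : ∀ p, u p ∈ (HT.node l r).lt p ∧ v p ∈ (HT.node l r).rt p) :
    ∃ f : Equiv.Perm (Fin n), ∑ i, d (f i) (f (finRotate n i)) ≤
      ∑ p, (ind (y1 p = 1) * d (C.e p).t1 (C.e p).h1 + ind (y2 p = 1) * d (C.e p).t2 (C.e p).h2 +
        2 * (ind (y1 p = 0 ∧ y2 p = 0) * d (u p) (v p))) +
      (ind (w 0 = 1) * d C.a C.r + ind (w 2 = 1) * d C.k1 C.r +
        2 * (ind (w 0 = 0 ∧ w 2 = 0) * d C.k1 C.r)) +
      (ind (w 1 = 1) * d C.g C.r + ind (w 3 = 1) * d C.k2 C.r +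
        2 * (ind (w 1 = 0 ∧ w 3 = 0) * d C.k2 C.r)) := by
  obtain ⟨N, rfl⟩ : ∃ N, n = N + 1 := ⟨n - 1, by omega⟩
  have hnn : ∀ i j, 0 ≤ d i j := by
    intro i j
    have h1 := htri i j i
    rw [hdiag, hsymm j i] at h1
    linarith
  let E := ((HT.node l r).Nd × Fin 3) ⊕ Fin 4
  let s : E → Fin (N + 1) := Sum.elim (fun q => ![(C.e q.1).t1, (C.e q.1).t2, u q.1] q.2)
    (fun i => ![C.a, C.g, C.k1, C.k2] i)
  let t : E → Fin (N + 1) := Sum.elim (fun q => ![(C.e q.1).h1, (C.e q.1).h2, v q.1] q.2)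
    (fun _ => C.r)
  let x : E → ZMod 2 := Sum.elim (fun q => ![y1 q.1, y2 q.1, 0] q.2) w
  let fb : E → Bool := Sum.elim
    (fun q => decide (q.2 = 2) && decide (y1 q.1 = 0 ∧ y2 q.1 = 0))
    (fun i => (decide (i = 2) && decide (w 0 = 0 ∧ w 2 = 0)) ||
      (decide (i = 3) && decide (w 1 = 0 ∧ w 3 = 0)))
  let X : Finset E := univ.filter fun e => x e = 1
  let F : Finset E := univ.filter fun e => fb e = true
  have hsumE : ∀ {A : Type} [AddCommMonoid A] (f : E → A),
      ∑ e, f e = ∑ p, (f (Sum.inl (p, 0)) + f (Sum.inl (p, 1)) + f (Sum.inl (p, 2))) +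
        (f (Sum.inr 0) + f (Sum.inr 1) + f (Sum.inr 2) + f (Sum.inr 3)) := by
    intro A _ f
    rw [Fintype.sum_sum_type, Fintype.sum_prod_type, Fin.sum_univ_four]
    congr 1
    exact sum_congr rfl fun p _ => Fin.sum_univ_three _
  -- parity
  have hpx : ∀ a, Pool.Agent.TSPU.par s t X a =
      ∑ e, x e * ((if s e = a then (1 : ZMod 2) else 0) + (if t e = a then 1 else 0)) := by
    intro a
    unfold Pool.Agent.TSPU.par
    rw [sum_filter]
    exact sum_congr rfl fun e _ => F1_mul _ _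
  have hpar1 : ∀ a, a ≠ C.r → Pool.Agent.TSPU.par s t X a = 0 := by
    intro a ha'
    rw [hpx, hsumE]
    have h1 := hF a ha'
    refine Eq.trans ?_ h1
    simp only [s, t, x, Sum.elim_inl, Sum.elim_inr, Matrix.cons_val_zero, Matrix.cons_val_one,
      Matrix.cons_val, zero_mul, ind, if_neg (Ne.symm ha'), add_zero]
    rfl
  have hpar : ∀ a, Pool.Agent.TSPU.par s t X a = 0 := by
    have htot : ∑ a, Pool.Agent.TSPU.par s t X a = 0 := by
      have h1 : ∑ a, Pool.Agent.TSPU.par s t X a = ∑ e, x e * (1 + 1) := by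
        rw [sum_congr rfl fun a _ => hpx a, sum_comm]
        refine sum_congr rfl fun e _ => ?_
        rw [← mul_sum, sum_add_distrib, sum_ite_eq, sum_ite_eq, if_pos (mem_univ _),
          if_pos (mem_univ _)]
      rw [h1]
      refine sum_eq_zero fun e _ => ?_
      have h2 : (1 : ZMod 2) + 1 = 0 := by decide
      rw [h2, mul_zero]
    intro a
    by_cases ha' : a = C.r
    · rw [ha']
      rw [← add_sum_erase univ _ (mem_univ C.r)] at htot
      rw [sum_eq_zero fun b hb => hpar1 b (ne_of_mem_erase hb), add_zero] at htot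
      exact htot
    · exact hpar1 a ha'
  -- connectivity
  have hconn : ∀ a b, Pool.Agent.TSPU.cmp s t (X ∪ F) a b := by
    intro a b
    rw [Bridge.cmp_iff]
    intro P hP
    have hno : ∀ e ∈ X ∪ F, (s e ∈ P ↔ t e ∈ P) := by
      intro e he
      have h1 := disjoint_left.1 hP he
      rw [mem_cut, not_not] at h1
      exact h1
    have hX : ∀ e, x e = 1 → (s e ∈ P ↔ t e ∈ P) := fun e he =>
      hno e (mem_union_left _ (mem_filter.2 ⟨mem_univ _, he⟩))
    have hFe : ∀ e, fb e = true → (s e ∈ P ↔ t e ∈ P) := fun e he =>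
      hno e (mem_union_right _ (mem_filter.2 ⟨mem_univ _, he⟩))
    have hnode : ∀ p, ∃ b1 ∈ (HT.node l r).lt p, ∃ b2 ∈ (HT.node l r).rt p,
        (b1 ∈ P ↔ b2 ∈ P) := by
      intro p
      obtain ⟨g1, g2, g3, g4⟩ := hS.dg p
      rcases F1_01 (y1 p) with h1 | h1
      · rcases F1_01 (y2 p) with h2 | h2
        · refine ⟨u p, (huv p).1, v p, (huv p).2, ?_⟩
          exact hFe (Sum.inl (p, 2)) (by simp [fb, h1, h2])
        · refine ⟨(C.e p).h2, g4, (C.e p).t2, g3, ?_⟩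
          exact (hX (Sum.inl (p, 1)) h2).symm
      · exact ⟨(C.e p).t1, g1, (C.e p).h1, g2, hX (Sum.inl (p, 0)) h1⟩
    have hroot : ∃ c ∈ (HT.node l r).lv, (c ∈ P ↔ C.r ∈ P) := by
      have hl : l.lv ⊆ (HT.node l r).lv := subset_union_left
      rcases F1_01 (w 0) with h1 | h1
      · rcases F1_01 (w 2) with h2 | h2
        · exact ⟨C.k1, hl hk1, hFe (Sum.inr 2) (by simp [fb, h1, h2])⟩
        · exact ⟨C.k1, hl hk1, hX (Sum.inr 2) h2⟩
      · exact ⟨C.a, hl ha, hX (Sum.inr 0) h1⟩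
    have hall : ∀ c ∈ (HT.node l r).lv, ∀ c' ∈ (HT.node l r).lv, c ∈ P → c' ∈ P := by
      intro c hc c' hc' hcP
      by_contra hcon
      obtain ⟨p, hp⟩ := HT.principal P (HT.node l r) ⟨c, hc, hcP⟩ ⟨c', hc', hcon⟩
      obtain ⟨b1, m1, b2, m2, h12⟩ := hnode p
      rcases hp with ⟨q1, q2⟩ | ⟨q1, q2⟩
      · exact disjoint_left.1 q2 m2 (h12.1 (q1 m1))
      · exact disjoint_left.1 q2 m1 (h12.2 (q1 m2))
    obtain ⟨c, hc, hcr⟩ := hroot
    have hev : ∀ z, (z ∈ P ↔ c ∈ P) := by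
      intro z
      by_cases hz : z = C.r
      · rw [hz]
        exact hcr.symm
      · exact ⟨hall z (hu z hz) c hc, hall c hc z (hu z hz)⟩
    rw [hev a, hev b]
  have hw := Pool.Agent.TSPU.exists_closed_walk s t hnn hsymm X F hpar hconn (0 : Fin (N + 1))
  obtain ⟨f, hf⟩ := hw.exists_perm hnn hdiag htri
  refine ⟨f, hf.trans (le_of_eq ?_)⟩
  -- the cost
  have hi : ∀ (q : Prop) [Decidable q] (z : ℝ), (if q then z else 0) = ind q * z := by
    intro q _ z
    unfold ind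
    by_cases h : q
    · rw [if_pos h, if_pos h, one_mul]
    · rw [if_neg h, if_neg h, zero_mul]
  have c1 : ∑ e ∈ X, d (s e) (t e) =
      ∑ p, (ind (y1 p = 1) * d (C.e p).t1 (C.e p).h1 + ind (y2 p = 1) * d (C.e p).t2 (C.e p).h2) +
      (ind (w 0 = 1) * d C.a C.r + ind (w 1 = 1) * d C.g C.r + ind (w 2 = 1) * d C.k1 C.r +
        ind (w 3 = 1) * d C.k2 C.r) := by
    rw [sum_filter, hsumE]
    have h01 : (ind ((0 : ZMod 2) = 1) : ℝ) = 0 := if_neg (by decide)
    simp only [s, t, x, Sum.elim_inl, Sum.elim_inr, Matrix.cons_val_zero, Matrix.cons_val_one,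
      Matrix.cons_val, hi, h01, add_zero, zero_mul]
  have c2 : ∑ e ∈ F, d (s e) (t e) =
      ∑ p, ind (y1 p = 0 ∧ y2 p = 0) * d (u p) (v p) +
      (ind (w 0 = 0 ∧ w 2 = 0) * d C.k1 C.r + ind (w 1 = 0 ∧ w 3 = 0) * d C.k2 C.r) := by
    rw [sum_filter, hsumE]
    simp [s, t, fb, hi]
  have c3 : ∑ p, (ind (y1 p = 1) * d (C.e p).t1 (C.e p).h1 +
      ind (y2 p = 1) * d (C.e p).t2 (C.e p).h2 +
      2 * (ind (y1 p = 0 ∧ y2 p = 0) * d (u p) (v p))) =
      ∑ p, (ind (y1 p = 1) * d (C.e p).t1 (C.e p).h1 +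
        ind (y2 p = 1) * d (C.e p).t2 (C.e p).h2) +
      2 * ∑ p, ind (y1 p = 0 ∧ y2 p = 0) * d (u p) (v p) := by
    rw [sum_add_distrib, mul_sum]
  rw [c1, c2, c3]
  ring

end CYC
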