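import Pool.Agent.CYC.Defs

set_option autoImplicit false
set_option linter.unusedSectionVars false
set_option linter.unusedDecidableInType false

/-! [CYC-F2a] counting over the 15 nonzero functionals. -/

namespace CYC

open Finset

/-- the dot product on `(ZMod 2)^4` -/
def dt (φ u : Fin 4 → ZMod 2) : ZMod 2 := ∑ j, φ j * u j

private theorem dt_zero (u : Fin 4 → ZMod 2) : dt 0 u = 0 := by
  simp [dt]

private theorem dt_add (φ a b : Fin 4 → ZMod 2) : dt φ (a + b) = dt φ a + dt φ b := by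
  simp only [dt, Pi.add_apply, mul_add, sum_add_distrib]

private theorem cards (u : Fin 4 → ZMod 2) :
    #{φ : Fin 4 → ZMod 2 | dt φ u = 1} = if u = 0 then 0 else 8 := by
  revert u
  decide +kernel

private theorem zm (c : ZMod 2) : c = 0 ∨ c = 1 := by
  revert c
  decide

private theorem sum_one (u : Fin 4 → ZMod 2) :
    ∑ φ ∈ (univ : Finset (Fin 4 → ZMod 2)).erase 0, (ind (dt φ u = 1) : ℝ) =
      if u = 0 then (0 : ℝ) else 8 := by
  have h0 : (ind (dt 0 u = 1) : ℝ) = 0 := by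
    rw [dt_zero]
    simp [ind]
  have h1 : ∑ φ ∈ (univ : Finset (Fin 4 → ZMod 2)).erase 0, (ind (dt φ u = 1) : ℝ) =
      ∑ φ : Fin 4 → ZMod 2, (ind (dt φ u = 1) : ℝ) := by
    rw [← sum_erase_add _ _ (mem_univ (0 : Fin 4 → ZMod 2)), h0, add_zero]
  rw [h1]
  simp only [ind]
  rw [sum_boole]
  have h := cards u
  have h' : #{φ : Fin 4 → ZMod 2 | dt φ u = 1} = if u = 0 then 0 else 8 := h
  have h2 : ((#{φ : Fin 4 → ZMod 2 | dt φ u = 1} : ℕ) : ℝ) = if u = 0 then (0 : ℝ) else 8 := by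
    rw [h']
    split_ifs <;> simp
  rw [← h2]

/-- (1) PROOF. Counting: for `A = #{φ ≠ 0 | φ·a = 1}`, `B` similarly for `b`, `C = #{φ ≠ 0 | φ·a = φ·b = 0}`: `A, B ≤ 8` and
`A + B + 2 C = 22` because `a + b ≠ 0`: `#{φ | φ·(a+b) = 1} = 8` are the `φ` with exactly one of the two equal to 1.
Then `A c1 + B c2 + 2 C m = A (c1 - m) + B (c2 - m) + 22 m`. (The count can be done by `decide` for the 256 pairs or by
the involution `φ ↦ φ + single j 1`.) -/
theorem count {a b : Fin 4 → ZMod 2} (hab : ∃ j, a j + b j = 1) {c1 c2 m : ℝ} (h1 : m ≤ c1)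
    (h2 : m ≤ c2) :
    ∑ φ ∈ (univ : Finset (Fin 4 → ZMod 2)).erase 0,
      (ind (dt φ a = 1) * c1 + ind (dt φ b = 1) * c2 + 2 * (ind (dt φ a = 0 ∧ dt φ b = 0) * m)) ≤
      8 * c1 + 8 * c2 + 6 * m := by
  have hne : a + b ≠ 0 := by
    rintro h
    obtain ⟨j, hj⟩ := hab
    have := congrFun h j
    rw [Pi.add_apply, hj] at this
    simp at this
  have key : ∀ φ : Fin 4 → ZMod 2, (ind (dt φ a = 1) : ℝ) + ind (dt φ b = 1) +
      2 * ind (dt φ a = 0 ∧ dt φ b = 0) = 2 - ind (dt φ (a + b) = 1) := by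
    intro φ
    rw [dt_add]
    have h01 : (0 : ZMod 2) ≠ 1 := by decide
    have h11 : (1 : ZMod 2) + 1 = 0 := by decide
    rcases zm (dt φ a) with h | h <;> rcases zm (dt φ b) with h' | h' <;>
      simp [ind, h, h', h11] <;> norm_num
  have hs : ∑ φ ∈ (univ : Finset (Fin 4 → ZMod 2)).erase 0, ((ind (dt φ a = 1) : ℝ) +
      ind (dt φ b = 1) + 2 * ind (dt φ a = 0 ∧ dt φ b = 0)) = 22 := by
    rw [sum_congr rfl (fun φ _ => key φ), sum_sub_distrib, sum_one, if_neg hne, sum_const]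
    have : #((univ : Finset (Fin 4 → ZMod 2)).erase 0) = 15 := by decide +kernel
    rw [this]
    norm_num
  have hA : ∑ φ ∈ (univ : Finset (Fin 4 → ZMod 2)).erase 0, (ind (dt φ a = 1) : ℝ) ≤ 8 := by
    rw [sum_one]
    split_ifs <;> norm_num
  have hB : ∑ φ ∈ (univ : Finset (Fin 4 → ZMod 2)).erase 0, (ind (dt φ b = 1) : ℝ) ≤ 8 := by
    rw [sum_one]
    split_ifs <;> norm_num
  rw [sum_add_distrib, sum_add_distrib, ← mul_sum] at hs
  rw [sum_add_distrib, sum_add_distrib, ← sum_mul, ← sum_mul, ← mul_sum, ← sum_mul]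
  have hm := congrArg (fun t : ℝ => t * m) hs
  nlinarith [mul_nonneg (sub_nonneg.2 hA) (sub_nonneg.2 h1),
    mul_nonneg (sub_nonneg.2 hB) (sub_nonneg.2 h2), hm]

end CYC
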