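import Pool.Agent.CYC.T1

set_option autoImplicit false
set_option linter.unusedSectionVars false
set_option linter.unusedDecidableInType false

/-! [CYC-F2b] flow values at the root. -/

namespace CYC

open Finset

private theorem sum_ind {V : Type} [DecidableEq V] (S : Finset V) (z : V) :
    ∑ v ∈ S, (ind (z = v) : ZMod 2) = ind (z ∈ S) := by
  unfold ind
  rw [Finset.sum_ite_eq]

private theorem z2 (a : ZMod 2) : a + a = 0 := by
  revert a
  decide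

/-- flow values summed over a set -/
private theorem Flow_set {V N : Type} [DecidableEq V] [Fintype V] [Fintype N] [DecidableEq N]
    (C : Sys V N) {y1 y2 : N → ZMod 2} {w : Fin 4 → ZMod 2} (hF : C.Flow y1 y2 w) (S : Finset V)
    (hS : C.r ∉ S) :
    ∑ p, (y1 p * (ind ((C.e p).t1 ∈ S) + ind ((C.e p).h1 ∈ S)) +
      y2 p * (ind ((C.e p).t2 ∈ S) + ind ((C.e p).h2 ∈ S))) +
      (w 0 * ind (C.a ∈ S) + w 1 * ind (C.g ∈ S) + w 2 * ind (C.k1 ∈ S) +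
        w 3 * ind (C.k2 ∈ S)) = 0 := by
  have h := Finset.sum_eq_zero (fun v (hv : v ∈ S) => hF v (fun h => hS (h ▸ hv)))
  rw [Finset.sum_add_distrib, Finset.sum_comm] at h
  rw [← h]
  congr 1
  · refine Finset.sum_congr rfl fun p _ => ?_
    rw [Finset.sum_add_distrib, ← Finset.mul_sum, ← Finset.mul_sum, Finset.sum_add_distrib,
      Finset.sum_add_distrib, sum_ind, sum_ind, sum_ind, sum_ind]
  · rw [Finset.sum_add_distrib, Finset.sum_add_distrib, Finset.sum_add_distrib, ← Finset.mul_sum,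
      ← Finset.mul_sum, ← Finset.mul_sum, ← Finset.mul_sum, sum_ind, sum_ind, sum_ind, sum_ind]

/-- (2) flow values summed over the leaves of the left subtree. PROOF. `∑ v ∈ l.lv` of the equations `hF v`: an arc
with both ends in `l.lv` or both outside contributes `0`; the two arcs of the root node contribute `y1 + y2`
(`HT.Str.dg`, disjointness of the leaves). -/
theorem Flow_left {V : Type} [DecidableEq V] [Fintype V] {l r : HT V} (hO : (HT.node l r).Ok)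
    (C : Sys V (HT.node l r).Nd) (hr : C.r ∉ (HT.node l r).lv)
    (hS : HT.Str (HT.node l r) C.a C.g C.e)
    (ha : C.a ∈ l.lv) (hg : C.g ∈ r.lv) (hk1 : C.k1 ∈ l.lv) (hk2 : C.k2 ∈ r.lv)
    {y1 y2 : (HT.node l r).Nd → ZMod 2} {w : Fin 4 → ZMod 2} (hF : C.Flow y1 y2 w) :
    w 0 + w 2 = y1 (HT.nRoot l r) + y2 (HT.nRoot l r) ∧
      w 1 + w 3 = y1 (HT.nRoot l r) + y2 (HT.nRoot l r) := by
  have hdis : Disjoint l.lv r.lv := hO.1
  have hno : ∀ v, v ∈ l.lv → v ∉ r.lv := fun v h1 h2 => Finset.disjoint_left.1 hdis h1 h2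
  have hno' : ∀ v, v ∈ r.lv → v ∉ l.lv := fun v h1 h2 => Finset.disjoint_left.1 hdis h2 h1
  have hdg := HT.Str.dg hS
  have hrl : C.r ∉ l.lv := fun h => hr (mem_union_left _ h)
  have hrr : C.r ∉ r.lv := fun h => hr (mem_union_right _ h)
  have eL := Flow_set C hF l.lv hrl
  have eR := Flow_set C hF r.lv hrr
  rw [HT.sum_Nd] at eL eR
  obtain ⟨r1, r2, r3, r4⟩ := hdg (HT.nRoot l r)
  rw [HT.lt_root] at r1 r4
  rw [HT.rt_root] at r2 r3
  have lL : ∀ p : l.Nd, (C.e (HT.nL l r p)).t1 ∈ l.lv ∧ (C.e (HT.nL l r p)).h1 ∈ l.lv ∧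
      (C.e (HT.nL l r p)).t2 ∈ l.lv ∧ (C.e (HT.nL l r p)).h2 ∈ l.lv := by
    intro p
    obtain ⟨h1, h2, h3, h4⟩ := hdg (HT.nL l r p)
    rw [HT.lt_nL] at h1 h4
    rw [HT.rt_nL] at h2 h3
    exact ⟨HT.lt_sub l p h1, HT.rt_sub l p h2, HT.rt_sub l p h3, HT.lt_sub l p h4⟩
  have lR : ∀ p : r.Nd, (C.e (HT.nR l r p)).t1 ∈ r.lv ∧ (C.e (HT.nR l r p)).h1 ∈ r.lv ∧
      (C.e (HT.nR l r p)).t2 ∈ r.lv ∧ (C.e (HT.nR l r p)).h2 ∈ r.lv := by
    intro p
    obtain ⟨h1, h2, h3, h4⟩ := hdg (HT.nR l r p)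
    rw [HT.lt_nR] at h1 h4
    rw [HT.rt_nR] at h2 h3
    exact ⟨HT.lt_sub r p h1, HT.rt_sub r p h2, HT.rt_sub r p h3, HT.lt_sub r p h4⟩
  have i1 : ∀ {P : Prop} [Decidable P], P → (ind P : ZMod 2) = 1 := by
    intro P _ h
    unfold ind
    rw [if_pos h]
  have i0 : ∀ {P : Prop} [Decidable P], ¬ P → (ind P : ZMod 2) = 0 := by
    intro P _ h
    unfold ind
    rw [if_neg h]
  have e11 : (1 : ZMod 2) + 1 = 0 := z2 1
  constructor
  · have s1 : ∑ p : l.Nd, (y1 (HT.nL l r p) * (ind ((C.e (HT.nL l r p)).t1 ∈ l.lv) +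
        ind ((C.e (HT.nL l r p)).h1 ∈ l.lv)) + y2 (HT.nL l r p) *
        (ind ((C.e (HT.nL l r p)).t2 ∈ l.lv) + ind ((C.e (HT.nL l r p)).h2 ∈ l.lv))) = 0 := by
      refine sum_eq_zero fun p _ => ?_
      obtain ⟨h1, h2, h3, h4⟩ := lL p
      rw [i1 h1, i1 h2, i1 h3, i1 h4, e11, mul_zero, mul_zero, add_zero]
    have s2 : ∑ p : r.Nd, (y1 (HT.nR l r p) * (ind ((C.e (HT.nR l r p)).t1 ∈ l.lv) +
        ind ((C.e (HT.nR l r p)).h1 ∈ l.lv)) + y2 (HT.nR l r p) *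
        (ind ((C.e (HT.nR l r p)).t2 ∈ l.lv) + ind ((C.e (HT.nR l r p)).h2 ∈ l.lv))) = 0 := by
      refine sum_eq_zero fun p _ => ?_
      obtain ⟨h1, h2, h3, h4⟩ := lR p
      rw [i0 (hno' _ h1), i0 (hno' _ h2), i0 (hno' _ h3), i0 (hno' _ h4), add_zero, mul_zero,
        mul_zero, add_zero]
    rw [s1, s2, i1 r1, i0 (hno' _ r2), i0 (hno' _ r3), i1 r4, i1 ha, i0 (hno' _ hg), i1 hk1,
      i0 (hno' _ hk2)] at eL
    generalize y1 (HT.nRoot l r) = p1 at eL ⊢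
    generalize y2 (HT.nRoot l r) = p2 at eL ⊢
    generalize w 0 = w0 at eL ⊢
    generalize w 1 = w1 at eL ⊢
    generalize w 2 = w2 at eL ⊢
    generalize w 3 = w3 at eL ⊢
    clear * - eL
    revert p1 p2 w0 w1 w2 w3
    decide
  · have s1 : ∑ p : l.Nd, (y1 (HT.nL l r p) * (ind ((C.e (HT.nL l r p)).t1 ∈ r.lv) +
        ind ((C.e (HT.nL l r p)).h1 ∈ r.lv)) + y2 (HT.nL l r p) *
        (ind ((C.e (HT.nL l r p)).t2 ∈ r.lv) + ind ((C.e (HT.nL l r p)).h2 ∈ r.lv))) = 0 := by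
      refine sum_eq_zero fun p _ => ?_
      obtain ⟨h1, h2, h3, h4⟩ := lL p
      rw [i0 (hno _ h1), i0 (hno _ h2), i0 (hno _ h3), i0 (hno _ h4), add_zero, mul_zero,
        mul_zero, add_zero]
    have s2 : ∑ p : r.Nd, (y1 (HT.nR l r p) * (ind ((C.e (HT.nR l r p)).t1 ∈ r.lv) +
        ind ((C.e (HT.nR l r p)).h1 ∈ r.lv)) + y2 (HT.nR l r p) *
        (ind ((C.e (HT.nR l r p)).t2 ∈ r.lv) + ind ((C.e (HT.nR l r p)).h2 ∈ r.lv))) = 0 := by
      refine sum_eq_zero fun p _ => ?_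
      obtain ⟨h1, h2, h3, h4⟩ := lR p
      rw [i1 h1, i1 h2, i1 h3, i1 h4, e11, mul_zero, mul_zero, add_zero]
    rw [s1, s2, i0 (hno _ r1), i1 r2, i1 r3, i0 (hno _ r4), i0 (hno _ ha), i1 hg, i0 (hno _ hk1),
      i1 hk2] at eR
    generalize y1 (HT.nRoot l r) = p1 at eR ⊢
    generalize y2 (HT.nRoot l r) = p2 at eR ⊢
    generalize w 0 = w0 at eR ⊢
    generalize w 1 = w1 at eR ⊢
    generalize w 2 = w2 at eR ⊢
    generalize w 3 = w3 at eR ⊢
    clear * - eR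
    revert p1 p2 w0 w1 w2 w3
    decide

end CYC
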