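import Pool.Agent.CYC.Defs

set_option autoImplicit false
set_option linter.unusedSectionVars false
set_option linter.unusedDecidableInType false

/-! [CYC-M3] duality: which vectors `y1 + y2` come from flows. -/

namespace CYC

open Finset Module

/-- (1) the alternative for linear equations over a field: `A x = b` is solvable iff every `c` with `cᵀ A = 0` has
`c · b = 0`. PROOF. For instance: the range of `A` is a submodule of `I → F`; if `b` is not in it there is a linear
functional vanishing on the range and not at `b` (`Submodule.exists_le_ker_of_notMem` or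
`Submodule.exists_dual_map_eq_bot_of_notMem`), and a functional on `I → F` is `c ↦ ∑ c i * b i`. -/
theorem fredholm {F I J : Type} [Field F] [Fintype I] [Fintype J] [DecidableEq I] [DecidableEq J]
    (A : I → J → F) (b : I → F)
    (h : ∀ c : I → F, (∀ j, ∑ i, c i * A i j = 0) → ∑ i, c i * b i = 0) :
    ∃ x : J → F, ∀ i, ∑ j, A i j * x j = b i := by
  classical
  by_contra hno
  have hb : b ∉ LinearMap.range (Matrix.mulVecLin (Matrix.of A)) := by
    rintro ⟨x, hx⟩
    refine hno ⟨x, fun i => ?_⟩
    have := congrFun hx i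
    simpa [Matrix.mulVec, dotProduct] using this
  obtain ⟨f, hf1, hf2⟩ := Submodule.exists_le_ker_of_notMem hb
  have hrep : ∀ y : I → F, f y = ∑ i, f (Pi.single i 1) * y i := by
    intro y
    have hy : y = ∑ i, y i • (Pi.single i 1 : I → F) := by
      funext k
      simp [Finset.sum_apply, Pi.single_apply]
    conv_lhs => rw [hy]
    rw [map_sum]
    refine Finset.sum_congr rfl fun i _ => ?_
    rw [map_smul, smul_eq_mul, mul_comm]
  refine hf1 ?_
  rw [hrep b]
  refine h _ fun j => ?_
  have h1 : f (fun i => A i j) = 0 := by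
    have hmem : (fun i => A i j) ∈ LinearMap.range (Matrix.mulVecLin (Matrix.of A)) := by
      refine ⟨Pi.single j 1, ?_⟩
      funext i
      simp [Matrix.mulVec, dotProduct, Pi.single_apply]
    exact hf2 hmem
  rw [hrep] at h1
  exact h1

namespace Sys

variable {V N : Type} [DecidableEq V] [Fintype V] [Fintype N] [DecidableEq N]

private theorem two_zmod : ∀ z w : ZMod 2, z + w = 0 → z = w := by decide

/-- (2) PROOF. `fredholm` over `ZMod 2` with `J = N ⊕ N ⊕ Fin 4` (unknowns `y1`, `y2`, `w`), `I = {v // v ≠ r} ⊕ N`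
(equations: conservation at `v`, right side 0; `y1 p + y2 p = s p`). A vector orthogonal to all columns is a pair
`(φ, c)` with `φ t1 + φ h1 + c p = 0`, `φ t2 + φ h2 + c p = 0` and `φ a = φ g = φ k1 = φ k2 = 0`, where `φ` is
extended by `φ r = 0` (the indicator of `C.a = v` for `v ≠ r`; if for instance `C.a = C.r` then `φ a = 0` anyway),
so `c ∈ code` (characteristic 2) and `∑ p, c p * s p = 0` by `hs`. -/
theorem realize (C : Sys V N) (s : N → ZMod 2) (hs : ∀ u ∈ C.code, ∑ p, s p * u p = 0) :
    ∃ (y1 y2 : N → ZMod 2) (w : Fin 4 → ZMod 2), C.Flow y1 y2 w ∧ ∀ p, y1 p + y2 p = s p := by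
  classical
  let R : Fin 4 → V := ![C.a, C.g, C.k1, C.k2]
  let A : ({v : V // v ≠ C.r} ⊕ N) → (N ⊕ N ⊕ Fin 4) → ZMod 2 := fun i j =>
    match i, j with
    | Sum.inl v, Sum.inl p => ind ((C.e p).t1 = v.1) + ind ((C.e p).h1 = v.1)
    | Sum.inl v, Sum.inr (Sum.inl p) => ind ((C.e p).t2 = v.1) + ind ((C.e p).h2 = v.1)
    | Sum.inl v, Sum.inr (Sum.inr k) => ind (R k = v.1)
    | Sum.inr q, Sum.inl p => ind (q = p)
    | Sum.inr q, Sum.inr (Sum.inl p) => ind (q = p)
    | Sum.inr _, Sum.inr (Sum.inr _) => 0
  let b : ({v : V // v ≠ C.r} ⊕ N) → ZMod 2 := Sum.elim (fun _ => 0) s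
  obtain ⟨x, hx⟩ := fredholm A b (by
    intro c hc
    -- the extension of the first part
    let φ : V → ZMod 2 := fun v => if h : v ≠ C.r then c (Sum.inl ⟨v, h⟩) else 0
    have hφr : φ C.r = 0 := by simp [φ]
    have hφ : ∀ u : V, ∑ v : {v : V // v ≠ C.r}, c (Sum.inl v) * ind (u = v.1) = φ u := by
      intro u
      by_cases hu : u = C.r
      · subst hu
        rw [hφr]
        refine Finset.sum_eq_zero fun v _ => ?_
        have : ¬ (C.r = v.1) := fun h => v.2 h.symm
        simp [ind, this]
      · rw [Finset.sum_eq_single (⟨u, hu⟩ : {v : V // v ≠ C.r})]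
        · simp [ind, φ, hu]
        · intro v _ hv
          have : ¬ (u = v.1) := fun h => hv (Subtype.ext h.symm)
          simp [ind, this]
        · intro h
          exact absurd (Finset.mem_univ _) h
    have hq : ∀ p : N, ∑ q : N, c (Sum.inr q) * ind (q = p) = c (Sum.inr p) := by
      intro p
      rw [Finset.sum_eq_single p]
      · simp [ind]
      · intro q _ hq
        simp [ind, hq]
      · intro h
        exact absurd (Finset.mem_univ _) h
    have e1 : ∀ p, φ (C.e p).t1 + φ (C.e p).h1 + c (Sum.inr p) = 0 := by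
      intro p
      have := hc (Sum.inl p)
      rw [Fintype.sum_sum_type] at this
      simp only [A, mul_add, Finset.sum_add_distrib, hφ, hq] at this
      exact this
    have e2 : ∀ p, φ (C.e p).t2 + φ (C.e p).h2 + c (Sum.inr p) = 0 := by
      intro p
      have := hc (Sum.inr (Sum.inl p))
      rw [Fintype.sum_sum_type] at this
      simp only [A, mul_add, Finset.sum_add_distrib, hφ, hq] at this
      exact this
    have e3 : ∀ k, φ (R k) = 0 := by
      intro k
      have := hc (Sum.inr (Sum.inr k))
      rw [Fintype.sum_sum_type] at this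
      simp only [A, hφ, mul_zero, Finset.sum_const_zero, add_zero] at this
      exact this
    have hcode : (fun p => c (Sum.inr p)) ∈ C.code := by
      refine ⟨φ, hφr, e3 0, e3 1, e3 2, e3 3, fun p => ⟨two_zmod _ _ (e1 p), two_zmod _ _ (e2 p)⟩⟩
    have h3 := hs _ hcode
    rw [Fintype.sum_sum_type]
    simp only [b, Sum.elim_inl, Sum.elim_inr, mul_zero, Finset.sum_const_zero, zero_add]
    rw [← h3]
    exact Finset.sum_congr rfl fun p _ => mul_comm _ _)
  refine ⟨fun p => x (Sum.inl p), fun p => x (Sum.inr (Sum.inl p)),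
    fun k => x (Sum.inr (Sum.inr k)), ?_, ?_⟩
  · intro v hv
    have := hx (Sum.inl ⟨v, hv⟩)
    rw [Fintype.sum_sum_type, Fintype.sum_sum_type] at this
    simp only [A, b, Sum.elim_inl] at this
    rw [Fin.sum_univ_four] at this
    rw [Finset.sum_add_distrib, ← this]
    have hR0 : R 0 = C.a := rfl
    have hR1 : R 1 = C.g := rfl
    have hR2 : R 2 = C.k1 := rfl
    have hR3 : R 3 = C.k2 := rfl
    rw [hR0, hR1, hR2, hR3]
    have f1 : ∀ p, x (Sum.inl p) * (ind ((C.e p).t1 = v) + ind ((C.e p).h1 = v)) =
        (ind ((C.e p).t1 = v) + ind ((C.e p).h1 = v)) * x (Sum.inl p) := fun p => mul_comm _ _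
    have f2 : ∀ p, x (Sum.inr (Sum.inl p)) * (ind ((C.e p).t2 = v) + ind ((C.e p).h2 = v)) =
        (ind ((C.e p).t2 = v) + ind ((C.e p).h2 = v)) * x (Sum.inr (Sum.inl p)) :=
      fun p => mul_comm _ _
    simp only [f1, f2]
    ring
  · intro p
    have := hx (Sum.inr p)
    rw [Fintype.sum_sum_type, Fintype.sum_sum_type] at this
    simp only [A, b, Sum.elim_inr, zero_mul, Finset.sum_const_zero, add_zero] at this
    have h1 : ∀ y : N → ZMod 2, ∑ q : N, ind (p = q) * y q = y p := by
      intro y
      rw [Finset.sum_eq_single p]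
      · simp [ind]
      · intro q _ hq
        have : ¬ (p = q) := fun h => hq h.symm
        simp [ind, this]
      · intro h
        exact absurd (Finset.mem_univ _) h
    rw [h1 (fun q => x (Sum.inl q)), h1 (fun q => x (Sum.inr (Sum.inl q)))] at this
    exact this

end Sys

end CYC
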