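import Pool.Agent.CYC.M4

set_option autoImplicit false
set_option linter.unusedSectionVars false
set_option linter.unusedDecidableInType false

/-! [CYC-M4b] the dimension of the relations supported in `Z`. -/

namespace CYC

open Finset Module

namespace Sys

variable {V N : Type} [DecidableEq V] [Fintype V] [Fintype N] [DecidableEq N]

/-- a sum of a 0/1 indicator against a function -/
private theorem sum_ind_mul {L : Finset V} {x : V} (hx : x ∈ L) (ψ : V → ZMod 2) :
    ∑ c : L, (ind (x = (c : V)) : ZMod 2) * ψ c = ψ x := by
  rw [Finset.sum_eq_single (⟨x, hx⟩ : L)]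
  · simp [ind]
  · intro c _ hc
    have : x ≠ (c : V) := by
      intro h
      exact hc (Subtype.ext h.symm)
    simp [ind, this]
  · intro h
    exact absurd (Finset.mem_univ _) h

private theorem sum_dv_mul (C : Sys V N) {f : V → V} (p : N) (ψ : V → ZMod 2) :
    ∑ c : (univ.image f : Finset V), C.dv f p c * ψ c =
      ψ (f (C.e p).t1) + ψ (f (C.e p).h1) + (ψ (f (C.e p).t2) + ψ (f (C.e p).h2)) := by
  have hm : ∀ v, f v ∈ (univ.image f : Finset V) := fun v => Finset.mem_image_of_mem f (mem_univ v)
  have e : ∀ c : (univ.image f : Finset V), C.dv f p c * ψ c =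
      ((ind (f (C.e p).t1 = (c : V)) : ZMod 2) * ψ c + (ind (f (C.e p).h1 = (c : V)) : ZMod 2) * ψ c) +
      ((ind (f (C.e p).t2 = (c : V)) : ZMod 2) * ψ c + (ind (f (C.e p).h2 = (c : V)) : ZMod 2) * ψ c) := by
    intro c
    simp only [dv]
    ring
  rw [Finset.sum_congr rfl (fun c _ => e c), Finset.sum_add_distrib, Finset.sum_add_distrib,
    Finset.sum_add_distrib, sum_ind_mul (hm _), sum_ind_mul (hm _), sum_ind_mul (hm _),
    sum_ind_mul (hm _)]

private theorem dv_zero (C : Sys V N) {f : V → V} (p : N) {c : V}
    (hc : c ∉ (univ.image f : Finset V)) : C.dv f p c = 0 := by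
  have h : ∀ v, f v ≠ c := by
    intro v hv
    exact hc (Finset.mem_image.2 ⟨v, mem_univ v, hv⟩)
  simp [dv, ind, h]

/-- (2) PROOF. Choose `B ⊆ Z` such that `dv p`, `p ∈ B`, is a basis of the span of `dv p`, `p ∈ Z` (over
`ZMod 2` an element of the span of an independent family is a subset sum). Every `c ∈ code ⊓ sup Z` comes from a
`φ` with `Cst Z φ` and `φ r = 0`, so `φ = ψ ∘ f` with `ψ = φ` restricted to the labels `Lb = univ.image f`; the
condition for `p ∈ Z` is `∑ c ∈ Lb, dv p c * ψ c = 0`. So the dimension of `code ⊓ sup Z` is at most the dimension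
of the space of all `ψ : Lb → ZMod 2` with `ψ (f r) = 0` and `∑ c, dv p c * ψ c = 0` for `p ∈ B`. The `B.card + 1`
functionals are independent: the vectors `dv p` (`p ∈ B`) are independent and have even weight (sum of all
coordinates 0: four ends), the vector of the point `f r` has weight 1. So that dimension is
`Lb.card - 1 - B.card`. -/
theorem exists_basis (C : Sys V N) (Z : Finset N) {f : V → V} (hf : C.Lab Z f) :
    ∃ B ⊆ Z, (∀ p ∈ Z, ∃ B' ⊆ B, C.dv f p = ∑ q ∈ B', C.dv f q) ∧
      finrank (ZMod 2) ↥(C.code ⊓ sup Z) + 1 + B.card ≤ (univ.image f).card := by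
  classical
  obtain ⟨b, hbZ, -, hspan, hli⟩ := exists_linearIndepOn_extension (K := ZMod 2) (v := C.dv f)
    (linearIndepOn_empty (ZMod 2) (C.dv f)) (Set.empty_subset (Z : Set N))
  have hm : ∀ v, f v ∈ (univ.image f : Finset V) := fun v => Finset.mem_image_of_mem f (mem_univ v)
  obtain ⟨B, rfl⟩ : ∃ B : Finset N, (B : Set N) = b :=
    ⟨b.toFinset, by simp⟩
  have hBZ : B ⊆ Z := fun x hx => by
    have := hbZ (Finset.mem_coe.2 hx)
    exact Finset.mem_coe.1 this
  refine ⟨B, hBZ, ?_, ?_⟩
  · intro p hp
    have h1 : C.dv f p ∈ Submodule.span (ZMod 2) (C.dv f '' (B : Set N)) :=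
      hspan ⟨p, Finset.mem_coe.2 hp, rfl⟩
    rw [Submodule.mem_span_image_finset_iff_exists_fun] at h1
    obtain ⟨c, hc⟩ := h1
    refine ⟨(univ.filter (fun q : B => c q = 1)).map (Function.Embedding.subtype _), ?_, ?_⟩
    · intro x hx
      rw [Finset.mem_map] at hx
      obtain ⟨y, -, rfl⟩ := hx
      exact y.2
    rw [← hc, Finset.sum_map, Finset.sum_filter]
    refine Finset.sum_congr rfl (fun q _ => ?_)
    have h2 : c q = 0 ∨ c q = 1 := by
      generalize c q = z
      revert z
      decide
    rcases h2 with h2 | h2
    · simp [h2]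
    · simp [h2]
  · -- the matrix of the functionals
    let Lb : Finset V := univ.image f
    let M : Matrix (Option B) Lb (ZMod 2) := fun i c =>
      match i with
      | none => ind (f C.r = (c : V))
      | some p => C.dv f p c
    have hrow : LinearIndependent (ZMod 2) M.row := by
      rw [Fintype.linearIndependent_iff]
      intro g hg
      have hg' : ∀ c : Lb, g none * ind (f C.r = (c : V)) + ∑ p : B, g (some p) * C.dv f p c = 0 := by
        intro c
        have h1 := congrFun hg c
        rw [Fintype.sum_option] at h1
        simpa [M, Matrix.row, Finset.sum_apply] using h1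
      have h0 : g none = 0 := by
        have h2 : ∑ c : Lb, (g none * ind (f C.r = (c : V)) +
            ∑ p : B, g (some p) * C.dv f p c) = 0 :=
          Finset.sum_eq_zero (fun c _ => hg' c)
        rw [Finset.sum_add_distrib, Finset.sum_comm] at h2
        have h3 : ∑ c : Lb, g none * (ind (f C.r = (c : V)) : ZMod 2) = g none := by
          rw [← Finset.mul_sum]
          have := sum_ind_mul (L := Lb) (hm C.r) (fun _ => (1 : ZMod 2))
          simp only [mul_one] at this
          rw [this, mul_one]
        have h4 : ∑ p : B, ∑ c : Lb, g (some p) * C.dv f p c = 0 := by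
          refine Finset.sum_eq_zero (fun p _ => ?_)
          rw [← Finset.mul_sum]
          have := C.sum_dv_mul (f := f) p (fun _ => (1 : ZMod 2))
          simp only [mul_one] at this
          rw [this]
          have : (1 + 1 + (1 + 1) : ZMod 2) = 0 := by decide
          rw [this, mul_zero]
        rw [h3, h4, add_zero] at h2
        exact h2
      have h5 : ∑ p : B, g (some p) • C.dv f p = 0 := by
        funext c
        rw [Finset.sum_apply]
        simp only [Pi.smul_apply, smul_eq_mul, Pi.zero_apply]
        by_cases hc : c ∈ Lb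
        · have := hg' ⟨c, hc⟩
          rw [h0, zero_mul, zero_add] at this
          exact this
        · refine Finset.sum_eq_zero (fun p _ => ?_)
          rw [C.dv_zero p hc, mul_zero]
      have h6 : LinearIndependent (ZMod 2) (fun p : B => C.dv f p) := hli
      rw [Fintype.linearIndependent_iff] at h6
      have h7 := h6 (fun p => g (some p)) h5
      intro i
      cases i with
      | none => exact h0
      | some p => exact h7 p
    have hrank : M.rank = B.card + 1 := by
      rw [hrow.rank_matrix]
      simp
    have hker := M.mulVecLin.finrank_range_add_finrank_ker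
    have hr2 : finrank (ZMod 2) (LinearMap.range M.mulVecLin) = B.card + 1 := hrank
    have hL : finrank (ZMod 2) (Lb → ZMod 2) = Lb.card := by
      rw [Module.finrank_fintype_fun_eq_card, Fintype.card_coe]
    -- the map from the functions on the labels to the code
    let T : (Lb → ZMod 2) →ₗ[ZMod 2] (N → ZMod 2) :=
      { toFun := fun ψ p => ψ ⟨f (C.e p).t1, hm _⟩ + ψ ⟨f (C.e p).h1, hm _⟩
        map_add' := by
          intro a b
          funext p
          simp only [Pi.add_apply]
          ring
        map_smul' := by
          intro a b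
          funext p
          simp only [Pi.smul_apply, smul_eq_mul, RingHom.id_apply]
          ring }
    have hle : C.code ⊓ sup Z ≤ (LinearMap.ker M.mulVecLin).map T := by
      rintro c ⟨⟨φ, hr, ha, hg, hk1, hk2, hp⟩, hs⟩
      have hs' : ∀ p, p ∉ Z → c p = 0 := hs
      have hC : C.Cst Z φ := by
        refine ⟨fun p hpZ => ?_, by rw [ha, hr], by rw [hg, hr], by rw [hk1, hr], by rw [hk2, hr]⟩
        have h1 := hp p
        rw [hs' p hpZ] at h1
        exact ⟨CharTwo.add_eq_zero.1 h1.1, CharTwo.add_eq_zero.1 h1.2⟩
      have hf' := hf.fac φ hC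
      refine ⟨fun x => φ x, ?_, ?_⟩
      · rw [SetLike.mem_coe, LinearMap.mem_ker]
        funext i
        rw [Matrix.mulVecLin_apply]
        cases i with
        | none =>
          have := sum_ind_mul (L := Lb) (hm C.r) φ
          have h2 : (M.mulVec fun x : Lb => φ x) none = φ (f C.r) := by
            rw [← this]
            rfl
          rw [h2, hf', hr]
          rfl
        | some p =>
          have := C.sum_dv_mul (f := f) (p : N) φ
          have h2 : (M.mulVec fun x : Lb => φ x) (some p) =
              φ (f (C.e p).t1) + φ (f (C.e p).h1) + (φ (f (C.e p).t2) + φ (f (C.e p).h2)) := by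
            rw [← this]
            rfl
          rw [h2, hf', hf', hf', hf', (hp p).1, (hp p).2]
          exact CharTwo.add_self_eq_zero _
      · funext p
        show φ (f (C.e p).t1) + φ (f (C.e p).h1) = c p
        rw [hf', hf', (hp p).1]
    have h8 : finrank (ZMod 2) ↥(C.code ⊓ sup Z) ≤ finrank (ZMod 2) (LinearMap.ker M.mulVecLin) :=
      (Submodule.finrank_mono hle).trans (Submodule.finrank_map_le T _)
    rw [hL, hr2] at hker
    show finrank (ZMod 2) ↥(C.code ⊓ sup Z) + 1 + B.card ≤ Lb.card
    omega

end Sys

end CYC
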