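import Pool.Agent.CYC.M4

set_option autoImplicit false
set_option linter.unusedSectionVars false
set_option linter.unusedDecidableInType false

/-! [CYC-M4c] the number of components. -/

namespace CYC

open Finset Module

namespace Sys

variable {V N : Type} [DecidableEq V] [Fintype V] [Fintype N] [DecidableEq N]

/-- (3) PROOF. The space of all `ψ : V → ZMod 2` with support in the labels and `ψ (f r) = 0` has dimension
`Lb.card - 1`; the map `ψ ↦ (ψ (f t1) + ψ (f h1))_{p ∈ Z}` to `Z → ZMod 2` is injective: if the image is 0 let `W` be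
the set of all `v` with `ψ (f v) = 1`. It does not contain `r`, `a`; no arc 1 crosses it (for `p ∉ Z` because `f` is
constant on the arc), but if `W` is nonempty `h.pri` (with the point `a ≠ r` outside `W`) gives a `p` with
`ou = 1`, `it = 1`, so both arcs cross `W`. -/
theorem card_labels (C : Sys V N) (h : C.Gd) (ha : C.a ≠ C.r) (Z : Finset N) {f : V → V} (hf : C.Lab Z f) :
    (univ.image f).card ≤ Z.card + 1 := by
  classical
  let S : Finset V := (univ.image f).erase (f C.r)
  let ex : ({c // c ∈ S} → ZMod 2) → V → ZMod 2 := fun ψ v => if hv : v ∈ S then ψ ⟨v, hv⟩ else 0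
  have exadd : ∀ ψ ψ' v, ex (ψ + ψ') v = ex ψ v + ex ψ' v := by
    intro ψ ψ' v
    by_cases hv : v ∈ S
    · simp [ex, hv]
    · simp [ex, hv]
  have exsmul : ∀ (m : ZMod 2) ψ v, ex (m • ψ) v = m * ex ψ v := by
    intro m ψ v
    by_cases hv : v ∈ S
    · simp [ex, hv]
    · simp [ex, hv]
  let T : ({c // c ∈ S} → ZMod 2) →ₗ[ZMod 2] ({p // p ∈ Z} → ZMod 2) :=
    { toFun := fun ψ p => ex ψ (f (C.e p.1).t1) + ex ψ (f (C.e p.1).h1)
      map_add' := by
        intro ψ ψ'
        funext p
        simp only [Pi.add_apply, exadd]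
        ring
      map_smul' := by
        intro m ψ
        funext p
        simp only [Pi.smul_apply, smul_eq_mul, exsmul, RingHom.id_apply]
        ring }
  have z2 : ∀ x : ZMod 2, x ≠ 0 → x = 1 := by decide
  have z3 : ∀ x y : ZMod 2, x + y = 0 → x = y := by decide
  have hinj : Function.Injective T := by
    rw [← LinearMap.ker_eq_bot, LinearMap.ker_eq_bot']
    intro ψ hψ
    by_contra hne
    obtain ⟨c, hc⟩ : ∃ c, ψ c ≠ 0 := by
      by_contra hcon
      push Not at hcon
      exact hne (funext hcon)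
    have harc : ∀ p, ex ψ (f (C.e p).t1) = ex ψ (f (C.e p).h1) := by
      intro p
      by_cases hp : p ∈ Z
      · have := congrFun hψ ⟨p, hp⟩
        exact z3 _ _ this
      · rw [(hf.cst.1 p hp).1]
    have hr0 : ex ψ (f C.r) = 0 := by
      simp [ex, S]
    let W : Finset V := univ.filter (fun v => ex ψ (f v) = 1)
    have hrW : C.r ∉ W := by
      simp [W, hr0]
    have haW : C.a ∉ W := by
      simp [W, hf.cst.2.1, hr0]
    have hcS : c.1 ∈ S := c.2
    have hcf : f c.1 = c.1 := by
      have h1 := Finset.mem_of_mem_erase hcS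
      obtain ⟨v, -, hv⟩ := Finset.mem_image.1 h1
      rw [← hv, hf.idem]
    have hcW : c.1 ∈ W := by
      simp only [W, Finset.mem_filter, Finset.mem_univ, true_and]
      rw [hcf]
      have : ex ψ c.1 = ψ c := by simp [ex]
      rw [this]
      exact z2 _ hc
    obtain ⟨p, hp1, hp2⟩ := h.pri W hrW ⟨c.1, hcW⟩ ⟨C.a, ha, haW⟩
    have hiff : (C.e p).t1 ∈ W ↔ (C.e p).h1 ∈ W := by
      simp only [W, Finset.mem_filter, Finset.mem_univ, true_and]
      rw [harc p]
    unfold ou at hp1
    unfold it at hp2
    have e1 : ind (A := ℕ) ((C.e p).t1 ∈ W ∧ (C.e p).h1 ∉ W) = 0 := by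
      unfold ind
      rw [if_neg]
      rintro ⟨x1, x2⟩
      exact x2 (hiff.1 x1)
    have e2 : ind (A := ℕ) ((C.e p).t1 ∉ W ∧ (C.e p).h1 ∈ W) = 0 := by
      unfold ind
      rw [if_neg]
      rintro ⟨x1, x2⟩
      exact x1 (hiff.2 x2)
    rw [e1, zero_add] at hp1
    rw [e2, zero_add] at hp2
    unfold ind at hp1 hp2
    split_ifs at hp1 hp2 with h3 h4
    exact h4.1 h3.1
  have hfin := LinearMap.finrank_le_finrank_of_injective hinj
  rw [Module.finrank_fintype_fun_eq_card, Module.finrank_fintype_fun_eq_card, Fintype.card_coe,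
    Fintype.card_coe] at hfin
  have hmem : f C.r ∈ univ.image f := Finset.mem_image_of_mem f (Finset.mem_univ _)
  have hcard : S.card = (univ.image f).card - 1 := Finset.card_erase_of_mem hmem
  omega

end Sys

end CYC
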