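import Pool.Agent.CYC.M4

set_option autoImplicit false
set_option linter.unusedSectionVars false
set_option linter.unusedDecidableInType false

/-! [CYC-M5] the arcs at the components. -/

namespace CYC

open Finset Module

namespace Sys

variable {V N : Type} [DecidableEq V] [Fintype V] [Fintype N] [DecidableEq N]

private theorem zt : ∀ x : ZMod 2, x = 0 ∨ x = 1 := by decide

private theorem ou_zero (C : Sys V N) (W : Finset V) (p : N)
    (h1 : (C.e p).t1 ∈ W ↔ (C.e p).h1 ∈ W) (h2 : (C.e p).t2 ∈ W ↔ (C.e p).h2 ∈ W) :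
    C.ou W p = 0 := by
  unfold ou ind
  rw [if_neg (fun h => h.2 (h1.1 h.1)), if_neg (fun h => h.2 (h2.1 h.1)), add_zero]

private theorem it_zero (C : Sys V N) (W : Finset V) (p : N)
    (h1 : (C.e p).t1 ∈ W ↔ (C.e p).h1 ∈ W) (h2 : (C.e p).t2 ∈ W ↔ (C.e p).h2 ∈ W) :
    C.it W p = 0 := by
  unfold it ind
  rw [if_neg (fun h => h.1 (h1.2 h.2)), if_neg (fun h => h.1 (h2.2 h.2)), add_zero]

private theorem ou_compl (C : Sys V N) (W : Finset V) (p : N) : C.ou Wᶜ p = C.it W p := by
  unfold ou it ind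
  simp only [Finset.mem_compl, not_not]

private theorem it_compl (C : Sys V N) (W : Finset V) (p : N) : C.it Wᶜ p = C.ou W p := by
  unfold ou it ind
  simp only [Finset.mem_compl, not_not]

private theorem mem_cl (f : V → V) (c v : V) : v ∈ cl f c ↔ f v = c := by
  unfold cl
  simp

/-- (1) PROOF. If `φ` gives `Pi.single p 1` let `W = {φ = 1}`: `r, a, g ∉ W`, the only arcs that cross `W` are the
two of `p`. By `h.out` both leave `W` (`W` is nonempty since `φ` is not constant on arc 1 of `p`), by `h.pri`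
some `q` has `ou = it = 1`, so `q = p` and one of its arcs enters `W`; contradiction. (For `h.pri` the point
`a ≠ r` is outside `W`.) -/
theorem single_notMem (C : Sys V N) (h : C.Gd) (ha : C.a ≠ C.r) (p : N) :
    Pi.single p 1 ∉ C.code := by
  classical
  rintro ⟨φ, hr, ha0, hg0, -, -, hp⟩
  have hpp : ∀ q, ∀ x y : V, φ x + φ y = (Pi.single p 1 : N → ZMod 2) q → q ≠ p → φ x = φ y := by
    intro q x y hxy hq
    rw [Pi.single_eq_of_ne hq] at hxy
    have z3 : ∀ x y : ZMod 2, x + y = 0 → x = y := by decide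
    exact z3 _ _ hxy
  let W : Finset V := univ.filter (fun v => φ v = 1)
  have hW : ∀ v, v ∈ W ↔ φ v = 1 := by
    intro v
    simp [W]
  have hrW : C.r ∉ W := by
    rw [hW, hr]
    exact zero_ne_one
  have haW : C.a ∉ W := by
    rw [hW, ha0]
    exact zero_ne_one
  have hgW : C.g ∉ W := by
    rw [hW, hg0]
    exact zero_ne_one
  have hne : W.Nonempty := by
    have h1 := (hp p).1
    rw [Pi.single_eq_same] at h1
    rcases zt (φ (C.e p).t1) with h2 | h2
    · rw [h2, zero_add] at h1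
      exact ⟨_, (hW _).2 h1⟩
    · exact ⟨_, (hW _).2 h2⟩
  have hoth : ∀ q, q ≠ p → C.ou W q = 0 := by
    intro q hq
    refine ou_zero C W q ?_ ?_
    · rw [hW, hW, hpp q _ _ (hp q).1 hq]
    · rw [hW, hW, hpp q _ _ (hp q).2 hq]
  have hout := h.out W hrW hne
  have ea : ind (A := ℕ) (C.a ∈ W) = 0 := by
    unfold ind
    rw [if_neg haW]
  have eg : ind (A := ℕ) (C.g ∈ W) = 0 := by
    unfold ind
    rw [if_neg hgW]
  rw [ea, eg, add_zero, add_zero, Finset.sum_eq_single p (fun q _ hq => hoth q hq)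
    (fun hh => absurd (Finset.mem_univ p) hh)] at hout
  obtain ⟨q, hq1, hq2⟩ := h.pri W hrW hne ⟨C.a, ha, haW⟩
  by_cases hqp : q = p
  · rw [hqp] at hq1
    omega
  · rw [hoth q hqp] at hq1
    exact absurd hq1 (by norm_num)

/-- (2) the component of a label different from the one of the root. PROOF. `h.out` for the class
`W = cl f c`: `r, a, g ∉ W`; for `p ∉ Z` no arc crosses `W`. -/
theorem two_le_ou (C : Sys V N) (h : C.Gd) (Z : Finset N) {f : V → V} (hf : C.Lab Z f) {c : V}
    (hc : c ∈ univ.image f) (hcr : c ≠ f C.r) : 2 ≤ ∑ p ∈ Z, C.ou (cl f c) p := by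
  classical
  have hrW : C.r ∉ cl f c := by
    rw [mem_cl]
    exact fun hh => hcr hh.symm
  have haW : C.a ∉ cl f c := by
    rw [mem_cl, hf.cst.2.1]
    exact fun hh => hcr hh.symm
  have hgW : C.g ∉ cl f c := by
    rw [mem_cl, hf.cst.2.2.1]
    exact fun hh => hcr hh.symm
  have hne : (cl f c).Nonempty := by
    obtain ⟨v, -, hv⟩ := Finset.mem_image.1 hc
    exact ⟨v, (mem_cl f c v).2 hv⟩
  have hout := h.out _ hrW hne
  have ea : ind (A := ℕ) (C.a ∈ cl f c) = 0 := by
    unfold ind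
    rw [if_neg haW]
  have eg : ind (A := ℕ) (C.g ∈ cl f c) = 0 := by
    unfold ind
    rw [if_neg hgW]
  rw [ea, eg, add_zero, add_zero] at hout
  have hsum : ∑ p ∈ Z, C.ou (cl f c) p = ∑ p, C.ou (cl f c) p := by
    refine Finset.sum_subset (Finset.subset_univ Z) (fun p _ hp => ?_)
    refine ou_zero C _ p ?_ ?_
    · rw [mem_cl, mem_cl, (hf.cst.1 p hp).1]
    · rw [mem_cl, mem_cl, (hf.cst.1 p hp).2]
  rw [hsum]
  exact hout

/-- (3) the component of the root, if there are others. PROOF. `h.out` for the complement of the class: an arc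
leaves the complement iff it enters the class. -/
theorem two_le_it (C : Sys V N) (h : C.Gd) (Z : Finset N) {f : V → V} (hf : C.Lab Z f)
    (h2 : 2 ≤ (univ.image f).card) : 2 ≤ ∑ p ∈ Z, C.it (cl f (f C.r)) p := by
  classical
  have hrW : C.r ∉ (cl f (f C.r))ᶜ := by
    rw [Finset.mem_compl, mem_cl, not_not]
  have haW : C.a ∉ (cl f (f C.r))ᶜ := by
    rw [Finset.mem_compl, mem_cl, not_not]
    exact hf.cst.2.1
  have hgW : C.g ∉ (cl f (f C.r))ᶜ := by
    rw [Finset.mem_compl, mem_cl, not_not]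
    exact hf.cst.2.2.1
  have hne : ((cl f (f C.r))ᶜ).Nonempty := by
    obtain ⟨c, hc, hcr⟩ := Finset.exists_mem_ne h2 (f C.r)
    obtain ⟨v, -, hv⟩ := Finset.mem_image.1 hc
    refine ⟨v, ?_⟩
    rw [Finset.mem_compl, mem_cl, hv]
    exact hcr
  have hout := h.out _ hrW hne
  have ea : ind (A := ℕ) (C.a ∈ (cl f (f C.r))ᶜ) = 0 := by
    unfold ind
    rw [if_neg haW]
  have eg : ind (A := ℕ) (C.g ∈ (cl f (f C.r))ᶜ) = 0 := by
    unfold ind
    rw [if_neg hgW]
  rw [ea, eg, add_zero, add_zero] at hout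
  have hsum : ∑ p ∈ Z, C.it (cl f (f C.r)) p = ∑ p, C.it (cl f (f C.r)) p := by
    refine Finset.sum_subset (Finset.subset_univ Z) (fun p _ hp => ?_)
    refine it_zero C _ p ?_ ?_
    · rw [mem_cl, mem_cl, (hf.cst.1 p hp).1]
    · rw [mem_cl, mem_cl, (hf.cst.1 p hp).2]
  rw [hsum]
  simp only [ou_compl] at hout
  exact hout

/-- (4) PROOF. `h.pri` for the class or, for the root, for its complement. The point outside: `a` is in the
class of the root; use `a` if `a ≠ r`; the hypothesis `ha` provides this. -/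
theorem exists_pri (C : Sys V N) (h : C.Gd) (ha : C.a ≠ C.r) (Z : Finset N) {f : V → V}
    (hf : C.Lab Z f) (h2 : 2 ≤ (univ.image f).card) {c : V} (hc : c ∈ univ.image f) :
    ∃ p ∈ Z, C.ou (cl f c) p = 1 ∧ C.it (cl f c) p = 1 := by
  classical
  have hmem : ∀ p, p ∉ Z → C.ou (cl f c) p = 0 := by
    intro p hp
    refine ou_zero C _ p ?_ ?_
    · rw [mem_cl, mem_cl, (hf.cst.1 p hp).1]
    · rw [mem_cl, mem_cl, (hf.cst.1 p hp).2]
  have key : ∃ p, C.ou (cl f c) p = 1 ∧ C.it (cl f c) p = 1 := by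
    by_cases hcr : c = f C.r
    · subst hcr
      have hrW : C.r ∉ (cl f (f C.r))ᶜ := by
        rw [Finset.mem_compl, mem_cl, not_not]
      have haW : C.a ∉ (cl f (f C.r))ᶜ := by
        rw [Finset.mem_compl, mem_cl, not_not]
        exact hf.cst.2.1
      have hne : ((cl f (f C.r))ᶜ).Nonempty := by
        obtain ⟨c, hc, hcr⟩ := Finset.exists_mem_ne h2 (f C.r)
        obtain ⟨v, -, hv⟩ := Finset.mem_image.1 hc
        refine ⟨v, ?_⟩
        rw [Finset.mem_compl, mem_cl, hv]
        exact hcr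
      obtain ⟨p, hp1, hp2⟩ := h.pri _ hrW hne ⟨C.a, ha, haW⟩
      rw [ou_compl] at hp1
      rw [it_compl] at hp2
      exact ⟨p, hp2, hp1⟩
    · have hrW : C.r ∉ cl f c := by
        rw [mem_cl]
        exact fun hh => hcr hh.symm
      have haW : C.a ∉ cl f c := by
        rw [mem_cl, hf.cst.2.1]
        exact fun hh => hcr hh.symm
      have hne : (cl f c).Nonempty := by
        obtain ⟨v, -, hv⟩ := Finset.mem_image.1 hc
        exact ⟨v, (mem_cl f c v).2 hv⟩
      exact h.pri _ hrW hne ⟨C.a, ha, haW⟩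
  obtain ⟨p, hp1, hp2⟩ := key
  refine ⟨p, ?_, hp1, hp2⟩
  by_contra hp
  rw [hmem p hp] at hp1
  exact absurd hp1 (by norm_num)

/-- (5) PROOF. `φ` = indicator of the class (of its complement if `c = f r`) shows that the indicator of
`I = {p ∈ Z | ou + it = 2}` is in the code (`ou + it` is the number of arcs of `p` which cross the class; it is 0 or
2 for `p ∈ Z` and 0 for `p ∉ Z`). `I` is nonempty by (4), it has not exactly one element by (1) and not exactly two
elements by `hZ`; so it has at least three and the sum is at least 6. -/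
theorem six_le (C : Sys V N) (h : C.Gd) (ha : C.a ≠ C.r) (Z : Finset N) (hZ : ∀ p ∈ Z, ∀ q ∈ Z, p ≠ q → Pi.single p 1 + Pi.single q 1 ∉ C.code)
    {f : V → V} (hf : C.Lab Z f) (h2 : 2 ≤ (univ.image f).card) {c : V} (hc : c ∈ univ.image f)
    (hev : ∀ p ∈ Z, Even (C.ou (cl f c) p + C.it (cl f c) p)) :
    6 ≤ ∑ p ∈ Z, (C.ou (cl f c) p + C.it (cl f c) p) := by
  classical
  let I : Finset N := Z.filter (fun p => C.ou (cl f c) p + C.it (cl f c) p = 2)
  -- crossing numbers
  have hcr : ∀ p, C.ou (cl f c) p + C.it (cl f c) p =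
      (if ((C.e p).t1 ∈ cl f c ↔ (C.e p).h1 ∈ cl f c) then 0 else 1) +
      (if ((C.e p).t2 ∈ cl f c ↔ (C.e p).h2 ∈ cl f c) then 0 else 1) := by
    intro p
    unfold ou it ind
    by_cases x1 : (C.e p).t1 ∈ cl f c <;> by_cases x2 : (C.e p).h1 ∈ cl f c <;>
      by_cases x3 : (C.e p).t2 ∈ cl f c <;> by_cases x4 : (C.e p).h2 ∈ cl f c <;>
      simp [x1, x2, x3, x4]
  have hI : ∀ p ∈ Z, (p ∈ I ↔ ¬ ((C.e p).t1 ∈ cl f c ↔ (C.e p).h1 ∈ cl f c)) ∧
      (p ∈ I ↔ ¬ ((C.e p).t2 ∈ cl f c ↔ (C.e p).h2 ∈ cl f c)) := by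
    intro p hp
    have hm : p ∈ I ↔ C.ou (cl f c) p + C.it (cl f c) p = 2 := by
      simp only [I, Finset.mem_filter, hp, true_and]
    have he := hev p hp
    rw [hm]
    rw [hcr p] at he ⊢
    by_cases y1 : ((C.e p).t1 ∈ cl f c ↔ (C.e p).h1 ∈ cl f c) <;>
      by_cases y2 : ((C.e p).t2 ∈ cl f c ↔ (C.e p).h2 ∈ cl f c)
    · simp [y1, y2]
    · rw [if_pos y1, if_neg y2] at he
      exact absurd he (by decide)
    · rw [if_neg y1, if_pos y2] at he
      exact absurd he (by decide)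
    · simp [y1, y2]
  have hIno : ∀ p, p ∉ Z → ((C.e p).t1 ∈ cl f c ↔ (C.e p).h1 ∈ cl f c) ∧
      ((C.e p).t2 ∈ cl f c ↔ (C.e p).h2 ∈ cl f c) := by
    intro p hp
    refine ⟨?_, ?_⟩
    · rw [mem_cl, mem_cl, (hf.cst.1 p hp).1]
    · rw [mem_cl, mem_cl, (hf.cst.1 p hp).2]
  -- the indicator of I is in the code
  let s : ZMod 2 := if f C.r = c then 1 else 0
  let φ : V → ZMod 2 := fun v => (if v ∈ cl f c then 1 else 0) + s
  have z2 : ∀ x : ZMod 2, x + x = 0 := by decide
  have hφr : ∀ v, f v = f C.r → φ v = 0 := by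
    intro v hv
    have h1 : v ∈ cl f c ↔ f C.r = c := by rw [mem_cl, hv]
    by_cases h3 : f C.r = c
    · simp only [φ, s, if_pos h3, if_pos (h1.2 h3)]
      exact z2 1
    · simp only [φ, s, if_neg h3, if_neg (fun hh => h3 (h1.1 hh)), add_zero]
  have hφs : ∀ x y : V, φ x + φ y = if (x ∈ cl f c ↔ y ∈ cl f c) then 0 else 1 := by
    intro x y
    have e1 : φ x + φ y = ((if x ∈ cl f c then 1 else 0) + (if y ∈ cl f c then 1 else 0)) +
        (s + s) := by
      simp only [φ]
      ring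
    rw [e1, z2 s, add_zero]
    by_cases h1 : x ∈ cl f c <;> by_cases h2 : y ∈ cl f c
    · simp only [h1, h2, if_true, iff_self]
      exact z2 1
    · simp [h1, h2]
    · simp [h1, h2]
    · simp [h1, h2]
  have hcode : (fun p => if p ∈ I then (1 : ZMod 2) else 0) ∈ C.code := by
    refine ⟨φ, hφr _ rfl, hφr _ hf.cst.2.1, hφr _ hf.cst.2.2.1, hφr _ hf.cst.2.2.2.1,
      hφr _ hf.cst.2.2.2.2, fun p => ?_⟩
    rw [hφs, hφs]
    beta_reduce
    by_cases hp : p ∈ Z
    · obtain ⟨i1, i2⟩ := hI p hp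
      by_cases hpI : p ∈ I
      · rw [if_neg (i1.1 hpI), if_neg (i2.1 hpI), if_pos hpI]
        exact ⟨rfl, rfl⟩
      · have j1 : ((C.e p).t1 ∈ cl f c ↔ (C.e p).h1 ∈ cl f c) := by
          by_contra hh
          exact hpI (i1.2 hh)
        have j2 : ((C.e p).t2 ∈ cl f c ↔ (C.e p).h2 ∈ cl f c) := by
          by_contra hh
          exact hpI (i2.2 hh)
        rw [if_pos j1, if_pos j2, if_neg hpI]
        exact ⟨rfl, rfl⟩
    · have hpI : p ∉ I := fun hh => hp (Finset.mem_filter.1 hh).1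
      obtain ⟨j1, j2⟩ := hIno p hp
      rw [if_pos j1, if_pos j2, if_neg hpI]
      exact ⟨rfl, rfl⟩
  -- I has at least three elements
  have h0 : I.card ≠ 0 := by
    obtain ⟨p, hp, hp1, hp2⟩ := exists_pri C h ha Z hf h2 hc
    have : p ∈ I := by
      simp only [I, Finset.mem_filter]
      exact ⟨hp, by rw [hp1, hp2]⟩
    exact Finset.card_ne_zero_of_mem this
  have h1 : I.card ≠ 1 := by
    intro h1
    obtain ⟨p, hp⟩ := Finset.card_eq_one.1 h1
    refine single_notMem C h ha p ?_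
    have : (Pi.single p 1 : N → ZMod 2) = fun q => if q ∈ I then (1 : ZMod 2) else 0 := by
      funext q
      rw [hp]
      by_cases hq : q = p
      · subst hq
        simp
      · rw [Pi.single_eq_of_ne hq, if_neg]
        rw [Finset.mem_singleton]
        exact hq
    rw [this]
    exact hcode
  have h3 : I.card ≠ 2 := by
    intro h3
    obtain ⟨p, q, hpq, hIpq⟩ := Finset.card_eq_two.1 h3
    have hpI : p ∈ I := by rw [hIpq]; simp
    have hqI : q ∈ I := by rw [hIpq]; simp
    refine hZ p (Finset.mem_filter.1 hpI).1 q (Finset.mem_filter.1 hqI).1 hpq ?_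
    have : (Pi.single p 1 + Pi.single q 1 : N → ZMod 2) =
        fun x => if x ∈ I then (1 : ZMod 2) else 0 := by
      funext x
      rw [hIpq]
      by_cases hx : x = p
      · subst hx
        rw [Pi.add_apply, Pi.single_eq_same, Pi.single_eq_of_ne hpq]
        simp
      · by_cases hx' : x = q
        · subst hx'
          rw [Pi.add_apply, Pi.single_eq_same, Pi.single_eq_of_ne hx]
          simp
        · rw [Pi.add_apply, Pi.single_eq_of_ne hx, Pi.single_eq_of_ne hx', if_neg]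
          · simp
          · simp [hx, hx']
    rw [this]
    exact hcode
  have hcard : 3 ≤ I.card := by omega
  have hsub : I ⊆ Z := Finset.filter_subset _ _
  calc 6 = 3 * 2 := rfl
    _ ≤ I.card * 2 := Nat.mul_le_mul_right 2 hcard
    _ = ∑ p ∈ I, 2 := by rw [Finset.sum_const, smul_eq_mul]
    _ = ∑ p ∈ I, (C.ou (cl f c) p + C.it (cl f c) p) := by
        refine Finset.sum_congr rfl (fun p hp => ?_)
        exact ((Finset.mem_filter.1 hp).2).symm
    _ ≤ ∑ p ∈ Z, (C.ou (cl f c) p + C.it (cl f c) p) :=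
        Finset.sum_le_sum_of_subset hsub

end Sys

end CYC
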