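import Pool.Agent.CYC.Defs

set_option autoImplicit false
set_option linter.unusedSectionVars false
set_option linter.unusedDecidableInType false

/-! [CYC-M6] the discharging lemma (pure combinatorics). -/

namespace CYC

open Finset

section

variable {L N : Type} [DecidableEq L] [DecidableEq N] (t1 h1 t2 h2 : N → L)

/-- number of arcs of `p` which leave the vertex `c` (loops do not count) -/
def lo (c : L) (p : N) : ℕ := ind (t1 p = c ∧ h1 p ≠ c) + ind (t2 p = c ∧ h2 p ≠ c)

/-- number of arcs of `p` which enter the vertex `c` -/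
def li (c : L) (p : N) : ℕ := ind (t1 p ≠ c ∧ h1 p = c) + ind (t2 p ≠ c ∧ h2 p = c)

end

private theorem one_arc {L : Type} [DecidableEq L] (a b c : L) :
    (ind (a = c ∧ b ≠ c) : ℕ) + ind (a ≠ c ∧ b = c) ≤ 1 := by
  unfold ind
  by_cases h1 : a = c <;> by_cases h2 : b = c <;> simp [h1, h2]

private theorem sg_le {L N : Type} [DecidableEq L] (t1 h1 t2 h2 : N → L) (c : L) (p : N) :
    lo t1 h1 t2 h2 c p + li t1 h1 t2 h2 c p ≤ 2 := by
  have e1 := one_arc (t1 p) (h1 p) c
  have e2 := one_arc (t2 p) (h2 p) c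
  unfold lo li
  omega

private theorem pick {N : Type} [DecidableEq N] (X : Finset N) (a b : N → ℕ)
    (h1 : 1 ≤ ∑ p ∈ X, a p) (h2 : ∑ p ∈ X, (a p + b p) = 1) :
    ∃ p ∈ X, a p = 1 ∧ b p = 0 ∧ ∀ x ∈ X, x ≠ p → a x + b x = 0 := by
  obtain ⟨p, hp, hp1⟩ : ∃ p ∈ X, a p ≠ 0 := by
    by_contra hcon
    push Not at hcon
    rw [Finset.sum_eq_zero hcon] at h1
    omega
  rw [← Finset.add_sum_erase X _ hp] at h2
  refine ⟨p, hp, by omega, by omega, fun x hx hxp => ?_⟩
  have h3 : ∑ q ∈ X.erase p, (a q + b q) = 0 := by omega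
  have h4 := (Finset.sum_eq_zero_iff.1 h3) x (Finset.mem_erase.2 ⟨hxp, hx⟩)
  exact h4

private theorem cast_ne_one (n : ℕ) (h : n ≤ 2) (h1 : n ≠ 1) : ((n : ℕ) : ZMod 2) = 0 := by
  have : n = 0 ∨ n = 2 := by omega
  rcases this with h2 | h2
  · rw [h2]; rfl
  · rw [h2]; rfl

private theorem sum_ind_le {L : Type} [DecidableEq L] (Lb : Finset L) (x : L) (w : ℕ) :
    ∑ c ∈ Lb, (if x = c then w else 0) ≤ w := by
  rw [Finset.sum_ite_eq]
  split_ifs
  · exact le_rfl
  · exact Nat.zero_le w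

/-- (1) A digraph on the vertices `Lb` with two arcs `t1 p → h1 p`, `t2 p → h2 p` for each `p ∈ Z`. `deg c` =
`∑ p ∈ Z, (lo c p + li c p)`. Call `p` single at `c` if `lo c p + li c p = 1` (out-single if `lo c p = 1`,
in-single if `li c p = 1`).
PROOF (discharging). `∑ c ∈ Lb, deg c ≤ 4 * Z.card` (each arc crosses at most two vertices). So it is enough to
show `∑ c ∈ Lb, (6 - deg c) ≤ 8 * B.card + 2` (in `ℤ`).
(a) every `c ∈ Lb` has `deg c ≥ 3`: the principal `p` of `hpri` gives one out and one in, and there is a further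
out-arc (`hout`; for `c0` a further in-arc, `hin`).
(b) if `c ≠ c0`, `deg c = 3`, then exactly one `p ∈ Z` is single at `c`, and it is out-single.
(c) if `c ≠ c0`, `p` is in-single at `c`, then `deg c ≥ 4`, and if `deg c = 4` then there is exactly one other
`p' ∈ Z` which is single at `c` and it is out-single at `c` (degree 4 = principal out + principal in + the in-arc of
`p` + one more arc, which is an out-arc by `hout` and belongs to another `p'`, different from the principal one).
(d) if no `p ∈ Z` is single at `c` then `deg c ≥ 6` (`hsix`).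
(e) if some `p ∈ Z` is single at `c` then some `q ∈ B` is single at `c` (`hspan`, read at `c`).
Call `p ∈ B` special if there is `c ≠ c0` in `Lb` with `deg c = 3` and `p` out-single at `c`. The charge of `c` from
`p ∈ B` is 0 if `p` is not single at `c`; else, if `p` is not special, 2; if `p` is special, 3 if out-single, 1 if
in-single. Each `p` gives at most 8: it is out-single only at `t1 p`, `t2 p` and in-single only at `h1 p`, `h2 p`.
Claim: `c ≠ c0` gets at least `6 - deg c`, and `c0` at least `4 - deg c0`.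
`deg c ≥ 6`: nothing needed. `deg c = 5`: by (d), (e) it gets at least 1. `deg c = 3`: by (b) the only single `p` at
`c` is out-single, `p ∈ B` by (e), it is special, and gives 3. `deg c = 4`: by (d), (e) some `p ∈ B` is single at
`c`. If `p` is not special it gives 2, if it is out-single it gives at least 2. If `p` is special and in-single let
`p'` be as in (c). If `p' ∈ B` it gives at least 2. If `p' ∉ B` write `p'` by `hspan` with `B' ⊆ B`: at `c` the left
side is 1, so some `q ∈ B'` is single at `c`, `q = p` since `p, p'` are the only ones; so `p ∈ B'`. Let `c'` be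
the vertex of degree 3 at which `p` is out-single (`p` special): `p` is the only single one at `c'`, so at `c'` the
left side is 0 and the right side is 1, contradiction.
`c0`: `deg c0 ≥ 4` nothing needed; `deg c0 = 3`: (d), (e) give at least 1. -/
theorem discharge {L N : Type} [DecidableEq L] [DecidableEq N] (Lb : Finset L) (c0 : L)
    (hc0 : c0 ∈ Lb) (Z B : Finset N) (hB : B ⊆ Z) (t1 h1 t2 h2 : N → L)
    (hout : ∀ c ∈ Lb, c ≠ c0 → 2 ≤ ∑ p ∈ Z, lo t1 h1 t2 h2 c p)
    (hin : 2 ≤ ∑ p ∈ Z, li t1 h1 t2 h2 c0 p)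
    (hpri : ∀ c ∈ Lb, ∃ p ∈ Z, lo t1 h1 t2 h2 c p = 1 ∧ li t1 h1 t2 h2 c p = 1)
    (hsix : ∀ c ∈ Lb, (∀ p ∈ Z, Even (lo t1 h1 t2 h2 c p + li t1 h1 t2 h2 c p)) →
      6 ≤ ∑ p ∈ Z, (lo t1 h1 t2 h2 c p + li t1 h1 t2 h2 c p))
    (hspan : ∀ p ∈ Z, ∃ B' ⊆ B, ∀ c ∈ Lb,
      ((lo t1 h1 t2 h2 c p + li t1 h1 t2 h2 c p : ℕ) : ZMod 2) =
        ∑ q ∈ B', ((lo t1 h1 t2 h2 c q + li t1 h1 t2 h2 c q : ℕ) : ZMod 2)) :
    6 * Lb.card ≤ 4 * Z.card + 8 * B.card + 2 := by
  classical
  let sg : L → N → ℕ := fun c p => lo t1 h1 t2 h2 c p + li t1 h1 t2 h2 c p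
  let deg : L → ℕ := fun c => ∑ p ∈ Z, sg c p
  have sg2 : ∀ c p, sg c p ≤ 2 := fun c p => sg_le t1 h1 t2 h2 c p
  have hdeg : ∀ c, deg c = ∑ p ∈ Z, lo t1 h1 t2 h2 c p + ∑ p ∈ Z, li t1 h1 t2 h2 c p := by
    intro c
    exact Finset.sum_add_distrib
  -- (b)
  have hb : ∀ c ∈ Lb, c ≠ c0 → deg c = 3 → ∃ p ∈ Z, lo t1 h1 t2 h2 c p = 1 ∧
      li t1 h1 t2 h2 c p = 0 ∧ ∀ x ∈ Z, x ≠ p → sg c x ≠ 1 := by
    intro c hc hcc hd
    obtain ⟨s, hs, hs1, hs2⟩ := hpri c hc
    have ho := hout c hc hcc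
    have hd' : ∑ p ∈ Z, sg c p = 3 := hd
    rw [← Finset.add_sum_erase Z _ hs] at ho hd'
    have hss : sg c s = 2 := by
      show lo t1 h1 t2 h2 c s + li t1 h1 t2 h2 c s = 2
      omega
    obtain ⟨p, hp, hp1, hp2, hp3⟩ := pick (Z.erase s) (fun p => lo t1 h1 t2 h2 c p)
      (fun p => li t1 h1 t2 h2 c p) (by omega) (by
        have : ∑ p ∈ Z.erase s, sg c p = 1 := by omega
        exact this)
    refine ⟨p, Finset.mem_of_mem_erase hp, hp1, hp2, fun x hx hxp => ?_⟩
    by_cases hxs : x = s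
    · rw [hxs, hss]; omega
    · have := hp3 x (Finset.mem_erase.2 ⟨hxs, hx⟩) hxp
      have h5 : sg c x = 0 := this
      rw [h5]; omega
  -- (c)
  have hcc : ∀ c ∈ Lb, c ≠ c0 → deg c = 4 → ∀ q ∈ Z, lo t1 h1 t2 h2 c q = 0 →
      li t1 h1 t2 h2 c q = 1 → ∃ p ∈ Z, p ≠ q ∧ lo t1 h1 t2 h2 c p = 1 ∧
      li t1 h1 t2 h2 c p = 0 ∧ ∀ x ∈ Z, x ≠ q → x ≠ p → sg c x ≠ 1 := by
    intro c hc hcc hd q hq hq0 hq1
    obtain ⟨s, hs, hs1, hs2⟩ := hpri c hc
    have ho := hout c hc hcc
    have hd' : ∑ p ∈ Z, sg c p = 4 := hd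
    have hqs : q ≠ s := by
      intro hh
      rw [hh] at hq0
      omega
    have hqe : q ∈ Z.erase s := Finset.mem_erase.2 ⟨hqs, hq⟩
    rw [← Finset.add_sum_erase Z _ hs, ← Finset.add_sum_erase (Z.erase s) _ hqe] at ho hd'
    have hss : sg c s = 2 := by
      show lo t1 h1 t2 h2 c s + li t1 h1 t2 h2 c s = 2
      omega
    have hsq : sg c q = 1 := by
      show lo t1 h1 t2 h2 c q + li t1 h1 t2 h2 c q = 1
      omega
    obtain ⟨p, hp, hp1, hp2, hp3⟩ := pick ((Z.erase s).erase q) (fun p => lo t1 h1 t2 h2 c p)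
      (fun p => li t1 h1 t2 h2 c p) (by omega) (by
        have : ∑ p ∈ (Z.erase s).erase q, sg c p = 1 := by omega
        exact this)
    refine ⟨p, Finset.mem_of_mem_erase (Finset.mem_of_mem_erase hp), Finset.ne_of_mem_erase hp,
      hp1, hp2, fun x hx hxq hxp => ?_⟩
    by_cases hxs : x = s
    · rw [hxs, hss]; omega
    · have := hp3 x (Finset.mem_erase.2 ⟨hxq, Finset.mem_erase.2 ⟨hxs, hx⟩⟩) hxp
      have h5 : sg c x = 0 := this
      rw [h5]; omega
  -- a vector with odd value at c has a single element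
  have hodd : ∀ c ∈ Lb, ∀ B' ⊆ B, ∑ q ∈ B', ((sg c q : ℕ) : ZMod 2) = 1 →
      ∃ q ∈ B', sg c q = 1 := by
    intro c _ B' _ hs
    by_contra hcon
    push Not at hcon
    rw [Finset.sum_eq_zero (fun q hq => cast_ne_one _ (sg2 c q) (hcon q hq))] at hs
    exact absurd hs (by decide)
  -- (d), (e)
  have hex : ∀ c ∈ Lb, deg c < 6 → ∃ q ∈ B, sg c q = 1 := by
    intro c hc hd
    obtain ⟨p, hp, hp1⟩ : ∃ p ∈ Z, sg c p = 1 := by
      by_contra hcon
      push Not at hcon
      have h6 := hsix c hc (fun p hp => by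
        have h7 := hcon p hp
        have h8 := sg2 c p
        have h9 : sg c p = 0 ∨ sg c p = 2 := by omega
        rcases h9 with h9 | h9
        · exact ⟨0, h9⟩
        · exact ⟨1, h9⟩)
      have h6' : 6 ≤ deg c := h6
      omega
    obtain ⟨B', hB', hsum⟩ := hspan p hp
    have h5 := hsum c hc
    have h6 : ∑ q ∈ B', ((sg c q : ℕ) : ZMod 2) = 1 := by
      have h7 : ((sg c p : ℕ) : ZMod 2) = ∑ q ∈ B', ((sg c q : ℕ) : ZMod 2) := h5
      rw [← h7, hp1]
      rfl
    obtain ⟨q, hq, hq1⟩ := hodd c hc B' hB' h6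
    exact ⟨q, hB' hq, hq1⟩
  -- the charges
  let spc : N → Prop := fun p => ∃ c ∈ Lb, c ≠ c0 ∧ deg c = 3 ∧ lo t1 h1 t2 h2 c p = 1 ∧
    li t1 h1 t2 h2 c p = 0
  let ch : L → N → ℕ := fun c p =>
    if sg c p = 1 then (if spc p then (if lo t1 h1 t2 h2 c p = 1 then 3 else 1) else 2) else 0
  -- each p gives at most 8
  have hch8 : ∀ p, ∑ c ∈ Lb, ch c p ≤ 8 := by
    intro p
    have hgen : ∀ wo wi : ℕ, (∀ c ∈ Lb, ch c p ≤ (if lo t1 h1 t2 h2 c p = 1 then wo else wi)) →
        (∀ c, sg c p ≠ 1 → ch c p = 0) → ∑ c ∈ Lb, ch c p ≤ 2 * wo + 2 * wi := by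
      intro wo wi hw hz
      calc ∑ c ∈ Lb, ch c p ≤ ∑ c ∈ Lb, ((if t1 p = c then wo else 0) + (if t2 p = c then wo else 0)
            + ((if h1 p = c then wi else 0) + (if h2 p = c then wi else 0))) := by
            refine Finset.sum_le_sum (fun c hc => ?_)
            by_cases hs : sg c p = 1
            · have hwc := hw c hc
              have hs' : lo t1 h1 t2 h2 c p + li t1 h1 t2 h2 c p = 1 := hs
              unfold lo li ind at hs'
              unfold lo ind at hwc
              by_cases x1 : t1 p = c <;> by_cases x2 : t2 p = c <;> by_cases x3 : h1 p = c <;>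
                by_cases x4 : h2 p = c <;> simp [x1, x2, x3, x4] at hs' hwc ⊢ <;> omega
            · rw [hz c hs]
              exact Nat.zero_le _
        _ ≤ 2 * wo + 2 * wi := by
            rw [Finset.sum_add_distrib, Finset.sum_add_distrib, Finset.sum_add_distrib]
            have e1 := sum_ind_le Lb (t1 p) wo
            have e2 := sum_ind_le Lb (t2 p) wo
            have e3 := sum_ind_le Lb (h1 p) wi
            have e4 := sum_ind_le Lb (h2 p) wi
            omega
    have hz : ∀ c, sg c p ≠ 1 → ch c p = 0 := by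
      intro c hs
      simp only [ch, if_neg hs]
    by_cases hsp : spc p
    · have := hgen 3 1 (fun c _ => by
        by_cases hs : sg c p = 1
        · simp only [ch, if_pos hs, if_pos hsp]
          exact le_rfl
        · rw [hz c hs]
          exact Nat.zero_le _) hz
      omega
    · have := hgen 2 2 (fun c _ => by
        by_cases hs : sg c p = 1
        · simp only [ch, if_pos hs, if_neg hsp]
          split_ifs <;> exact le_rfl
        · rw [hz c hs]
          exact Nat.zero_le _) hz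
      omega
  -- what a single element gives
  have hch1 : ∀ c p, sg c p = 1 → 1 ≤ ch c p := by
    intro c p hs
    simp only [ch, if_pos hs]
    split_ifs <;> omega
  have hch2 : ∀ c p, sg c p = 1 → (¬ spc p ∨ lo t1 h1 t2 h2 c p = 1) → 2 ≤ ch c p := by
    intro c p hs hor
    simp only [ch, if_pos hs]
    rcases hor with h5 | h5
    · rw [if_neg h5]
    · rw [if_pos h5]
      split_ifs <;> omega
  have hmono : ∀ c, ∀ q ∈ B, ch c q ≤ ∑ p ∈ B, ch c p := by
    intro c q hq
    exact Finset.single_le_sum (f := fun p => ch c p) (fun _ _ => Nat.zero_le _) hq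
  -- the claim
  have hclaim : ∀ c ∈ Lb, c ≠ c0 → 6 ≤ deg c + ∑ p ∈ B, ch c p := by
    intro c hc hcne
    have hge3 : 3 ≤ deg c := by
      obtain ⟨s, hs, hs1, hs2⟩ := hpri c hc
      have ho := hout c hc hcne
      have hi : li t1 h1 t2 h2 c s ≤ ∑ p ∈ Z, li t1 h1 t2 h2 c p :=
        Finset.single_le_sum (f := fun p => li t1 h1 t2 h2 c p) (fun _ _ => Nat.zero_le _) hs
      have := hdeg c
      omega
    by_cases h6 : 6 ≤ deg c
    · omega
    obtain ⟨q, hq, hq1⟩ := hex c hc (by omega)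
    have hqZ := hB hq
    have hm := hmono c q hq
    have hlq := hch1 c q hq1
    have h345 : deg c = 3 ∨ deg c = 4 ∨ deg c = 5 := by omega
    rcases h345 with h3 | h4 | h5
    · -- degree 3
      obtain ⟨p, hp, hp1, hp2, hp3⟩ := hb c hc hcne h3
      have hqp : q = p := by
        by_contra hne
        exact hp3 q hqZ hne hq1
      subst hqp
      have hsp : spc q := ⟨c, hc, hcne, h3, hp1, hp2⟩
      have : ch c q = 3 := by
        simp only [ch, if_pos hq1, if_pos hsp, if_pos hp1]
      omega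
    · -- degree 4
      by_cases hor : ¬ spc q ∨ lo t1 h1 t2 h2 c q = 1
      · have := hch2 c q hq1 hor
        omega
      · push Not at hor
        obtain ⟨hsp, hlo⟩ := hor
        have hq1' : lo t1 h1 t2 h2 c q + li t1 h1 t2 h2 c q = 1 := hq1
        have hlo0 : lo t1 h1 t2 h2 c q = 0 := by omega
        have hli1 : li t1 h1 t2 h2 c q = 1 := by omega
        obtain ⟨p, hp, hpq, hp1, hp2, hp3⟩ := hcc c hc hcne h4 q hqZ hlo0 hli1
        have hsgp : sg c p = 1 := by
          show lo t1 h1 t2 h2 c p + li t1 h1 t2 h2 c p = 1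
          omega
        by_cases hpB : p ∈ B
        · have e1 := hch2 c p hsgp (Or.inr hp1)
          have e2 := hmono c p hpB
          omega
        · exfalso
          obtain ⟨B', hB', hsum⟩ := hspan p hp
          have h5 : ((sg c p : ℕ) : ZMod 2) = ∑ x ∈ B', ((sg c x : ℕ) : ZMod 2) := hsum c hc
          rw [hsgp] at h5
          obtain ⟨x, hx, hx1⟩ := hodd c hc B' hB' (by rw [← h5]; rfl)
          have hxB : x ∈ B := hB' hx
          have hxq : x = q := by
            by_contra hne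
            refine hp3 x (hB hxB) hne ?_ hx1
            intro hh
            exact hpB (hh ▸ hxB)
          subst hxq
          obtain ⟨c', hc', hc'ne, hc'3, hc'lo, hc'li⟩ := hsp
          obtain ⟨y, hy, hy1, hy2, hy3⟩ := hb c' hc' hc'ne hc'3
          have hsx : sg c' x = 1 := by
            show lo t1 h1 t2 h2 c' x + li t1 h1 t2 h2 c' x = 1
            omega
          have hxy : x = y := by
            by_contra hne
            exact hy3 x (hB hxB) hne hsx
          subst hxy
          have h7 : ((sg c' p : ℕ) : ZMod 2) = ∑ z ∈ B', ((sg c' z : ℕ) : ZMod 2) := hsum c' hc'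
          rw [cast_ne_one _ (sg2 c' p) (hy3 p hp hpq), Finset.sum_eq_single x
            (fun z hz hzx => cast_ne_one _ (sg2 c' z) (hy3 z (hB (hB' hz)) hzx))
            (fun hh => absurd hx hh), hsx] at h7
          exact absurd h7 (by decide)
    · omega
  have hclaim0 : 4 ≤ deg c0 + ∑ p ∈ B, ch c0 p := by
    have hge3 : 3 ≤ deg c0 := by
      obtain ⟨s, hs, hs1, hs2⟩ := hpri c0 hc0
      have ho : lo t1 h1 t2 h2 c0 s ≤ ∑ p ∈ Z, lo t1 h1 t2 h2 c0 p :=
        Finset.single_le_sum (f := fun p => lo t1 h1 t2 h2 c0 p) (fun _ _ => Nat.zero_le _) hs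
      have := hdeg c0
      omega
    by_cases h4 : 4 ≤ deg c0
    · omega
    obtain ⟨q, hq, hq1⟩ := hex c0 hc0 (by omega)
    have hm := hmono c0 q hq
    have hlq := hch1 c0 q hq1
    omega
  -- summation
  have hsumdeg : ∑ c ∈ Lb, deg c ≤ 4 * Z.card := by
    show ∑ c ∈ Lb, ∑ p ∈ Z, sg c p ≤ 4 * Z.card
    rw [Finset.sum_comm]
    calc ∑ p ∈ Z, ∑ c ∈ Lb, sg c p ≤ ∑ p ∈ Z, 4 := by
          refine Finset.sum_le_sum (fun p _ => ?_)
          calc ∑ c ∈ Lb, sg c p ≤ ∑ c ∈ Lb, ((if t1 p = c then 1 else 0) +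
                (if t2 p = c then 1 else 0) + ((if h1 p = c then 1 else 0) +
                (if h2 p = c then 1 else 0))) := by
                refine Finset.sum_le_sum (fun c _ => ?_)
                show lo t1 h1 t2 h2 c p + li t1 h1 t2 h2 c p ≤ _
                unfold lo li ind
                by_cases x1 : t1 p = c <;> by_cases x2 : t2 p = c <;> by_cases x3 : h1 p = c <;>
                  by_cases x4 : h2 p = c <;> simp [x1, x2, x3, x4]
            _ ≤ 4 := by
                rw [Finset.sum_add_distrib, Finset.sum_add_distrib, Finset.sum_add_distrib]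
                have e1 := sum_ind_le Lb (t1 p) 1
                have e2 := sum_ind_le Lb (t2 p) 1
                have e3 := sum_ind_le Lb (h1 p) 1
                have e4 := sum_ind_le Lb (h2 p) 1
                omega
      _ = 4 * Z.card := by rw [Finset.sum_const, smul_eq_mul, Nat.mul_comm]
  have hsumch : ∑ c ∈ Lb, ∑ p ∈ B, ch c p ≤ 8 * B.card := by
    rw [Finset.sum_comm]
    calc ∑ p ∈ B, ∑ c ∈ Lb, ch c p ≤ ∑ p ∈ B, 8 := Finset.sum_le_sum (fun p _ => hch8 p)
      _ = 8 * B.card := by rw [Finset.sum_const, smul_eq_mul, Nat.mul_comm]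
  have htot : 6 * Lb.card ≤ ∑ c ∈ Lb, (deg c + ∑ p ∈ B, ch c p) + 2 := by
    rw [← Finset.add_sum_erase Lb _ hc0]
    have h7 : ∑ c ∈ Lb.erase c0, 6 ≤ ∑ c ∈ Lb.erase c0, (deg c + ∑ p ∈ B, ch c p) :=
      Finset.sum_le_sum (fun c hc => hclaim c (Finset.mem_of_mem_erase hc)
        (Finset.ne_of_mem_erase hc))
    rw [Finset.sum_const, smul_eq_mul, Finset.card_erase_of_mem hc0] at h7
    have h8 : 1 ≤ Lb.card := Finset.card_pos.2 ⟨c0, hc0⟩
    omega
  rw [Finset.sum_add_distrib] at htot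
  omega

end CYC
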