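import Pool.Agent.CYC.M2
import Pool.Agent.CYC.M3
import Pool.Agent.CYC.M4b
import Pool.Agent.CYC.M4c
import Pool.Agent.CYC.M5
import Pool.Agent.CYC.M6

set_option autoImplicit false
set_option linter.unusedSectionVars false
set_option linter.unusedDecidableInType false

/-! [CYC-M7] assembly: four flows. -/

namespace CYC

open Finset Module

namespace Sys

variable {V N : Type} [DecidableEq V] [Fintype V] [Fintype N] [DecidableEq N]

theorem mem_cl {f : V → V} {c v : V} : v ∈ cl f c ↔ f v = c := by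
  unfold cl
  rw [mem_filter]
  exact ⟨fun h => h.2, fun h => ⟨mem_univ _, h⟩⟩

/-- counting arcs of a class by labels -/
theorem ou_cl (C : Sys V N) (f : V → V) (c : V) (p : N) :
    C.ou (cl f c) p = lo (fun p => f (C.e p).t1) (fun p => f (C.e p).h1)
      (fun p => f (C.e p).t2) (fun p => f (C.e p).h2) c p := by
  unfold ou lo
  simp only [mem_cl]

theorem it_cl (C : Sys V N) (f : V → V) (c : V) (p : N) :
    C.it (cl f c) p = li (fun p => f (C.e p).t1) (fun p => f (C.e p).h1)
      (fun p => f (C.e p).t2) (fun p => f (C.e p).h2) c p := by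
  unfold it li
  simp only [mem_cl]

theorem dv_cl (C : Sys V N) (f : V → V) (c : V) (p : N) :
    C.dv f p c = ((lo (fun p => f (C.e p).t1) (fun p => f (C.e p).h1)
      (fun p => f (C.e p).t2) (fun p => f (C.e p).h2) c p + li (fun p => f (C.e p).t1)
      (fun p => f (C.e p).h1) (fun p => f (C.e p).t2) (fun p => f (C.e p).h2) c p : ℕ) :
        ZMod 2) := by
  have h2 : (1 : ZMod 2) + 1 = 0 := by decide
  have key : ∀ P Q : Prop, ∀ [Decidable P] [Decidable Q],
      (ind P : ZMod 2) + ind Q = (((ind (P ∧ ¬ Q) : ℕ) + ind (¬ P ∧ Q) : ℕ) : ZMod 2) := by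
    intro P Q _ _
    unfold ind
    by_cases hP : P <;> by_cases hQ : Q <;> simp [hP, hQ, h2]
  unfold dv lo li
  rw [key, key]
  push_cast
  ring

/-- (1) PROOF. If `Z = ∅` the intersection is `⊥`. Otherwise take `f` (`exists_Lab`), `B` (`exists_basis`),
`card_labels`; if there is only one label then `exists_basis` gives finrank 0. If there are at least two, `discharge`
with `Lb = univ.image f`, `c0 = f r`, `t1 p = f (C.e p).t1` etc. (`C.ou (cl f c) p = lo ..`, `C.it (cl f c) p = li ..`;
`dv p c` is the class of `lo + li` mod 2), then arithmetic: `3 L ≤ 2 Z + 4 B + 1`, `L ≤ Z + 1`, so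
`4 L ≤ 3 Z + 4 B + 2` and `4 (L - 1 - B) ≤ 3 Z`. -/
theorem density (C : Sys V N) (h : C.Gd) (ha : C.a ≠ C.r)
    (Z : Finset N) (hZ : ∀ p ∈ Z, ∀ q ∈ Z, p ≠ q → Pi.single p 1 + Pi.single q 1 ∉ C.code) :
    4 * finrank (ZMod 2) ↥(C.code ⊓ sup Z) ≤ 3 * Z.card := by
  classical
  obtain ⟨f, hf⟩ := C.exists_Lab Z
  obtain ⟨B, hB, hspan, hdim⟩ := C.exists_basis Z hf
  have hlab := C.card_labels h ha Z hf
  by_cases h2 : 2 ≤ (univ.image f).card
  · have hdis := discharge (univ.image f) (f C.r) (mem_image_of_mem _ (mem_univ _)) Z B hB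
      (fun p => f (C.e p).t1) (fun p => f (C.e p).h1) (fun p => f (C.e p).t2)
      (fun p => f (C.e p).h2)
      (fun c hc hcr => by
        have := C.two_le_ou h Z hf hc hcr
        simpa only [ou_cl] using this)
      (by
        have := C.two_le_it h Z hf h2
        simpa only [it_cl] using this)
      (fun c hc => by
        obtain ⟨p, hp, h3, h4⟩ := C.exists_pri h ha Z hf h2 hc
        exact ⟨p, hp, by rw [← ou_cl]; exact h3, by rw [← it_cl]; exact h4⟩)
      (fun c hc hev => by
        have := C.six_le h ha Z hZ hf h2 hc (fun p hp => by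
          rw [ou_cl, it_cl]
          exact hev p hp)
        simpa only [ou_cl, it_cl] using this)
      (fun p hp => by
        obtain ⟨B', hB', h3⟩ := hspan p hp
        refine ⟨B', hB', fun c _ => ?_⟩
        have h4 := congrFun h3 c
        rw [Finset.sum_apply] at h4
        simpa only [dv_cl] using h4)
    omega
  · have h0 : finrank (ZMod 2) ↥(C.code ⊓ sup Z) = 0 := by omega
    rw [h0]
    omega

/-- (2) PROOF. `cover` (k = 3) and `realize`. -/
theorem four_flows (C : Sys V N) (h : C.Gd) (ha : C.a ≠ C.r) :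
    ∃ (y1 y2 : Fin 4 → N → ZMod 2) (w : Fin 4 → Fin 4 → ZMod 2),
      (∀ j, C.Flow (y1 j) (y2 j) (w j)) ∧ ∀ p, ∃ j, y1 j p + y2 j p = 1 := by
  obtain ⟨s, hs, hp⟩ := cover C.code 3 (fun Z hZ => C.density h ha Z hZ)
  choose y1 y2 w hw using fun j => C.realize (s j) (hs j)
  refine ⟨y1, y2, w, fun j => (hw j).1, fun p => ?_⟩
  obtain ⟨j, hj⟩ := hp p
  exact ⟨j, by rw [(hw j).2, hj]⟩

end Sys

end CYC
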