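import Pool.Agent.CYC.T1b

set_option autoImplicit false
set_option linter.unusedSectionVars false
set_option linter.unusedDecidableInType false

/-! [CYC-T3] the tree of a hierarchy of tight sets. -/

namespace CYC

open Finset

namespace HT

variable {V : Type} [DecidableEq V] [Fintype V]

/-- (1) PROOF. Strong induction on `S.card`. A one-point set is `leaf v`. Otherwise `h2` gives `A`, `B`, both
nonempty and disjoint, hence smaller than `S`. -/
theorem exists_tree {x : V → V → ℝ} (L : Finset (Finset V))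
    (h1 : ∀ S ∈ L, S.Nonempty ∧ cut x S = 2)
    (h2 : ∀ S ∈ L, 2 ≤ S.card → ∃ A ∈ L, ∃ B ∈ L, Disjoint A B ∧ A ∪ B = S) :
    ∀ S ∈ L, ∃ t : HT V, t.Ok ∧ t.lv = S ∧ Tgt x t := by
  intro S
  induction S using Finset.strongInduction with
  | H S ih =>
    intro hS
    obtain ⟨hne, hc⟩ := h1 S hS
    by_cases h : 2 ≤ S.card
    · obtain ⟨A, hA, B, hB, hd, rfl⟩ := h2 S hS h
      have hAne := (h1 A hA).1
      have hBne := (h1 B hB).1
      have sA : A ⊂ A ∪ B := by
        refine ⟨subset_union_left, fun hs => ?_⟩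
        obtain ⟨b, hb⟩ := hBne
        exact (disjoint_left.1 hd (hs (mem_union_right _ hb))) hb
      have sB : B ⊂ A ∪ B := by
        refine ⟨subset_union_right, fun hs => ?_⟩
        obtain ⟨a, ha⟩ := hAne
        exact (disjoint_left.1 hd ha) (hs (mem_union_left _ ha))
      obtain ⟨tA, oA, lA, gA⟩ := ih A sA hA
      obtain ⟨tB, oB, lB, gB⟩ := ih B sB hB
      refine ⟨node tA tB, ⟨by rw [lA, lB]; exact hd, oA, oB⟩, ?_, ⟨by rw [lA, lB]; exact hc, gA, gB⟩⟩
      change tA.lv ∪ tB.lv = A ∪ B
      rw [lA, lB]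
    · have h3 : S.card = 1 := by
        have := hne.card_pos
        omega
      obtain ⟨v, rfl⟩ := card_eq_one.1 h3
      exact ⟨leaf v, trivial, rfl, hc⟩

end HT

end CYC
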