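import Pool.Agent.CYC.T2
import Pool.Agent.CYC.T3
import Pool.Agent.CYC.M7
import Pool.Agent.CYC.F1
import Pool.Agent.CYC.F2a
import Pool.Agent.CYC.F2b

set_option autoImplicit false
set_option linter.unusedSectionVars false
set_option linter.unusedDecidableInType false

/-! [CYC-F2] averaging over the 15 nonzero functionals; the final theorem. -/

namespace CYC

open Finset

/-- linear combinations of flows are flows -/
theorem Flow_comb {V N : Type} [DecidableEq V] [Fintype V] [Fintype N] [DecidableEq N]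
    (C : Sys V N) (y1 y2 : Fin 4 → N → ZMod 2) (w : Fin 4 → Fin 4 → ZMod 2)
    (h : ∀ j, C.Flow (y1 j) (y2 j) (w j)) (φ : Fin 4 → ZMod 2) :
    C.Flow (fun p => dt φ (fun j => y1 j p)) (fun p => dt φ (fun j => y2 j p))
      (fun i => dt φ (fun j => w j i)) := by
  intro v hv
  have h1 : ∀ j, φ j * (∑ p, (y1 j p * (ind ((C.e p).t1 = v) + ind ((C.e p).h1 = v)) +
      y2 j p * (ind ((C.e p).t2 = v) + ind ((C.e p).h2 = v))) +
      (w j 0 * ind (C.a = v) + w j 1 * ind (C.g = v) + w j 2 * ind (C.k1 = v) +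
        w j 3 * ind (C.k2 = v))) = 0 := by
    intro j
    rw [h j v hv, mul_zero]
  have h2 := Finset.sum_eq_zero (s := (univ : Finset (Fin 4))) (fun j _ => h1 j)
  rw [← h2]
  simp only [mul_add, Finset.sum_add_distrib, dt, Finset.sum_mul, Finset.mul_sum]
  rw [Finset.sum_comm (s := (univ : Finset N)), Finset.sum_comm (s := (univ : Finset N)),
    Finset.sum_comm (s := (univ : Finset N)), Finset.sum_comm (s := (univ : Finset N))]
  simp only [mul_assoc]

/-- (3) the theorem. -/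
theorem tour_cyc (n : ℕ) (hn : 3 ≤ n) (d : Fin n → Fin n → ℝ) (hsymm : ∀ i j, d i j = d j i)
    (hdiag : ∀ i, d i i = 0) (htri : ∀ i j k, d i k ≤ d i j + d j k) (x : Fin n → Fin n → ℝ)
    (hx : ∀ i j, x i j = x j i) (hxd : ∀ i, x i i = 0) (hx0 : ∀ i j, 0 ≤ x i j) (r0 : Fin n)
    (L : Finset (Finset (Fin n))) (hL : univ.erase r0 ∈ L)
    (h1 : ∀ S ∈ L, S.Nonempty ∧ ∑ i ∈ S, ∑ j ∈ Sᶜ, x i j = 2)
    (h2 : ∀ S ∈ L, 2 ≤ S.card → ∃ A ∈ L, ∃ B ∈ L, Disjoint A B ∧ A ∪ B = S) :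
    ∃ f : Equiv.Perm (Fin n), ∑ i, d (f i) (f (finRotate n i)) ≤
      (22 / 15 : ℝ) * ((1 / 2 : ℝ) * ∑ i, ∑ j, d i j * x i j) := by
  classical
  obtain ⟨t, hO, hlv, hT⟩ := HT.exists_tree (x := x) L h1 h2 _ hL
  cases t with
  | leaf v =>
    exfalso
    have h3 : (univ.erase r0 : Finset (Fin n)).card = 1 := by
      rw [← hlv]
      exact card_singleton v
    rw [card_erase_of_mem (mem_univ _), card_univ, Fintype.card_fin] at h3
    omega
  | node l r =>
    have hr : r0 ∉ (HT.node l r).lv := by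
      rw [hlv]
      exact notMem_erase _ _
    have hu : ∀ v, v ≠ r0 → v ∈ (HT.node l r).lv := by
      intro v hv
      rw [hlv]
      exact mem_erase.2 ⟨hv, mem_univ _⟩
    obtain ⟨a, ha, g, hg, e, hS, hcost⟩ := HT.exists_top (d := d) hx hx0 hsymm l r hO hT r0 hr hu
    obtain ⟨k1, hk1, hk1m⟩ := exists_min_image l.lv (fun u => d u r0) (HT.lv_nonempty l)
    obtain ⟨k2, hk2, hk2m⟩ := exists_min_image r.lv (fun u => d u r0) (HT.lv_nonempty r)
    let C : Sys (Fin n) (HT.node l r).Nd := ⟨r0, a, g, k1, k2, e⟩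
    have hsub_l : ∀ v ∈ l.lv, v ∈ (HT.node l r).lv := fun v hv => mem_union_left _ hv
    have hsub_r : ∀ v ∈ r.lv, v ∈ (HT.node l r).lv := fun v hv => mem_union_right _ hv
    have hC : C.Gd := HT.Gd_of_Str C hr hu hS
    have har : C.a ≠ C.r := by
      intro h
      have h' : a = r0 := h
      exact hr (by rw [← h']; exact hsub_l a ha)
    obtain ⟨y1, y2, w, hF, hne⟩ := C.four_flows hC har
    have hmin : ∀ p : (HT.node l r).Nd, ∃ q : Fin n × Fin n,
        (q.1 ∈ (HT.node l r).lt p ∧ q.2 ∈ (HT.node l r).rt p) ∧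
        ∀ u ∈ (HT.node l r).lt p, ∀ v ∈ (HT.node l r).rt p, d q.1 q.2 ≤ d u v := by
      intro p
      obtain ⟨q, hq, hqm⟩ := exists_min_image ((HT.node l r).lt p ×ˢ (HT.node l r).rt p)
        (fun q => d q.1 q.2) ((HT.lt_nonempty _ p).product (HT.rt_nonempty _ p))
      refine ⟨q, mem_product.1 hq, fun u hu v hv => hqm (u, v) (mem_product.2 ⟨hu, hv⟩)⟩
    choose q hq hqm using hmin
    -- the tours
    have htour := fun φ : Fin 4 → ZMod 2 => tour_flow (by omega) d hsymm hdiag htri l r C hr hu hS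
      ha hg hk1 hk2 _ _ _ (Flow_comb C y1 y2 w hF φ) (fun p => (q p).1) (fun p => (q p).2) hq
    choose F hFc using htour
    -- bound of the sum over all nonzero functionals
    have hdg := HT.Str.dg hS
    have hroot := fun j => Flow_left hO C hr hS ha hg hk1 hk2 (hF j)
    obtain ⟨j0, hj0⟩ := hne (HT.nRoot l r)
    have e1 : ∑ φ ∈ (univ : Finset (Fin 4 → ZMod 2)).erase 0,
        (∑ p, (ind (dt φ (fun j => y1 j p) = 1) * d (e p).t1 (e p).h1 +
          ind (dt φ (fun j => y2 j p) = 1) * d (e p).t2 (e p).h2 +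
          2 * (ind (dt φ (fun j => y1 j p) = 0 ∧ dt φ (fun j => y2 j p) = 0) *
            d (q p).1 (q p).2)) +
        (ind (dt φ (fun j => w j 0) = 1) * d a r0 + ind (dt φ (fun j => w j 2) = 1) * d k1 r0 +
          2 * (ind (dt φ (fun j => w j 0) = 0 ∧ dt φ (fun j => w j 2) = 0) * d k1 r0)) +
        (ind (dt φ (fun j => w j 1) = 1) * d g r0 + ind (dt φ (fun j => w j 3) = 1) * d k2 r0 +
          2 * (ind (dt φ (fun j => w j 1) = 0 ∧ dt φ (fun j => w j 3) = 0) * d k2 r0))) ≤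
        ∑ p, (8 * d (e p).t1 (e p).h1 + 8 * d (e p).t2 (e p).h2 + 6 * d (q p).1 (q p).2) +
        (8 * d a r0 + 8 * d k1 r0 + 6 * d k1 r0) + (8 * d g r0 + 8 * d k2 r0 + 6 * d k2 r0) := by
      rw [sum_add_distrib, sum_add_distrib, sum_comm]
      refine add_le_add (add_le_add (sum_le_sum fun p _ => ?_) ?_) ?_
      · refine count (hne p) ?_ ?_
        · exact hqm p _ (hdg p).1 _ (hdg p).2.1
        · rw [hsymm (e p).t2]
          exact hqm p _ (hdg p).2.2.2 _ (hdg p).2.2.1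
      · exact count ⟨j0, by rw [(hroot j0).1, hj0]⟩ (hk1m a ha) le_rfl
      · exact count ⟨j0, by rw [(hroot j0).2, hj0]⟩ (hk2m g hg) le_rfl
    -- the minima against the x-cost
    have e2 : ∑ p, d (q p).1 (q p).2 ≤ HT.inn x d (HT.node l r) :=
      sum_le_sum fun p _ => HT.le_wt hx hx0 hO hT p (hqm p)
    obtain ⟨s1, s2⟩ := HT.sum_root hx l r hO hT r0 hr hu
    have e3 : d k1 r0 ≤ ∑ u ∈ l.lv, x u r0 * d u r0 := by
      calc d k1 r0 = ∑ u ∈ l.lv, x u r0 * d k1 r0 := by rw [← sum_mul, s1, one_mul]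
        _ ≤ _ := sum_le_sum fun u hu => mul_le_mul_of_nonneg_left (hk1m u hu) (hx0 _ _)
    have e4 : d k2 r0 ≤ ∑ u ∈ r.lv, x u r0 * d u r0 := by
      calc d k2 r0 = ∑ u ∈ r.lv, x u r0 * d k2 r0 := by rw [← sum_mul, s2, one_mul]
        _ ≤ _ := sum_le_sum fun u hu => mul_le_mul_of_nonneg_left (hk2m u hu) (hx0 _ _)
    have e5 : ∑ u ∈ (HT.node l r).lv, x u r0 * d u r0 =
        ∑ u ∈ l.lv, x u r0 * d u r0 + ∑ u ∈ r.lv, x u r0 * d u r0 := by
      exact sum_union hO.1
    -- the cost of x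
    have e6 : (1 / 2 : ℝ) * ∑ i, ∑ j, d i j * x i j =
        HT.inn x d (HT.node l r) + ∑ u ∈ (HT.node l r).lv, x u r0 * d u r0 := by
      have h3 := HT.two_inn hx hxd hsymm hO
      have h4 : ∀ G : Fin n → ℝ, ∑ i, G i = G r0 + ∑ i ∈ (HT.node l r).lv, G i := by
        intro G
        rw [hlv, add_sum_erase univ G (mem_univ r0)]
      have h5 : ∑ i, ∑ j, d i j * x i j =
          ∑ u ∈ (HT.node l r).lv, ∑ v ∈ (HT.node l r).lv, x u v * d u v +
          2 * ∑ u ∈ (HT.node l r).lv, x u r0 * d u r0 := by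
        rw [h4]
        have h6 : ∀ i, ∑ j, d i j * x i j = x i r0 * d i r0 +
            ∑ j ∈ (HT.node l r).lv, x i j * d i j := by
          intro i
          rw [h4]
          congr 1
          · ring
          · exact sum_congr rfl fun j _ => by ring
        rw [h6 r0, hxd r0, zero_mul, zero_add, sum_congr rfl fun i _ => h6 i, sum_add_distrib]
        have h7 : ∑ j ∈ (HT.node l r).lv, x r0 j * d r0 j =
            ∑ u ∈ (HT.node l r).lv, x u r0 * d u r0 :=
          sum_congr rfl fun j _ => by rw [hx r0 j, hsymm r0 j]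
        rw [h7]
        ring
      rw [h5]
      linarith
    -- averaging
    have hcard : ((univ : Finset (Fin 4 → ZMod 2)).erase 0).card = 15 := by
      rw [card_erase_of_mem (mem_univ _), card_univ]
      simp
    have hex : ∃ φ ∈ (univ : Finset (Fin 4 → ZMod 2)).erase 0,
        (∑ p, (ind (dt φ (fun j => y1 j p) = 1) * d (e p).t1 (e p).h1 +
          ind (dt φ (fun j => y2 j p) = 1) * d (e p).t2 (e p).h2 +
          2 * (ind (dt φ (fun j => y1 j p) = 0 ∧ dt φ (fun j => y2 j p) = 0) *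
            d (q p).1 (q p).2)) +
        (ind (dt φ (fun j => w j 0) = 1) * d a r0 + ind (dt φ (fun j => w j 2) = 1) * d k1 r0 +
          2 * (ind (dt φ (fun j => w j 0) = 0 ∧ dt φ (fun j => w j 2) = 0) * d k1 r0)) +
        (ind (dt φ (fun j => w j 1) = 1) * d g r0 + ind (dt φ (fun j => w j 3) = 1) * d k2 r0 +
          2 * (ind (dt φ (fun j => w j 1) = 0 ∧ dt φ (fun j => w j 3) = 0) * d k2 r0))) ≤
        (22 / 15 : ℝ) * ((1 / 2 : ℝ) * ∑ i, ∑ j, d i j * x i j) := by
      refine exists_le_of_sum_le (card_pos.1 (by rw [hcard]; norm_num)) ?_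
      rw [sum_const, hcard, nsmul_eq_mul, e6]
      refine e1.trans ?_
      have e7 : ∑ p, (8 * d (e p).t1 (e p).h1 + 8 * d (e p).t2 (e p).h2 +
          6 * d (q p).1 (q p).2) = 8 * HT.cst d e + 6 * ∑ p, d (q p).1 (q p).2 := by
        unfold HT.cst
        rw [mul_sum, mul_sum, ← sum_add_distrib]
        exact sum_congr rfl fun p _ => by ring
      rw [e7]
      push_cast
      linarith
    obtain ⟨φ, -, hφ⟩ := hex
    exact ⟨F φ, (hFc φ).trans hφ⟩

end CYC
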