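import Mathlib

set_option autoImplicit false

/-! [CYC-M1] the theorem of Rado and Horn (partition of a family of vectors into `k` independent
families). -/

namespace CYC

open Finset Module

section
variable {F Q ι : Type} [Field F] [AddCommGroup Q] [Module F Q] [FiniteDimensional F Q]

omit [FiniteDimensional F Q] in
private theorem m1_span_union [DecidableEq ι] (v : ι → Q) (A B : Finset ι) :
    Submodule.span F (v '' ((A ∪ B : Finset ι) : Set ι)) =
      Submodule.span F (v '' (A : Set ι)) ⊔ Submodule.span F (v '' (B : Set ι)) := by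
  rw [Finset.coe_union, Set.image_union, Submodule.span_union]

private theorem m1_mono {A B : Submodule F Q} (h : A ≤ B) : finrank F A ≤ finrank F B :=
  Submodule.finrank_mono h

private theorem m1_submod (A B T : Submodule F Q) (h : A ≤ B) :
    finrank F ↥(B ⊔ T) + finrank F A ≤ finrank F ↥(A ⊔ T) + finrank F B := by
  have h1 := Submodule.finrank_sup_add_finrank_inf_eq (A ⊔ T) B
  have h2 : (A ⊔ T) ⊔ B = B ⊔ T := by
    rw [sup_assoc, sup_comm T B, ← sup_assoc, sup_eq_right.mpr h]
  have h3 : A ≤ (A ⊔ T) ⊓ B := le_inf le_sup_left h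
  have h4 := m1_mono h3
  rw [h2] at h1
  omega

private theorem m1_single (v : ι → Q) (K : Submodule F Q) (i : ι) :
    finrank F ↥(K ⊔ Submodule.span F (v '' (({i} : Finset ι) : Set ι))) ≤ finrank F K + 1 := by
  have h1 := Submodule.finrank_add_le_finrank_add_finrank K
    (Submodule.span F (v '' (({i} : Finset ι) : Set ι)))
  have h2 : finrank F ↥(Submodule.span F (v '' (({i} : Finset ι) : Set ι))) ≤ 1 := by
    rw [Finset.coe_singleton, Set.image_singleton]
    exact (finrank_span_le_card ({v i} : Set Q)).trans (by simp)
  omega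

end

/-- (1) the general form, by induction on the number of vectors: for each colour `j` a subspace `K j` is
already used. Strong induction on `I.card`; a nonempty proper tight set is coloured first, and if there is none a
single vector is coloured. -/
theorem rado_horn_aux {F Q ι κ : Type} [Field F] [AddCommGroup Q] [Module F Q]
    [FiniteDimensional F Q] [DecidableEq ι] [Fintype κ] [DecidableEq κ] [Nonempty κ] (v : ι → Q) :
    ∀ (n : ℕ) (I : Finset ι), I.card = n → ∀ K : κ → Submodule F Q,
      (∀ J ⊆ I, J.card + ∑ j, finrank F (K j) ≤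
        ∑ j, finrank F ↥(K j ⊔ Submodule.span F (v '' (J : Set ι)))) →
      ∃ c : ι → κ, ∀ j, finrank F (K j) + (I.filter (fun i => c i = j)).card ≤
        finrank F ↥(K j ⊔ Submodule.span F (v '' ((I.filter (fun i => c i = j) : Finset ι) : Set ι))) := by
  intro n
  induction n using Nat.strong_induction_on with
  | _ n ih =>
  intro I hI K hK
  by_cases h0 : I = ∅
  · obtain ⟨j1⟩ := (inferInstance : Nonempty κ)
    refine ⟨fun _ => j1, fun j => ?_⟩
    subst h0
    rw [Finset.filter_empty, Finset.card_empty, Nat.add_zero]
    exact m1_mono le_sup_left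
  by_cases hA : ∃ J, J ⊂ I ∧ J ≠ ∅ ∧ J.card + ∑ j, finrank F (K j) =
      ∑ j, finrank F ↥(K j ⊔ Submodule.span F (v '' (J : Set ι)))
  · obtain ⟨J, hJI, hJ0, hJt⟩ := hA
    have hcJ : J.card < n := hI ▸ Finset.card_lt_card hJI
    obtain ⟨c1, hc1⟩ := ih J.card hcJ J rfl K (fun J' hJ' => hK J' (hJ'.trans hJI.1))
    have hcd : (I \ J).card < n := by
      rw [← hI]
      have h1 := Finset.card_sdiff_add_card_eq_card hJI.1
      have h2 : 0 < J.card := Finset.card_pos.mpr (Finset.nonempty_iff_ne_empty.mpr hJ0)
      omega
    obtain ⟨c2, hc2⟩ := ih (I \ J).card hcd (I \ J) rfl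
      (fun j => K j ⊔ Submodule.span F (v '' (J : Set ι))) (fun J' hJ' => by
        have hd : Disjoint J J' :=
          (Finset.disjoint_of_subset_left hJ' Finset.sdiff_disjoint).symm
        have h1 := hK (J ∪ J') (Finset.union_subset hJI.1 (hJ'.trans Finset.sdiff_subset))
        rw [Finset.card_union_of_disjoint hd] at h1
        have h2 : ∀ j, K j ⊔ Submodule.span F (v '' ((J ∪ J' : Finset ι) : Set ι)) =
            (K j ⊔ Submodule.span F (v '' (J : Set ι))) ⊔ Submodule.span F (v '' (J' : Set ι)) := by
          intro j
          rw [m1_span_union, sup_assoc]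
        have h3 : ∑ j, finrank F ↥(K j ⊔ Submodule.span F (v '' ((J ∪ J' : Finset ι) : Set ι))) =
            ∑ j, finrank F ↥((K j ⊔ Submodule.span F (v '' (J : Set ι))) ⊔
              Submodule.span F (v '' (J' : Set ι))) :=
          Finset.sum_congr rfl (fun j _ => by rw [h2 j])
        rw [h3] at h1
        omega)
    refine ⟨fun i => if i ∈ J then c1 i else c2 i, fun j => ?_⟩
    have hf : I.filter (fun i => (if i ∈ J then c1 i else c2 i) = j) =
        J.filter (fun i => c1 i = j) ∪ (I \ J).filter (fun i => c2 i = j) := by
      ext i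
      simp only [Finset.mem_filter, Finset.mem_union, Finset.mem_sdiff]
      constructor
      · rintro ⟨hi, hc⟩
        by_cases hiJ : i ∈ J
        · rw [if_pos hiJ] at hc
          exact Or.inl ⟨hiJ, hc⟩
        · rw [if_neg hiJ] at hc
          exact Or.inr ⟨⟨hi, hiJ⟩, hc⟩
      · rintro (⟨hiJ, hc⟩ | ⟨⟨hi, hiJ⟩, hc⟩)
        · exact ⟨hJI.1 hiJ, by rw [if_pos hiJ]; exact hc⟩
        · exact ⟨hi, by rw [if_neg hiJ]; exact hc⟩
    have hdis : Disjoint (J.filter (fun i => c1 i = j)) ((I \ J).filter (fun i => c2 i = j)) :=
      Finset.disjoint_of_subset_left (Finset.filter_subset _ _)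
        (Finset.disjoint_of_subset_right (Finset.filter_subset _ _) Finset.disjoint_sdiff)
    rw [hf, Finset.card_union_of_disjoint hdis, m1_span_union, ← sup_assoc]
    have e1 := hc1 j
    have e2 := hc2 j
    have hle : K j ⊔ Submodule.span F (v '' ((J.filter (fun i => c1 i = j) : Finset ι) : Set ι)) ≤
        K j ⊔ Submodule.span F (v '' (J : Set ι)) :=
      sup_le_sup_left (Submodule.span_mono (Set.image_mono
        (Finset.coe_subset.mpr (Finset.filter_subset _ _)))) _
    have e3 := m1_submod _ _
      (Submodule.span F (v '' (((I \ J).filter (fun i => c2 i = j) : Finset ι) : Set ι))) hle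
    omega
  · have hA' : ∀ J, J ⊂ I → J ≠ ∅ → J.card + ∑ j, finrank F (K j) + 1 ≤
        ∑ j, finrank F ↥(K j ⊔ Submodule.span F (v '' (J : Set ι))) := by
      intro J hJI hJ0
      have h1 := hK J hJI.1
      rcases Nat.lt_or_ge (J.card + ∑ j, finrank F (K j))
        (∑ j, finrank F ↥(K j ⊔ Submodule.span F (v '' (J : Set ι)))) with h2 | h2
      · omega
      · exact absurd ⟨J, hJI, hJ0, le_antisymm h1 h2⟩ hA
    obtain ⟨i, hi⟩ := Finset.nonempty_iff_ne_empty.mpr h0
    have h1 := hK {i} (Finset.singleton_subset_iff.mpr hi)
    rw [Finset.card_singleton] at h1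
    have h2 : ∃ j0, finrank F (K j0) <
        finrank F ↥(K j0 ⊔ Submodule.span F (v '' (({i} : Finset ι) : Set ι))) := by
      by_contra hcon
      have hcon' : ∀ j, finrank F ↥(K j ⊔ Submodule.span F (v '' (({i} : Finset ι) : Set ι))) ≤
          finrank F (K j) := fun j => not_lt.mp (fun hlt => hcon ⟨j, hlt⟩)
      have := Finset.sum_le_sum (fun j (_ : j ∈ (Finset.univ : Finset κ)) => hcon' j)
      omega
    obtain ⟨j0, hj0⟩ := h2
    have hs := m1_single v (K j0) i
    set K' : κ → Submodule F Q :=
      Function.update K j0 (K j0 ⊔ Submodule.span F (v '' (({i} : Finset ι) : Set ι))) with hK'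
    have hKj0 : K' j0 = K j0 ⊔ Submodule.span F (v '' (({i} : Finset ι) : Set ι)) := by
      rw [hK', Function.update_self]
    have hKne : ∀ j, j ≠ j0 → K' j = K j := fun j hj => by
      rw [hK', Function.update_of_ne hj]
    have hKle : ∀ j, K j ≤ K' j := by
      intro j
      by_cases hj : j = j0
      · rw [hj, hKj0]
        exact le_sup_left
      · rw [hKne j hj]
    have hsumK : ∑ j, finrank F (K' j) = ∑ j, finrank F (K j) + 1 := by
      rw [← Finset.add_sum_erase Finset.univ _ (Finset.mem_univ j0),
        ← Finset.add_sum_erase Finset.univ (fun j => finrank F (K j)) (Finset.mem_univ j0)]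
      have e1 : ∑ j ∈ Finset.univ.erase j0, finrank F (K' j) =
          ∑ j ∈ Finset.univ.erase j0, finrank F (K j) :=
        Finset.sum_congr rfl (fun j hj => by rw [hKne j (Finset.ne_of_mem_erase hj)])
      have e2 : finrank F (K' j0) = finrank F (K j0) + 1 := by
        rw [hKj0]
        omega
      rw [e1, e2]
      ring
    have hcard : (I.erase i).card < n := hI ▸ Finset.card_lt_card (Finset.erase_ssubset hi)
    obtain ⟨c', hc'⟩ := ih (I.erase i).card hcard (I.erase i) rfl K' (fun J hJ => by
      by_cases hJ0 : J = ∅
      · subst hJ0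
        rw [Finset.card_empty, Nat.zero_add]
        exact Finset.sum_le_sum (fun j _ => m1_mono le_sup_left)
      · have hJI : J ⊂ I := lt_of_le_of_lt hJ (Finset.erase_ssubset hi)
        have e1 := hA' J hJI hJ0
        have e2 : ∑ j, finrank F ↥(K j ⊔ Submodule.span F (v '' (J : Set ι))) ≤
            ∑ j, finrank F ↥(K' j ⊔ Submodule.span F (v '' (J : Set ι))) :=
          Finset.sum_le_sum (fun j _ => m1_mono (sup_le_sup_right (hKle j) _))
        rw [hsumK]
        omega)
    refine ⟨Function.update c' i j0, fun j => ?_⟩
    have e := hc' j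
    by_cases hj : j = j0
    · subst hj
      have hf : I.filter (fun a => Function.update c' i j a = j) =
          {i} ∪ (I.erase i).filter (fun a => c' a = j) := by
        ext a
        simp only [Finset.mem_filter, Finset.mem_union, Finset.mem_singleton, Finset.mem_erase]
        by_cases ha : a = i
        · subst ha
          simp [hi]
        · rw [Function.update_of_ne ha]
          simp [ha]
      have hni : i ∉ (I.erase i).filter (fun a => c' a = j) := by
        simp
      rw [hf, Finset.card_union_of_disjoint (Finset.disjoint_singleton_left.mpr hni),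
        Finset.card_singleton, m1_span_union, ← sup_assoc, ← hKj0]
      have e2 : finrank F (K' j) = finrank F (K j) + 1 := by
        rw [hKj0]
        omega
      omega
    · have hf : I.filter (fun a => Function.update c' i j0 a = j) =
          (I.erase i).filter (fun a => c' a = j) := by
        ext a
        simp only [Finset.mem_filter, Finset.mem_erase]
        by_cases ha : a = i
        · subst ha
          rw [Function.update_self]
          constructor
          · rintro ⟨_, hx⟩
            exact absurd hx.symm hj
          · rintro ⟨⟨hx, _⟩, _⟩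
            exact absurd rfl hx
        · rw [Function.update_of_ne ha]
          simp [ha]
      rw [hKne j hj] at e
      rw [hf]
      exact e

/-- (2) PROOF. `rado_horn_aux` with `K j = ⊥`; a family of `m` vectors with span of dimension at least `m` is
linearly independent (`linearIndependent_iff_card_le_finrank_span` or similar). -/
theorem rado_horn {F Q ι : Type} [Field F] [AddCommGroup Q] [Module F Q] [FiniteDimensional F Q]
    [Fintype ι] [DecidableEq ι] (k : ℕ) (v : ι → Q)
    (h : ∀ J : Finset ι, J.card ≤ k * finrank F (Submodule.span F (v '' (J : Set ι)))) :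
    ∃ c : ι → Fin k, ∀ j, LinearIndependent F (fun i : {i // c i = j} => v i) := by
  rcases Nat.eq_zero_or_pos k with hk | hk
  · subst hk
    have hem : IsEmpty ι := by
      refine ⟨fun i => ?_⟩
      have := h {i}
      rw [Finset.card_singleton, Nat.zero_mul] at this
      omega
    exact ⟨fun i => (hem.false i).elim, fun j => j.elim0⟩
  · have : Nonempty (Fin k) := ⟨⟨0, hk⟩⟩
    obtain ⟨c, hc⟩ := rado_horn_aux (F := F) (κ := Fin k) v (Finset.univ : Finset ι).card
      Finset.univ rfl (fun _ => ⊥) (fun J _ => by
        have e1 : ∑ _j : Fin k, finrank F ↥((⊥ : Submodule F Q) ⊔ Submodule.span F (v '' (J : Set ι))) =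
            k * finrank F (Submodule.span F (v '' (J : Set ι))) := by
          rw [bot_sup_eq, Finset.sum_const, Finset.card_univ, Fintype.card_fin, smul_eq_mul]
        have e2 : ∑ _j : Fin k, finrank F ↥(⊥ : Submodule F Q) = 0 := by
          rw [finrank_bot, Finset.sum_const, smul_zero]
        rw [e1, e2, Nat.add_zero]
        exact h J)
    refine ⟨c, fun j => ?_⟩
    have e := hc j
    rw [finrank_bot, Nat.zero_add, bot_sup_eq] at e
    rw [linearIndependent_iff_card_le_finrank_span, Fintype.card_subtype]
    have hr : Set.range (fun i : {i // c i = j} => v i) =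
        v '' ((Finset.univ.filter (fun i => c i = j) : Finset ι) : Set ι) := by
      ext x
      simp only [Set.mem_range, Subtype.exists, Set.mem_image, Finset.mem_coe, Finset.mem_filter,
        Finset.mem_univ, true_and, exists_prop]
    rw [hr]
    exact e

end CYC
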