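import Pool.Agent.CYC.Defs
import Pool.Agent.CYC.M1

set_option autoImplicit false
set_option linter.unusedSectionVars false
set_option linter.unusedDecidableInType false

/-! [CYC-M2] from a density condition on a binary code to vectors orthogonal to the code. -/

namespace CYC

open Finset Module

variable {N : Type} [Fintype N] [DecidableEq N]

private theorem sup_eq_span (J : Finset N) :
    sup J = Submodule.span (ZMod 2)
      ((fun p : N => (Pi.single p 1 : N → ZMod 2)) '' (J : Set N)) := by
  apply le_antisymm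
  · intro c hc
    have h1 : c = ∑ p ∈ J, c p • (Pi.single p 1 : N → ZMod 2) := by
      ext q
      rw [Finset.sum_apply]
      simp only [Pi.smul_apply, Pi.single_apply, smul_eq_mul, mul_ite, mul_one, mul_zero]
      rw [Finset.sum_ite_eq]
      split_ifs with hq
      · rfl
      · exact hc q hq
    rw [h1]
    exact Submodule.sum_mem _ fun p hp => Submodule.smul_mem _ _
      (Submodule.subset_span ⟨p, hp, rfl⟩)
  · rw [Submodule.span_le]
    rintro _ ⟨p, hp, rfl⟩ q hq
    have h1 : q ≠ p := by
      rintro rfl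
      exact hq hp
    simp [h1]

private theorem finrank_sup (J : Finset N) : finrank (ZMod 2) (sup J) = J.card := by
  rw [sup_eq_span]
  have h : LinearIndependent (ZMod 2) (fun p : J => (Pi.single (p : N) 1 : N → ZMod 2)) :=
    (Pi.linearIndependent_single_one N (ZMod 2)).comp _ Subtype.val_injective
  have h2 := finrank_span_eq_card h
  have h3 : Set.range (fun p : J => (Pi.single (p : N) 1 : N → ZMod 2)) =
      (fun p : N => (Pi.single p 1 : N → ZMod 2)) '' (J : Set N) := by
    ext c
    constructor
    · rintro ⟨p, rfl⟩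
      exact ⟨p, p.2, rfl⟩
    · rintro ⟨p, hp, rfl⟩
      exact ⟨⟨p, hp⟩, rfl⟩
  rw [← h3, h2, Fintype.card_coe]

/-- (1) PROOF. The vectors `v p` = class of `Pi.single p 1` in the quotient by `U`. For `J : Finset N` the span of
`v '' J` is the image of `sup J` under the quotient map (`sup J` is the span of the `Pi.single p 1`, `p ∈ J`), so
`finrank (span (v '' J)) + finrank (U ⊓ sup J) = J.card` (rank-nullity for the restriction to `sup J`, whose
dimension is `J.card`). -/
theorem finrank_span_mk (U : Submodule (ZMod 2) (N → ZMod 2)) (J : Finset N) :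
    finrank (ZMod 2) (Submodule.span (ZMod 2)
      ((fun p : N => U.mkQ (Pi.single p 1)) '' (J : Set N))) +
      finrank (ZMod 2) ↥(U ⊓ sup J) = J.card := by
  have h1 : finrank (ZMod 2) (LinearMap.range (U.mkQ.domRestrict (sup J))) +
      finrank (ZMod 2) (LinearMap.ker (U.mkQ.domRestrict (sup J))) = finrank (ZMod 2) (sup J) :=
    LinearMap.finrank_range_add_finrank_ker _
  rw [finrank_sup] at h1
  rw [← h1]
  congr 1
  · rw [LinearMap.range_domRestrict, sup_eq_span, Submodule.map_span, Set.image_image]
  · have h2 : (LinearMap.ker (U.mkQ.domRestrict (sup J))).map (sup J).subtype = U ⊓ sup J := by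
      ext c
      constructor
      · rintro ⟨d, hd, rfl⟩
        rw [SetLike.mem_coe, LinearMap.mem_ker, LinearMap.domRestrict_apply, Submodule.mkQ_apply,
          Submodule.Quotient.mk_eq_zero] at hd
        exact ⟨hd, d.2⟩
      · rintro ⟨hc, hc2⟩
        refine ⟨⟨c, hc2⟩, ?_, rfl⟩
        rw [SetLike.mem_coe, LinearMap.mem_ker, LinearMap.domRestrict_apply, Submodule.mkQ_apply,
          Submodule.Quotient.mk_eq_zero]
        exact hc
    rw [← h2]
    exact (Submodule.finrank_map_subtype_eq (sup J) (LinearMap.ker (U.mkQ.domRestrict (sup J))))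

/-- (2) PROOF. The relation `p = q ∨ Pi.single p 1 + Pi.single q 1 ∈ U` is an equivalence relation on `N`
(characteristic 2). Take a set `T` of representatives (for instance `ρ p = ` the least element of the class for an
enumeration of `N`, or `Quotient.out`), so every `p` has `ρ p ∈ T` with `p = ρ p` or
`Pi.single p 1 + Pi.single (ρ p) 1 ∈ U`, and two different elements of `T` are not related. Apply `rado_horn` with
`k + 1` colours to the family `v` on the subtype `T`: for `J ⊆ T` the condition is
`J.card ≤ (k+1) * (J.card - finrank (U ⊓ sup J))`, which is `h` (via (1)). Each colour class is linearly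
independent in the quotient, so there is a linear functional `f j` on the quotient with value 1 on all its members
(extend a basis, `Basis.extend`/`LinearIndependent.extend`, or `exists_dual...`). Put
`s j p = f j (U.mkQ (Pi.single p 1))`. Then `∑ p, s j p * u p = f j (U.mkQ u) = 0` for `u ∈ U`, and
`s j p = s j (ρ p)`, which is 1 for the colour `j` of `ρ p`. (Hypothesis `h1`, no codeword of weight 1, is not
needed for this proof beyond the case `Z = {p}` of `h`, keep it.) -/
theorem cover (U : Submodule (ZMod 2) (N → ZMod 2)) (k : ℕ)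
    (h : ∀ Z : Finset N, (∀ p ∈ Z, ∀ q ∈ Z, p ≠ q → Pi.single p 1 + Pi.single q 1 ∉ U) →
      (k + 1) * finrank (ZMod 2) ↥(U ⊓ sup Z) ≤ k * Z.card) :
    ∃ s : Fin (k + 1) → N → ZMod 2, (∀ j, ∀ u ∈ U, ∑ p, s j p * u p = 0) ∧
      ∀ p, ∃ j, s j p = 1 := by
  classical
  -- the relation
  let r : Setoid N :=
    { r := fun p q => p = q ∨ (Pi.single p 1 + Pi.single q 1 : N → ZMod 2) ∈ U
      iseqv := by
        refine ⟨fun p => Or.inl rfl, ?_, ?_⟩
        · rintro p q (h1 | h1)
          · exact Or.inl h1.symm
          · right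
            rw [add_comm]
            exact h1
        · rintro p q s (rfl | h1) (rfl | h2)
          · exact Or.inl rfl
          · exact Or.inr h2
          · exact Or.inr h1
          · right
            have h3 := U.add_mem h1 h2
            have h4 : (Pi.single p 1 + Pi.single q 1 + (Pi.single q 1 + Pi.single s 1) :
                N → ZMod 2) = Pi.single p 1 + Pi.single s 1 := by
              have h5 : (Pi.single q 1 + Pi.single q 1 : N → ZMod 2) = 0 := by
                ext x
                exact CharTwo.add_self_eq_zero _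
              rw [add_assoc, ← add_assoc (Pi.single q 1 : N → ZMod 2), h5, zero_add]
            rwa [h4] at h3 }
  let ρ : N → N := fun p => (Quotient.mk r p).out
  have hρ1 : ∀ p, r (ρ p) p := fun p => Quotient.exact (Quotient.out_eq _)
  have hρ2 : ∀ p q, r p q → ρ p = ρ q := by
    intro p q hpq
    have h1 : Quotient.mk r p = Quotient.mk r q := Quotient.sound hpq
    show (Quotient.mk r p).out = (Quotient.mk r q).out
    rw [h1]
  let T : Finset N := univ.image ρ
  have hT : ∀ p ∈ T, ∀ q ∈ T, r p q → p = q := by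
    intro p hp q hq hpq
    obtain ⟨p', -, rfl⟩ := mem_image.1 hp
    obtain ⟨q', -, rfl⟩ := mem_image.1 hq
    have h1 : r p' q' := r.trans (r.trans (r.symm (hρ1 p')) hpq) (hρ1 q')
    exact hρ2 _ _ h1
  let v : {p // p ∈ T} → (N → ZMod 2) ⧸ U := fun p => U.mkQ (Pi.single p.1 1)
  have hv : ∀ J : Finset {p // p ∈ T},
      J.card ≤ (k + 1) * finrank (ZMod 2) (Submodule.span (ZMod 2) (v '' (J : Set {p // p ∈ T}))) := by
    intro J
    have h1 := finrank_span_mk U (J.map (Function.Embedding.subtype _))
    have h2 := h (J.map (Function.Embedding.subtype _)) (by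
      intro p hp q hq hpq hu
      obtain ⟨p', -, rfl⟩ := mem_map.1 hp
      obtain ⟨q', -, rfl⟩ := mem_map.1 hq
      exact hpq (hT _ p'.2 _ q'.2 (Or.inr hu)))
    have h3 : (fun p : N => U.mkQ (Pi.single p 1)) ''
        ((J.map (Function.Embedding.subtype _) : Finset N) : Set N) =
        v '' (J : Set {p // p ∈ T}) := by
      ext c
      constructor
      · rintro ⟨p, hp, rfl⟩
        obtain ⟨p', hp', rfl⟩ := mem_map.1 (mem_coe.1 hp)
        exact ⟨p', hp', rfl⟩
      · rintro ⟨p, hp, rfl⟩
        exact ⟨p.1, mem_coe.2 (mem_map.2 ⟨p, hp, rfl⟩), rfl⟩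
    rw [h3, card_map] at h1
    rw [card_map] at h2
    rw [← h1] at h2 ⊢
    nlinarith
  obtain ⟨c, hc⟩ := rado_horn (k + 1) v hv
  have hf : ∀ j : Fin (k + 1), ∃ f : ((N → ZMod 2) ⧸ U) →ₗ[ZMod 2] ZMod 2,
      ∀ i, c i = j → f (v i) = 1 := by
    intro j
    obtain ⟨f, hf⟩ := LinearMap.exists_extend
      ((Basis.span (hc j)).constr (ZMod 2) (fun _ => (1 : ZMod 2)))
    refine ⟨f, ?_⟩
    intro i hi
    have h1 : ((Basis.span (hc j) ⟨i, hi⟩ : Submodule.span (ZMod 2)
        (Set.range fun i : {i // c i = j} => v i)) : (N → ZMod 2) ⧸ U) = v i :=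
      congrArg Subtype.val (Basis.span_apply (hc j) ⟨i, hi⟩)
    have h2 : f (v i) = (f.comp (Submodule.subtype _)) (Basis.span (hc j) ⟨i, hi⟩) := by
      rw [LinearMap.comp_apply, Submodule.subtype_apply, h1]
    rw [h2, hf, Basis.constr_basis]
  choose f hf using hf
  refine ⟨fun j p => f j (U.mkQ (Pi.single p 1)), ?_, ?_⟩
  · intro j u hu
    have h1 : ∑ p, f j (U.mkQ (Pi.single p 1)) * u p = f j (U.mkQ u) := by
      have h2 : u = ∑ p, u p • (Pi.single p 1 : N → ZMod 2) := by
        ext q
        rw [Finset.sum_apply]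
        simp [Pi.single_apply]
      conv_rhs => rw [h2]
      rw [map_sum, map_sum]
      apply Finset.sum_congr rfl
      intro p _
      rw [map_smul, map_smul, smul_eq_mul, mul_comm]
    have h2 : U.mkQ u = 0 := by
      rw [Submodule.mkQ_apply, Submodule.Quotient.mk_eq_zero]
      exact hu
    show ∑ p, f j (U.mkQ (Pi.single p 1)) * u p = 0
    rw [h1, h2, map_zero]
  · intro p
    have hp : ρ p ∈ T := mem_image.2 ⟨p, mem_univ _, rfl⟩
    refine ⟨c ⟨ρ p, hp⟩, ?_⟩
    have h1 : f (c ⟨ρ p, hp⟩) (U.mkQ (Pi.single (ρ p) 1)) = 1 := hf _ _ rfl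
    have h2 : U.mkQ (Pi.single p 1) = U.mkQ (Pi.single (ρ p) 1) := by
      rcases hρ1 p with h3 | h3
      · rw [h3]
      · rw [Submodule.mkQ_apply, Submodule.mkQ_apply, Submodule.Quotient.eq]
        have h4 : (Pi.single p 1 - Pi.single (ρ p) 1 : N → ZMod 2) =
            Pi.single (ρ p) 1 + Pi.single p 1 := by
          ext x
          rw [Pi.sub_apply, Pi.add_apply, CharTwo.sub_eq_add, add_comm]
        rw [h4]
        exact h3
    show f (c ⟨ρ p, hp⟩) (U.mkQ (Pi.single p 1)) = 1
    rw [h2, h1]

end CYC
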