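import Pool.Agent.CYC.Defs

set_option autoImplicit false
set_option linter.unusedSectionVars false
set_option linter.unusedDecidableInType false

/-! [CYC-M4] the components after the removal of the arcs of `Z`, and dimensions. -/

namespace CYC

open Finset Module

namespace Sys

variable {V N : Type} [DecidableEq V] [Fintype V] [Fintype N] [DecidableEq N]

/-- `φ` is constant on the arcs outside `Z` and on the root edges -/
def Cst {A : Type} (C : Sys V N) (Z : Finset N) (φ : V → A) : Prop :=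
  (∀ p, p ∉ Z → φ (C.e p).t1 = φ (C.e p).h1 ∧ φ (C.e p).t2 = φ (C.e p).h2) ∧
    φ C.a = φ C.r ∧ φ C.g = φ C.r ∧ φ C.k1 = φ C.r ∧ φ C.k2 = φ C.r

/-- `f` labels the components (each component by one of its points) -/
structure Lab (C : Sys V N) (Z : Finset N) (f : V → V) : Prop where
  cst : C.Cst Z f
  idem : ∀ v, f (f v) = f v
  fac : ∀ {A : Type} (φ : V → A), C.Cst Z φ → ∀ v, φ (f v) = φ v

/-- the elementary steps -/
private def stp (C : Sys V N) (Z : Finset N) (x y : V) : Prop :=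
  (∃ p, p ∉ Z ∧ ((x = (C.e p).t1 ∧ y = (C.e p).h1) ∨ (x = (C.e p).t2 ∧ y = (C.e p).h2))) ∨
    (y = C.r ∧ (x = C.a ∨ x = C.g ∨ x = C.k1 ∨ x = C.k2))

private theorem cst_eqv {A : Type} (C : Sys V N) (Z : Finset N) (φ : V → A) (h : C.Cst Z φ)
    {x y : V} (hxy : Relation.EqvGen (C.stp Z) x y) : φ x = φ y := by
  induction hxy with
  | rel x y h1 =>
    obtain ⟨h2, ha, hg, hk1, hk2⟩ := h
    rcases h1 with ⟨p, hp, ⟨rfl, rfl⟩ | ⟨rfl, rfl⟩⟩ | ⟨rfl, rfl | rfl | rfl | rfl⟩
    · exact (h2 p hp).1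
    · exact (h2 p hp).2
    · exact ha
    · exact hg
    · exact hk1
    · exact hk2
  | refl x => rfl
  | symm x y _ ih => exact ih.symm
  | trans x y z _ _ ih1 ih2 => exact ih1.trans ih2

/-- (1) PROOF. The equivalence relation generated by the arcs outside `Z` and the root edges
(`Relation.EqvGen` / `Setoid`), `f v = Quotient.out (mk v)`. -/
theorem exists_Lab (C : Sys V N) (Z : Finset N) : ∃ f, C.Lab Z f := by
  classical
  let S : Setoid V := Relation.EqvGen.setoid (C.stp Z)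
  have hout : ∀ v, Relation.EqvGen (C.stp Z) (Quotient.out (Quotient.mk S v)) v := fun v =>
    Quotient.exact (Quotient.out_eq (Quotient.mk S v))
  have heq : ∀ x y, Relation.EqvGen (C.stp Z) x y →
      Quotient.out (Quotient.mk S x) = Quotient.out (Quotient.mk S y) := fun x y hxy =>
    congrArg Quotient.out (Quotient.sound hxy)
  refine ⟨fun v => Quotient.out (Quotient.mk S v), ⟨⟨fun p hp => ⟨?_, ?_⟩, ?_, ?_, ?_, ?_⟩, ?_, ?_⟩⟩
  · exact heq _ _ (Relation.EqvGen.rel _ _ (Or.inl ⟨p, hp, Or.inl ⟨rfl, rfl⟩⟩))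
  · exact heq _ _ (Relation.EqvGen.rel _ _ (Or.inl ⟨p, hp, Or.inr ⟨rfl, rfl⟩⟩))
  · exact heq _ _ (Relation.EqvGen.rel _ _ (Or.inr ⟨rfl, Or.inl rfl⟩))
  · exact heq _ _ (Relation.EqvGen.rel _ _ (Or.inr ⟨rfl, Or.inr (Or.inl rfl)⟩))
  · exact heq _ _ (Relation.EqvGen.rel _ _ (Or.inr ⟨rfl, Or.inr (Or.inr (Or.inl rfl))⟩))
  · exact heq _ _ (Relation.EqvGen.rel _ _ (Or.inr ⟨rfl, Or.inr (Or.inr (Or.inr rfl))⟩))
  · intro v
    exact heq _ _ (hout v)
  · intro A φ hφ v
    exact C.cst_eqv Z φ hφ (hout v)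

/-- the class of the label `c` -/
def cl (f : V → V) (c : V) : Finset V := univ.filter (fun v => f v = c)

/-- the parity of the number of ends of the two arcs of `p` in the classes -/
def dv (C : Sys V N) (f : V → V) (p : N) : V → ZMod 2 := fun c =>
  ind (f (C.e p).t1 = c) + ind (f (C.e p).h1 = c) + (ind (f (C.e p).t2 = c) + ind (f (C.e p).h2 = c))

end Sys

end CYC
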