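import Pool.Agent.CYC.Defs

set_option autoImplicit false
set_option linter.unusedSectionVars false
set_option linter.unusedDecidableInType false

/-! [CYC-T1] facts on trees and on structures of arcs. -/

namespace CYC

open Finset

namespace HT

variable {V : Type} [DecidableEq V]

/-- (1) PROOF. Induction on `t` (`Nd_cases`). -/
theorem lt_sub (t : HT V) (p : t.Nd) : t.lt p ⊆ t.lv := by
  induction t with
  | leaf v => exact (p : Empty).elim
  | node l r ihl ihr =>
    refine Nd_cases (C := fun p => (node l r).lt p ⊆ (node l r).lv) ?_ ?_ ?_ p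
    · exact subset_union_left
    · intro q
      exact (ihl q).trans subset_union_left
    · intro q
      exact (ihr q).trans subset_union_right

theorem rt_sub (t : HT V) (p : t.Nd) : t.rt p ⊆ t.lv := by
  induction t with
  | leaf v => exact (p : Empty).elim
  | node l r ihl ihr =>
    refine Nd_cases (C := fun p => (node l r).rt p ⊆ (node l r).lv) ?_ ?_ ?_ p
    · exact subset_union_right
    · intro q
      exact (ihl q).trans subset_union_left
    · intro q
      exact (ihr q).trans subset_union_right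

theorem lv_nonempty (t : HT V) : t.lv.Nonempty := by
  induction t with
  | leaf v => exact ⟨v, mem_singleton_self v⟩
  | node l r ihl ihr => exact ihl.mono subset_union_left

theorem lt_nonempty (t : HT V) (p : t.Nd) : (t.lt p).Nonempty := by
  induction t with
  | leaf v => exact (p : Empty).elim
  | node l r ihl ihr =>
    refine Nd_cases (C := fun p => ((node l r).lt p).Nonempty) ?_ ?_ ?_ p
    · exact lv_nonempty l
    · intro q
      exact ihl q
    · intro q
      exact ihr q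

theorem rt_nonempty (t : HT V) (p : t.Nd) : (t.rt p).Nonempty := by
  induction t with
  | leaf v => exact (p : Empty).elim
  | node l r ihl ihr =>
    refine Nd_cases (C := fun p => ((node l r).rt p).Nonempty) ?_ ?_ ?_ p
    · exact lv_nonempty r
    · intro q
      exact ihl q
    · intro q
      exact ihr q

theorem lt_disj_rt {t : HT V} (h : t.Ok) (p : t.Nd) : Disjoint (t.lt p) (t.rt p) := by
  induction t with
  | leaf v => exact (p : Empty).elim
  | node l r ihl ihr =>
    refine Nd_cases (C := fun p => Disjoint ((node l r).lt p) ((node l r).rt p)) ?_ ?_ ?_ p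
    · exact h.1
    · intro q
      exact ihl h.2.1 q
    · intro q
      exact ihr h.2.2 q

/-- (2) PROOF. Induction on `t`. -/
theorem Str.mem {t : HT V} {a g : V} {e : t.Nd → Dg V} (h : Str t a g e) :
    a ∈ t.lv ∧ g ∈ t.lv := by
  induction t generalizing a g with
  | leaf v =>
    obtain ⟨h1, h2⟩ := h
    subst h1
    subst h2
    exact ⟨mem_singleton_self _, mem_singleton_self _⟩
  | node l r ihl ihr =>
    obtain ⟨x, y, hxy, h1, h2, h3, h4⟩ := h
    have hx := (ihl h3).1
    have hy := (ihr h4).1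
    rcases hxy with ⟨rfl, rfl⟩ | ⟨rfl, rfl⟩
    · exact ⟨mem_union_left _ hx, mem_union_right _ hy⟩
    · exact ⟨mem_union_right _ hy, mem_union_left _ hx⟩

/-- (3) PROOF. Induction on `t`; at the root node `Str.mem` for the two subtrees. -/
theorem Str.dg {t : HT V} {a g : V} {e : t.Nd → Dg V} (h : Str t a g e) (p : t.Nd) :
    (e p).t1 ∈ t.lt p ∧ (e p).h1 ∈ t.rt p ∧ (e p).t2 ∈ t.rt p ∧ (e p).h2 ∈ t.lt p := by
  induction t generalizing a g with
  | leaf v => exact (p : Empty).elim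
  | node l r ihl ihr =>
    obtain ⟨x, y, hxy, h1, h2, h3, h4⟩ := h
    refine Nd_cases (C := fun p => (e p).t1 ∈ (node l r).lt p ∧ (e p).h1 ∈ (node l r).rt p ∧
      (e p).t2 ∈ (node l r).rt p ∧ (e p).h2 ∈ (node l r).lt p) ?_ ?_ ?_ p
    · exact ⟨(Str.mem h3).2, h1, (Str.mem h4).2, h2⟩
    · intro q
      exact ihl h3 q
    · intro q
      exact ihr h4 q

private theorem ind_le {p : Prop} [Decidable p] : (ind p : ℕ) ≤ 1 := by
  unfold ind
  split_ifs <;> omega

/-- (4) PROOF. Induction on `t`. Leaf: `a = g = v`, the sum over the nodes is empty. Node: if `W` meets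
both children add the two induction hypotheses (sum at least 4), the root arcs are counted by `t1 ∈ W`
and `t2 ∈ W` there and at most 2 is lost; if `W` meets only the left child then `h1 ∉ W` (it is a leaf
of the right child), so the arc 1 counts exactly when `t1 ∈ W`. -/
theorem Str.out (W : Finset V) : ∀ {t : HT V} {a g : V} {e : t.Nd → Dg V}, Str t a g e →
    (∃ v ∈ t.lv, v ∈ W) →
    2 ≤ ∑ p, ((ind ((e p).t1 ∈ W ∧ (e p).h1 ∉ W) : ℕ) + ind ((e p).t2 ∈ W ∧ (e p).h2 ∉ W)) +
      ind (a ∈ W) + ind (g ∈ W) := by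
  intro t
  induction t with
  | leaf v =>
    rintro a g e ⟨ha, hg⟩ ⟨w, hw, hW⟩
    have hw' : w = v := mem_singleton.1 hw
    rw [ha, hg, ← hw', sum_Nd_leaf]
    simp [ind, hW]
  | node l r ihl ihr =>
    rintro a g e ⟨x, y, hxy, h1, h2, h3, h4⟩ hW
    rw [sum_Nd (fun p : (node l r).Nd => ((ind ((e p).t1 ∈ W ∧ (e p).h1 ∉ W) : ℕ) +
      ind ((e p).t2 ∈ W ∧ (e p).h2 ∉ W)))]
    have key : (ind (a ∈ W) : ℕ) + ind (g ∈ W) = ind (x ∈ W) + ind (y ∈ W) := by
      rcases hxy with ⟨rfl, rfl⟩ | ⟨rfl, rfl⟩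
      · rfl
      · exact add_comm _ _
    have hL := @ihl x _ _ h3
    have hR := @ihr y _ _ h4
    set SL := ∑ p, ((ind ((e (nL l r p)).t1 ∈ W ∧ (e (nL l r p)).h1 ∉ W) : ℕ) +
      ind ((e (nL l r p)).t2 ∈ W ∧ (e (nL l r p)).h2 ∉ W)) with hSL
    set SR := ∑ p, ((ind ((e (nR l r p)).t1 ∈ W ∧ (e (nR l r p)).h1 ∉ W) : ℕ) +
      ind ((e (nR l r p)).t2 ∈ W ∧ (e (nR l r p)).h2 ∉ W)) with hSR
    by_cases hl : ∃ v ∈ l.lv, v ∈ W
    · have hL' := hL hl
      by_cases hr : ∃ v ∈ r.lv, v ∈ W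
      · have hR' := hR hr
        have b1 : (ind ((e (nRoot l r)).t1 ∈ W) : ℕ) ≤ 1 := ind_le
        have b2 : (ind ((e (nRoot l r)).t2 ∈ W) : ℕ) ≤ 1 := ind_le
        omega
      · have n1 : (e (nRoot l r)).h1 ∉ W := fun h => hr ⟨_, h1, h⟩
        have n2 : (ind ((e (nRoot l r)).t1 ∈ W ∧ (e (nRoot l r)).h1 ∉ W) : ℕ) =
            ind ((e (nRoot l r)).t1 ∈ W) := by
          simp [ind, n1]
        omega
    · have hr : ∃ v ∈ r.lv, v ∈ W := by
        obtain ⟨v, hv, hvW⟩ := hW
        rcases mem_union.1 hv with hv | hv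
        · exact (hl ⟨v, hv, hvW⟩).elim
        · exact ⟨v, hv, hvW⟩
      have hR' := hR hr
      have n1 : (e (nRoot l r)).h2 ∉ W := fun h => hl ⟨_, h2, h⟩
      have n2 : (ind ((e (nRoot l r)).t2 ∈ W ∧ (e (nRoot l r)).h2 ∉ W) : ℕ) =
          ind ((e (nRoot l r)).t2 ∈ W) := by
        simp [ind, n1]
      omega

/-- (5) PROOF. Induction on `t`: if one child is neither contained in `W` nor disjoint from `W` use
the induction hypothesis, else the root node. -/
theorem principal (W : Finset V) : ∀ (t : HT V), (∃ v ∈ t.lv, v ∈ W) → (∃ v ∈ t.lv, v ∉ W) →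
    ∃ p : t.Nd, (t.lt p ⊆ W ∧ Disjoint (t.rt p) W) ∨ (t.rt p ⊆ W ∧ Disjoint (t.lt p) W) := by
  intro t
  induction t with
  | leaf v =>
    rintro ⟨w, hw, hW⟩ ⟨u, hu, hU⟩
    have e1 : w = v := mem_singleton.1 hw
    have e2 : u = v := mem_singleton.1 hu
    subst e1
    subst e2
    exact (hU hW).elim
  | node l r ihl ihr =>
    rintro ⟨w, hw, hW⟩ ⟨u, hu, hU⟩
    by_cases hl1 : ∃ v ∈ l.lv, v ∈ W
    · by_cases hl2 : ∃ v ∈ l.lv, v ∉ W
      · obtain ⟨p, hp⟩ := ihl hl1 hl2
        exact ⟨nL l r p, hp⟩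
      · by_cases hr1 : ∃ v ∈ r.lv, v ∈ W
        · by_cases hr2 : ∃ v ∈ r.lv, v ∉ W
          · obtain ⟨p, hp⟩ := ihr hr1 hr2
            exact ⟨nR l r p, hp⟩
          · exfalso
            rcases mem_union.1 hu with hu | hu
            · exact hl2 ⟨u, hu, hU⟩
            · exact hr2 ⟨u, hu, hU⟩
        · refine ⟨nRoot l r, Or.inl ⟨?_, ?_⟩⟩
          · intro v hv
            by_contra h
            exact hl2 ⟨v, hv, h⟩
          · exact disjoint_left.2 fun v hv h => hr1 ⟨v, hv, h⟩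
    · by_cases hr1 : ∃ v ∈ r.lv, v ∈ W
      · by_cases hr2 : ∃ v ∈ r.lv, v ∉ W
        · obtain ⟨p, hp⟩ := ihr hr1 hr2
          exact ⟨nR l r p, hp⟩
        · refine ⟨nRoot l r, Or.inr ⟨?_, ?_⟩⟩
          · intro v hv
            by_contra h
            exact hr2 ⟨v, hv, h⟩
          · exact disjoint_left.2 fun v hv h => hl1 ⟨v, hv, h⟩
      · exfalso
        rcases mem_union.1 hw with hw | hw
        · exact hl1 ⟨w, hw, hW⟩
        · exact hr1 ⟨w, hw, hW⟩

/-- (6) PROOF. `Str.out`, `principal`, `Str.dg`. -/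
theorem Gd_of_Str [Fintype V] {t : HT V} (C : Sys V t.Nd) (hr : C.r ∉ t.lv)
    (hu : ∀ v, v ≠ C.r → v ∈ t.lv) (h : Str t C.a C.g C.e) : C.Gd := by
  constructor
  · intro W hW hne
    obtain ⟨v, hv⟩ := hne
    have hvr : v ≠ C.r := fun hh => hW (hh ▸ hv)
    exact Str.out W h ⟨v, hu v hvr, hv⟩
  · rintro W hW ⟨v, hv⟩ ⟨u, hur, huW⟩
    have hvr : v ≠ C.r := fun hh => hW (hh ▸ hv)
    obtain ⟨p, hp⟩ := principal W t ⟨v, hu v hvr, hv⟩ ⟨u, hu u hur, huW⟩
    obtain ⟨d1, d2, d3, d4⟩ := Str.dg h p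
    refine ⟨p, ?_⟩
    unfold Sys.ou Sys.it ind
    rcases hp with ⟨h1, h2⟩ | ⟨h1, h2⟩
    · have a1 := h1 d1
      have a2 := disjoint_left.1 h2 d2
      have a3 := disjoint_left.1 h2 d3
      have a4 := h1 d4
      simp [a1, a2, a3, a4]
    · have a1 := disjoint_left.1 h2 d1
      have a2 := h1 d2
      have a3 := h1 d3
      have a4 := disjoint_left.1 h2 d4
      simp [a1, a2, a3, a4]

end HT

end CYC
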