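import Pool.Agent.CYC.T1

set_option autoImplicit false
set_option linter.unusedSectionVars false
set_option linter.unusedDecidableInType false

/-! [CYC-T1b] weights on trees. -/

namespace CYC

open Finset

namespace HT

variable {V : Type} [DecidableEq V]

section Weights

variable [Fintype V] {x : V → V → ℝ} (hx : ∀ u v, x u v = x v u)

/-- cuts of a disjoint union -/
theorem cut_union (hx : ∀ u v, x u v = x v u) {A B : Finset V} (h : Disjoint A B) :
    cut x A + cut x B = cut x (A ∪ B) + 2 * ∑ u ∈ A, ∑ v ∈ B, x u v := by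
  have hA : Aᶜ = B ∪ (A ∪ B)ᶜ := by
    ext v
    simp only [mem_compl, mem_union, not_or]
    by_cases h1 : v ∈ A
    · have h2 : v ∉ B := fun hb => (disjoint_left.1 h h1) hb
      simp [h1, h2]
    · by_cases h2 : v ∈ B <;> simp [h1, h2]
  have hB : Bᶜ = A ∪ (A ∪ B)ᶜ := by
    ext v
    simp only [mem_compl, mem_union, not_or]
    by_cases h1 : v ∈ A
    · have h2 : v ∉ B := fun hb => (disjoint_left.1 h h1) hb
      simp [h1, h2]
    · by_cases h2 : v ∈ B <;> simp [h1, h2]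
  have dA : Disjoint B (A ∪ B)ᶜ := by
    rw [disjoint_left]
    intro v hv hv'
    simp only [mem_compl, mem_union, not_or] at hv'
    exact hv'.2 hv
  have dB : Disjoint A (A ∪ B)ᶜ := by
    rw [disjoint_left]
    intro v hv hv'
    simp only [mem_compl, mem_union, not_or] at hv'
    exact hv'.1 hv
  have e1 : cut x A = ∑ u ∈ A, ∑ v ∈ B, x u v + ∑ u ∈ A, ∑ v ∈ (A ∪ B)ᶜ, x u v := by
    rw [cut, hA, ← sum_add_distrib]
    exact sum_congr rfl fun u _ => sum_union dA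
  have e2 : cut x B = ∑ u ∈ B, ∑ v ∈ A, x u v + ∑ u ∈ B, ∑ v ∈ (A ∪ B)ᶜ, x u v := by
    rw [cut, hB, ← sum_add_distrib]
    exact sum_congr rfl fun u _ => sum_union dB
  have e3 : cut x (A ∪ B) = ∑ u ∈ A, ∑ v ∈ (A ∪ B)ᶜ, x u v + ∑ u ∈ B, ∑ v ∈ (A ∪ B)ᶜ, x u v := by
    rw [cut, sum_union h]
  have e4 : ∑ u ∈ B, ∑ v ∈ A, x u v = ∑ u ∈ A, ∑ v ∈ B, x u v := by
    rw [sum_comm]
    exact sum_congr rfl fun u _ => sum_congr rfl fun v _ => hx v u
  rw [e1, e2, e3, e4]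
  ring

/-- (7) every subtree is tight -/
theorem Tgt.cut {t : HT V} (h : Tgt x t) : HT.cut x t.lv = 2 := by
  cases t with
  | leaf v => exact h
  | node l r => exact h.1

/-- (8) PROOF. Induction on `t`: at the root `cut_union` and tightness of `l`, `r` and their union. -/
theorem x_lt_rt (hx : ∀ u v, x u v = x v u) {t : HT V} (hO : t.Ok) (hT : Tgt x t) (p : t.Nd) :
    ∑ u ∈ t.lt p, ∑ v ∈ t.rt p, x u v = 1 := by
  induction t with
  | leaf v => exact p.elim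
  | node l r ihl ihr =>
    obtain ⟨hd, hl, hr⟩ := hO
    obtain ⟨tc, tl, tr⟩ := hT
    revert p
    apply Nd_cases
    · rw [lt_root, rt_root]
      have h1 := cut_union hx hd
      have h2 := Tgt.cut tl
      have h3 := Tgt.cut tr
      rw [h2, h3, tc] at h1
      linarith
    · intro p
      exact ihl hl tl p
    · intro p
      exact ihr hr tr p

/-- (9) PROOF. `x_lt_rt` -/
theorem le_wt (hx : ∀ u v, x u v = x v u) (hx0 : ∀ u v, 0 ≤ x u v) {d : V → V → ℝ} {t : HT V}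
    (hO : t.Ok) (hT : Tgt x t) (p : t.Nd) {m : ℝ} (hm : ∀ u ∈ t.lt p, ∀ v ∈ t.rt p, m ≤ d u v) :
    m ≤ wt x d t p := by
  have h1 := x_lt_rt hx hO hT p
  have h2 : m = ∑ u ∈ t.lt p, ∑ v ∈ t.rt p, x u v * m := by
    have h3 : ∑ u ∈ t.lt p, ∑ v ∈ t.rt p, x u v * m =
        (∑ u ∈ t.lt p, ∑ v ∈ t.rt p, x u v) * m := by
      rw [sum_mul]
      exact sum_congr rfl fun u _ => (sum_mul _ _ _).symm
    rw [h3, h1, one_mul]
  rw [wt]
  calc m = ∑ u ∈ t.lt p, ∑ v ∈ t.rt p, x u v * m := h2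
    _ ≤ ∑ u ∈ t.lt p, ∑ v ∈ t.rt p, x u v * d u v :=
      sum_le_sum fun u hu => sum_le_sum fun v hv =>
        mul_le_mul_of_nonneg_left (hm u hu v hv) (hx0 u v)

/-- (10) PROOF. Induction on `t`: `lv = l.lv ∪ r.lv` disjoint, the double sum splits in four. -/
theorem two_inn (hx : ∀ u v, x u v = x v u) (hxd : ∀ u, x u u = 0) {d : V → V → ℝ}
    (hd : ∀ u v, d u v = d v u) {t : HT V} (hO : t.Ok) :
    2 * inn x d t = ∑ u ∈ t.lv, ∑ v ∈ t.lv, x u v * d u v := by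
  induction t with
  | leaf v =>
    have h1 : inn x d (leaf v) = 0 := sum_Nd_leaf _
    rw [h1]
    simp [lv, hxd]
  | node l r ihl ihr =>
    obtain ⟨hdis, hl, hr⟩ := hO
    have h1 : inn x d (node l r) = ∑ u ∈ l.lv, ∑ v ∈ r.lv, x u v * d u v +
        (inn x d l + inn x d r) := sum_Nd _
    have h2 : ∑ u ∈ (node l r).lv, ∑ v ∈ (node l r).lv, x u v * d u v =
        (∑ u ∈ l.lv, ∑ v ∈ l.lv, x u v * d u v + ∑ u ∈ l.lv, ∑ v ∈ r.lv, x u v * d u v) +
        (∑ u ∈ r.lv, ∑ v ∈ l.lv, x u v * d u v + ∑ u ∈ r.lv, ∑ v ∈ r.lv, x u v * d u v) := by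
      change ∑ u ∈ l.lv ∪ r.lv, ∑ v ∈ l.lv ∪ r.lv, x u v * d u v = _
      rw [sum_union hdis, ← sum_add_distrib, ← sum_add_distrib]
      congr 1
      · exact sum_congr rfl fun u _ => sum_union hdis
      · exact sum_congr rfl fun u _ => sum_union hdis
    have h3 : ∑ u ∈ r.lv, ∑ v ∈ l.lv, x u v * d u v = ∑ u ∈ l.lv, ∑ v ∈ r.lv, x u v * d u v := by
      rw [sum_comm]
      exact sum_congr rfl fun u _ => sum_congr rfl fun v _ => by rw [hx v u, hd v u]
    rw [h1, h2, h3, ← ihl hl, ← ihr hr]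
    ring

end Weights

end HT

end CYC
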