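import Pool.Agent.CYC.T1b

set_option autoImplicit false
set_option linter.unusedSectionVars false
set_option linter.unusedDecidableInType false

/-! [CYC-T2] a structure of arcs of cost at most twice the cost of `x` (dynamic programming). -/

namespace CYC

open Finset

namespace HT

variable {V : Type} [DecidableEq V] [Fintype V]

private theorem sum_compl_split {A B : Finset V} (h : Disjoint A B) (f : V → ℝ) :
    ∑ w ∈ Aᶜ, f w = ∑ w ∈ B, f w + ∑ w ∈ (A ∪ B)ᶜ, f w := by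
  have hA : Aᶜ = B ∪ (A ∪ B)ᶜ := by
    ext v
    simp only [mem_compl, mem_union, not_or]
    by_cases h1 : v ∈ A
    · have h2 : v ∉ B := fun hb => (disjoint_left.1 h h1) hb
      simp [h1, h2]
    · by_cases h2 : v ∈ B <;> simp [h1, h2]
  rw [hA, sum_union]
  rw [disjoint_left]
  intro v hv hv2
  simp only [mem_compl, mem_union, not_or] at hv2
  exact hv2.2 hv

private theorem inn_node (x d : V → V → ℝ) (l r : HT V) :
    inn x d (node l r) = (∑ u ∈ l.lv, ∑ v ∈ r.lv, x u v * d u v) + (inn x d l + inn x d r) := by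
  unfold inn
  rw [sum_Nd]
  rfl

private theorem cst_node (d : V → V → ℝ) {l r : HT V} (e : (node l r).Nd → Dg V) :
    cst d e = (d (e (nRoot l r)).t1 (e (nRoot l r)).h1 + d (e (nRoot l r)).t2 (e (nRoot l r)).h2) +
      (cst d (fun p => e (nL l r p)) + cst d (fun p => e (nR l r p))) := by
  unfold cst
  rw [sum_Nd]

/-- the arcs of a node from the arcs of the subtrees -/
private def mk (l r : HT V) (q : Dg V) (el : l.Nd → Dg V) (er : r.Nd → Dg V) :
    (node l r).Nd → Dg V :=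
  fun p => match (show Option (l.Nd ⊕ r.Nd) from p) with
    | none => q
    | some (Sum.inl p) => el p
    | some (Sum.inr p) => er p

private theorem mk_root (l r : HT V) (q : Dg V) (el : l.Nd → Dg V) (er : r.Nd → Dg V) :
    mk l r q el er (nRoot l r) = q := rfl

private theorem mk_L (l r : HT V) (q : Dg V) (el : l.Nd → Dg V) (er : r.Nd → Dg V) :
    (fun p => mk l r q el er (nL l r p)) = el := rfl

private theorem mk_R (l r : HT V) (q : Dg V) (el : l.Nd → Dg V) (er : r.Nd → Dg V) :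
    (fun p => mk l r q el er (nR l r p)) = er := rfl

private theorem sum_ext {x : V → V → ℝ} {A B : Finset V}
    (h : Disjoint A B) (hA : cut x A = 2) (h1 : ∑ u ∈ A, ∑ v ∈ B, x u v = 1) :
    ∑ u ∈ A, ∑ w ∈ (A ∪ B)ᶜ, x u w = 1 := by
  have e : cut x A = ∑ u ∈ A, ∑ v ∈ B, x u v + ∑ u ∈ A, ∑ w ∈ (A ∪ B)ᶜ, x u w := by
    unfold cut
    rw [← sum_add_distrib]
    exact sum_congr rfl fun u _ => sum_compl_split h _
  linarith

/-- (1) PROOF. Induction on `t`. Write `λ = la`, `μ = mu`.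
Leaf `v`: `g u = v`, `la v = mu v = 1`, the sums are `ψ v`.
Node `l r`, `L = l.lv`, `R = r.lv`, `S = L ∪ R`. For `l` use the induction hypothesis with
`la' u = ∑ w ∈ Sᶜ, x u w`, `mu' u = ∑ w ∈ R, x u w` and `ψ' v = min over w ∈ R of d v w`
(`Finset.inf'`, or `exists_min_image`), for `r` symmetrically (`ψ'' v = min over w ∈ L of d v w`). The
hypotheses on the sums: `∑ L, mu' = 1` is `x_lt_rt` at the root, `∑ L, la' = cut x L - 1 = 1`.
This gives `g_l, e_l` and `g_r, e_r`; put `Gl u = cst d (e_l u) + ψ' (g_l u)` for `u ∈ L` and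
`Gr y = cst d (e_r y) + ψ'' (g_r y)` for `y ∈ R`. For `u ∈ L` let `g u = y` be a point of `R` which
minimises `ψ y + Gr y`; `e u` has `t1 = g_l u`, `h1` = a nearest point of `R` to it, `t2 = g_r y`, `h2` = a
nearest point of `L` to it, and `e_l u`, `e_r y` below (define it by `fun p => match (show Option _ from p)
with ...`); `x = u`, `y = y` in `Str`. For `u ∈ R` symmetrically with a minimiser `y ∈ L` of `ψ y + Gl y`.
Cost: `la(L) = mu(R)` because `la(L) + mu(L) = ∑ L, la' = 1 = mu(L) + mu(R)`; so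
`∑ u ∈ L, la u * (Gl u + min over R of (ψ + Gr)) ≤ ∑ u ∈ L, la u * Gl u + ∑ y ∈ R, mu y * (ψ y + Gr y)`,
and the same with `L`, `R` exchanged. The sum is
`∑ L, (la + mu) Gl + ∑ R, (la + mu) Gr + ∑ S, mu ψ`, `la + mu = la'` on `L`, the induction hypotheses bound
it by `2 inn l + ∑ v ∈ L, mu' v * ψ' v + 2 inn r + ... + ∑ S, mu ψ`, and
`∑ v ∈ L, mu' v * ψ' v ≤ ∑ v ∈ L, ∑ w ∈ R, x v w * d v w = wt` at the root (same for the other one). -/
theorem dp {x d : V → V → ℝ} (hx : ∀ u v, x u v = x v u) (hx0 : ∀ u v, 0 ≤ x u v)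
    (hd : ∀ u v, d u v = d v u) :
    ∀ (t : HT V), t.Ok → Tgt x t → ∀ (la mu ψ : V → ℝ), (∀ u ∈ t.lv, 0 ≤ la u) →
      (∀ u ∈ t.lv, 0 ≤ mu u) → (∀ u ∈ t.lv, la u + mu u = ∑ w ∈ t.lvᶜ, x u w) →
      ∑ u ∈ t.lv, la u = 1 → ∑ u ∈ t.lv, mu u = 1 →
      ∃ (g : V → V) (e : V → t.Nd → Dg V), (∀ u ∈ t.lv, Str t u (g u) (e u)) ∧
        ∑ u ∈ t.lv, la u * (cst d (e u) + ψ (g u)) ≤
          2 * inn x d t + ∑ v ∈ t.lv, mu v * ψ v := by
  intro t
  induction t with
  | leaf v =>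
    intro _ _ la mu ψ _ _ _ sla smu
    refine ⟨fun _ => v, fun _ p => Empty.elim p, ?_, ?_⟩
    · intro u hu
      have hu' : u = v := mem_singleton.1 hu
      exact ⟨hu', rfl⟩
    · have e1 : la v = 1 := by simpa [lv] using sla
      have e2 : mu v = 1 := by simpa [lv] using smu
      have e3 : inn x d (leaf v) = 0 := sum_Nd_leaf _
      have e4 : ∀ u : V, cst d (fun p : (leaf v).Nd => (Empty.elim p : Dg V)) = 0 :=
        fun _ => sum_Nd_leaf _
      rw [e3]
      simp only [lv, sum_singleton, e1, e2]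
      rw [e4 v]
      linarith
  | node l r ihl ihr =>
    intro hO hT la mu ψ hla hmu hs sla smu
    have hT' := hT
    have hO' := hO
    obtain ⟨hdj, hOl, hOr⟩ := hO
    obtain ⟨tc, tl, tr⟩ := hT
    have cl : cut x l.lv = 2 := tl.cut
    have cr : cut x r.lv = 2 := tr.cut
    have x1 : ∑ u ∈ l.lv, ∑ v ∈ r.lv, x u v = 1 := x_lt_rt hx hO' hT' (nRoot l r)
    have x2 : ∑ u ∈ r.lv, ∑ v ∈ l.lv, x u v = 1 := by
      rw [sum_comm, ← x1]
      exact sum_congr rfl fun u _ => sum_congr rfl fun v _ => hx _ _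
    have y1 : ∑ u ∈ l.lv, ∑ w ∈ (l.lv ∪ r.lv)ᶜ, x u w = 1 := sum_ext hdj cl x1
    have y2 : ∑ u ∈ r.lv, ∑ w ∈ (l.lv ∪ r.lv)ᶜ, x u w = 1 := by
      have := sum_ext hdj.symm cr x2
      rwa [union_comm] at this
    have hs' : ∀ u ∈ l.lv ∪ r.lv, la u + mu u = ∑ w ∈ (l.lv ∪ r.lv)ᶜ, x u w := hs
    have hla' : ∀ u ∈ l.lv ∪ r.lv, 0 ≤ la u := hla
    have hmu' : ∀ u ∈ l.lv ∪ r.lv, 0 ≤ mu u := hmu
    have sla' : ∑ u ∈ l.lv, la u + ∑ u ∈ r.lv, la u = 1 := by
      rw [← sum_union hdj]; exact sla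
    have smu' : ∑ u ∈ l.lv, mu u + ∑ u ∈ r.lv, mu u = 1 := by
      rw [← sum_union hdj]; exact smu
    choose nr hnr using fun v => exists_min_image r.lv (fun w => d v w) r.lv_nonempty
    choose nl hnl using fun v => exists_min_image l.lv (fun w => d v w) l.lv_nonempty
    obtain ⟨gl, el, hgl, hcl⟩ := ihl hOl tl (fun u => ∑ w ∈ (l.lv ∪ r.lv)ᶜ, x u w)
      (fun u => ∑ w ∈ r.lv, x u w) (fun v => d v (nr v))
      (fun u _ => sum_nonneg fun w _ => hx0 _ _) (fun u _ => sum_nonneg fun w _ => hx0 _ _)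
      (fun u _ => by rw [sum_compl_split hdj]; ring) y1 x1
    obtain ⟨gr, er, hgr, hcr⟩ := ihr hOr tr (fun u => ∑ w ∈ (l.lv ∪ r.lv)ᶜ, x u w)
      (fun u => ∑ w ∈ l.lv, x u w) (fun v => d v (nl v))
      (fun u _ => sum_nonneg fun w _ => hx0 _ _) (fun u _ => sum_nonneg fun w _ => hx0 _ _)
      (fun u _ => by rw [sum_compl_split hdj.symm, union_comm r.lv l.lv]; ring) y2 x2
    obtain ⟨yR, hyR, mR⟩ := exists_min_image r.lv
      (fun y => ψ y + (cst d (er y) + d (gr y) (nl (gr y)))) r.lv_nonempty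
    obtain ⟨yL, hyL, mL⟩ := exists_min_image l.lv
      (fun y => ψ y + (cst d (el y) + d (gl y) (nr (gl y)))) l.lv_nonempty
    refine ⟨fun u => if u ∈ l.lv then yR else yL,
      fun u => if u ∈ l.lv then
        mk l r ⟨gl u, nr (gl u), gr yR, nl (gr yR)⟩ (el u) (er yR) else
        mk l r ⟨gl yL, nr (gl yL), gr u, nl (gr u)⟩ (el yL) (er u), ?_, ?_⟩
    · intro u hu
      by_cases h : u ∈ l.lv
      · simp only [h, if_true]
        exact ⟨u, yR, Or.inl ⟨rfl, rfl⟩, (hnr _).1, (hnl _).1, hgl u h, hgr yR hyR⟩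
      · have hur : u ∈ r.lv := by
          rcases mem_union.1 hu with h1 | h1
          · exact absurd h1 h
          · exact h1
        simp only [h, if_false]
        exact ⟨yL, u, Or.inr ⟨rfl, rfl⟩, (hnr _).1, (hnl _).1, hgl yL hyL, hgr u hur⟩
    · set Gl : V → ℝ := fun u => cst d (el u) + d (gl u) (nr (gl u)) with hGl
      set Gr : V → ℝ := fun u => cst d (er u) + d (gr u) (nl (gr u)) with hGr
      have eL : ∀ u ∈ l.lv, la u * (cst d (if u ∈ l.lv then
          mk l r ⟨gl u, nr (gl u), gr yR, nl (gr yR)⟩ (el u) (er yR) else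
          mk l r ⟨gl yL, nr (gl yL), gr u, nl (gr u)⟩ (el yL) (er u)) +
          ψ (if u ∈ l.lv then yR else yL)) = la u * Gl u + la u * (ψ yR + Gr yR) := by
        intro u hu
        rw [if_pos hu, if_pos hu, cst_node, mk_root, mk_L, mk_R]
        simp only [hGl, hGr]
        ring
      have eR : ∀ u ∈ r.lv, la u * (cst d (if u ∈ l.lv then
          mk l r ⟨gl u, nr (gl u), gr yR, nl (gr yR)⟩ (el u) (er yR) else
          mk l r ⟨gl yL, nr (gl yL), gr u, nl (gr u)⟩ (el yL) (er u)) +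
          ψ (if u ∈ l.lv then yR else yL)) = la u * Gr u + la u * (ψ yL + Gl yL) := by
        intro u hu
        have h : u ∉ l.lv := fun h => (disjoint_left.1 hdj h) hu
        rw [if_neg h, if_neg h, cst_node, mk_root, mk_L, mk_R]
        simp only [hGl, hGr]
        ring
      have e0 : (node l r).lv = l.lv ∪ r.lv := rfl
      rw [e0, sum_union hdj, sum_union hdj, sum_congr rfl eL, sum_congr rfl eR, inn_node,
        sum_add_distrib, sum_add_distrib, ← sum_mul, ← sum_mul]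
      -- la(L) = mu(R), la(R) = mu(L)
      have k1 : ∑ u ∈ l.lv, la u + ∑ u ∈ l.lv, mu u = 1 := by
        rw [← y1, ← sum_add_distrib]
        exact sum_congr rfl fun u hu => hs' u (mem_union_left _ hu)
      have k2 : ∑ u ∈ l.lv, la u = ∑ u ∈ r.lv, mu u := by linarith
      have k3 : ∑ u ∈ r.lv, la u = ∑ u ∈ l.lv, mu u := by linarith
      rw [k2, k3]
      have m1 : (∑ u ∈ r.lv, mu u) * (ψ yR + Gr yR) ≤ ∑ u ∈ r.lv, mu u * (ψ u + Gr u) := by
        rw [sum_mul]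
        exact sum_le_sum fun u hu =>
          mul_le_mul_of_nonneg_left (mR u hu) (hmu' u (mem_union_right _ hu))
      have m2 : (∑ u ∈ l.lv, mu u) * (ψ yL + Gl yL) ≤ ∑ u ∈ l.lv, mu u * (ψ u + Gl u) := by
        rw [sum_mul]
        exact sum_le_sum fun u hu =>
          mul_le_mul_of_nonneg_left (mL u hu) (hmu' u (mem_union_left _ hu))
      have f1 : ∑ u ∈ l.lv, la u * Gl u + ∑ u ∈ l.lv, mu u * (ψ u + Gl u) =
          ∑ u ∈ l.lv, (∑ w ∈ (l.lv ∪ r.lv)ᶜ, x u w) * Gl u + ∑ u ∈ l.lv, mu u * ψ u := by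
        rw [← sum_add_distrib, ← sum_add_distrib]
        refine sum_congr rfl fun u hu => ?_
        rw [← hs' u (mem_union_left _ hu)]
        ring
      have f2 : ∑ u ∈ r.lv, la u * Gr u + ∑ u ∈ r.lv, mu u * (ψ u + Gr u) =
          ∑ u ∈ r.lv, (∑ w ∈ (l.lv ∪ r.lv)ᶜ, x u w) * Gr u + ∑ u ∈ r.lv, mu u * ψ u := by
        rw [← sum_add_distrib, ← sum_add_distrib]
        refine sum_congr rfl fun u hu => ?_
        rw [← hs' u (mem_union_right _ hu)]
        ring
      have n1 : ∑ v ∈ l.lv, (∑ w ∈ r.lv, x v w) * d v (nr v) ≤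
          ∑ u ∈ l.lv, ∑ v ∈ r.lv, x u v * d u v := by
        refine sum_le_sum fun v _ => ?_
        rw [sum_mul]
        exact sum_le_sum fun w hw => mul_le_mul_of_nonneg_left ((hnr v).2 w hw) (hx0 _ _)
      have n2 : ∑ v ∈ r.lv, (∑ w ∈ l.lv, x v w) * d v (nl v) ≤
          ∑ u ∈ l.lv, ∑ v ∈ r.lv, x u v * d u v := by
        rw [sum_comm (s := l.lv)]
        refine sum_le_sum fun v _ => ?_
        rw [sum_mul]
        refine sum_le_sum fun w hw => ?_
        rw [hx w v, hd w v]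
        exact mul_le_mul_of_nonneg_left ((hnl v).2 w hw) (hx0 _ _)
      linarith

/-- (3) a minimum lies below the `x`-average: `∑ u ∈ l.lv, x u r0 = 1`. PROOF as in (2). -/
private theorem sum_root_aux {x : V → V → ℝ} (hx : ∀ u v, x u v = x v u) (l r : HT V)
    (hO : (node l r).Ok) (hT : Tgt x (node l r)) (r0 : V) (hr : r0 ∉ (node l r).lv)
    (hu : ∀ v, v ≠ r0 → v ∈ (node l r).lv) :
    ((node l r).lv)ᶜ = {r0} ∧ ∑ u ∈ l.lv, x u r0 = 1 ∧ ∑ u ∈ r.lv, x u r0 = 1 := by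
  have hT' := hT
  have hO' := hO
  obtain ⟨hdj, hOl, hOr⟩ := hO
  obtain ⟨tc, tl, tr⟩ := hT
  have cl : cut x l.lv = 2 := tl.cut
  have cr : cut x r.lv = 2 := tr.cut
  have x1 : ∑ u ∈ l.lv, ∑ v ∈ r.lv, x u v = 1 := x_lt_rt hx hO' hT' (nRoot l r)
  have x2 : ∑ u ∈ r.lv, ∑ v ∈ l.lv, x u v = 1 := by
    rw [sum_comm, ← x1]
    exact sum_congr rfl fun u _ => sum_congr rfl fun v _ => hx _ _
  have y1 : ∑ u ∈ l.lv, ∑ w ∈ (l.lv ∪ r.lv)ᶜ, x u w = 1 := sum_ext hdj cl x1
  have y2 : ∑ u ∈ r.lv, ∑ w ∈ (l.lv ∪ r.lv)ᶜ, x u w = 1 := by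
    have := sum_ext hdj.symm cr x2
    rwa [union_comm] at this
  have hc : ((node l r).lv)ᶜ = {r0} := by
    ext v
    rw [mem_compl, mem_singleton]
    constructor
    · intro h
      by_contra h2
      exact h (hu v h2)
    · rintro rfl
      exact hr
  have hc' : (l.lv ∪ r.lv)ᶜ = {r0} := hc
  rw [hc'] at y1 y2
  simp only [sum_singleton] at y1 y2
  exact ⟨hc, y1, y2⟩

/-- (2) PROOF. `dp` for `node l r` with `la u = if u ∈ l.lv then x u r0 else 0`,
`mu u = if u ∈ r.lv then x u r0 else 0`, `ψ v = d v r0` (the complement of the set of leaves is `{r0}`;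
`∑ u ∈ l.lv, x u r0 = cut x l.lv - 1 = 1`). Add `∑ u ∈ l.lv, x u r0 * d u r0`: some `u ∈ l.lv` has
`cst d (e u) + d (g u) r0 + d u r0` at most the average. `Str` at the root node with `u ∈ l.lv`: `u` is `x`
or `y`, it is not `y` (`Str.mem`, disjointness), so `g u = y ∈ r.lv`. -/
theorem exists_top {x d : V → V → ℝ} (hx : ∀ u v, x u v = x v u) (hx0 : ∀ u v, 0 ≤ x u v)
    (hd : ∀ u v, d u v = d v u) (l r : HT V) (hO : (node l r).Ok) (hT : Tgt x (node l r)) (r0 : V)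
    (hr : r0 ∉ (node l r).lv) (hu : ∀ v, v ≠ r0 → v ∈ (node l r).lv) :
    ∃ a ∈ l.lv, ∃ g ∈ r.lv, ∃ e : (node l r).Nd → Dg V, Str (node l r) a g e ∧
      cst d e + d a r0 + d g r0 ≤
        2 * inn x d (node l r) + ∑ u ∈ (node l r).lv, x u r0 * d u r0 := by
  obtain ⟨hc, s1, s2⟩ := sum_root_aux hx l r hO hT r0 hr hu
  have hdj : Disjoint l.lv r.lv := hO.1
  have e0 : (node l r).lv = l.lv ∪ r.lv := rfl
  have nL : ∀ u ∈ r.lv, u ∉ l.lv := fun u hu h => (disjoint_left.1 hdj h) hu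
  have nR : ∀ u ∈ l.lv, u ∉ r.lv := fun u hu h => (disjoint_left.1 hdj hu) h
  obtain ⟨g, e, hg, hcst⟩ := dp hx hx0 hd (node l r) hO hT
    (fun u => if u ∈ l.lv then x u r0 else 0) (fun u => if u ∈ r.lv then x u r0 else 0)
    (fun v => d v r0)
    (fun u _ => by
      change (0 : ℝ) ≤ if u ∈ l.lv then x u r0 else 0
      split_ifs
      · exact hx0 _ _
      · exact le_rfl)
    (fun u _ => by
      change (0 : ℝ) ≤ if u ∈ r.lv then x u r0 else 0
      split_ifs
      · exact hx0 _ _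
      · exact le_rfl)
    (fun u hu' => by
      rw [hc, sum_singleton]
      rcases mem_union.1 (e0 ▸ hu') with h | h
      · simp [h, nR u h]
      · simp [h, nL u h])
    (by
      rw [e0, sum_union hdj]
      have a1 : ∑ u ∈ l.lv, (if u ∈ l.lv then x u r0 else 0) = 1 := by
        rw [← s1]
        exact sum_congr rfl fun u h => if_pos h
      have a2 : ∑ u ∈ r.lv, (if u ∈ l.lv then x u r0 else 0) = 0 :=
        sum_eq_zero fun u h => if_neg (nL u h)
      rw [a1, a2, add_zero])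
    (by
      rw [e0, sum_union hdj]
      have a1 : ∑ u ∈ r.lv, (if u ∈ r.lv then x u r0 else 0) = 1 := by
        rw [← s2]
        exact sum_congr rfl fun u h => if_pos h
      have a2 : ∑ u ∈ l.lv, (if u ∈ r.lv then x u r0 else 0) = 0 :=
        sum_eq_zero fun u h => if_neg (nR u h)
      rw [a1, a2, zero_add])
  -- the average
  set B : ℝ := 2 * inn x d (node l r) + ∑ u ∈ (node l r).lv, x u r0 * d u r0 with hB
  have key : ∑ u ∈ l.lv, x u r0 * (cst d (e u) + d u r0 + d (g u) r0) ≤ B := by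
    have b1 : ∑ u ∈ (node l r).lv, (if u ∈ l.lv then x u r0 else 0) * (cst d (e u) + d (g u) r0) =
        ∑ u ∈ l.lv, x u r0 * (cst d (e u) + d (g u) r0) := by
      rw [e0, sum_union hdj]
      have a1 : ∑ u ∈ l.lv, (if u ∈ l.lv then x u r0 else 0) * (cst d (e u) + d (g u) r0) =
          ∑ u ∈ l.lv, x u r0 * (cst d (e u) + d (g u) r0) :=
        sum_congr rfl fun u h => by rw [if_pos h]
      have a2 : ∑ u ∈ r.lv, (if u ∈ l.lv then x u r0 else 0) * (cst d (e u) + d (g u) r0) = 0 :=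
        sum_eq_zero fun u h => by rw [if_neg (nL u h), zero_mul]
      rw [a1, a2, add_zero]
    have b2 : ∑ v ∈ (node l r).lv, (if v ∈ r.lv then x v r0 else 0) * d v r0 =
        ∑ u ∈ r.lv, x u r0 * d u r0 := by
      rw [e0, sum_union hdj]
      have a1 : ∑ u ∈ r.lv, (if u ∈ r.lv then x u r0 else 0) * d u r0 =
          ∑ u ∈ r.lv, x u r0 * d u r0 :=
        sum_congr rfl fun u h => by rw [if_pos h]
      have a2 : ∑ u ∈ l.lv, (if u ∈ r.lv then x u r0 else 0) * d u r0 = 0 :=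
        sum_eq_zero fun u h => by rw [if_neg (nR u h), zero_mul]
      rw [a1, a2, zero_add]
    have b3 : ∑ u ∈ (node l r).lv, x u r0 * d u r0 =
        ∑ u ∈ l.lv, x u r0 * d u r0 + ∑ u ∈ r.lv, x u r0 * d u r0 := by
      rw [e0, sum_union hdj]
    have b4 : ∑ u ∈ l.lv, x u r0 * (cst d (e u) + d u r0 + d (g u) r0) =
        ∑ u ∈ l.lv, x u r0 * (cst d (e u) + d (g u) r0) + ∑ u ∈ l.lv, x u r0 * d u r0 := by
      rw [← sum_add_distrib]
      exact sum_congr rfl fun u _ => by ring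
    have b5 := hcst
    rw [b1, b2] at b5
    rw [hB, b3, b4]
    linarith
  have hex : ∃ u ∈ l.lv, cst d (e u) + d u r0 + d (g u) r0 ≤ B := by
    by_contra hcon
    push Not at hcon
    have c1 : ∀ u ∈ l.lv, x u r0 * B ≤ x u r0 * (cst d (e u) + d u r0 + d (g u) r0) :=
      fun u h => mul_le_mul_of_nonneg_left (hcon u h).le (hx0 _ _)
    have c2 : ∃ u ∈ l.lv, 0 < x u r0 := by
      by_contra h
      push Not at h
      have : ∑ u ∈ l.lv, x u r0 ≤ 0 := sum_nonpos h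
      linarith
    obtain ⟨u0, hu0, hp⟩ := c2
    have c3 : ∑ u ∈ l.lv, x u r0 * B < ∑ u ∈ l.lv, x u r0 * (cst d (e u) + d u r0 + d (g u) r0) :=
      sum_lt_sum c1 ⟨u0, hu0, mul_lt_mul_of_pos_left (hcon u0 hu0) hp⟩
    rw [← sum_mul, s1, one_mul] at c3
    linarith
  obtain ⟨u, hul, hle⟩ := hex
  have hstr := hg u (mem_union_left _ hul)
  refine ⟨u, hul, g u, ?_, e u, hstr, hle⟩
  obtain ⟨p, q, hpq, _, _, hp, hq⟩ := hstr
  rcases hpq with ⟨_, h2⟩ | ⟨h1, _⟩
  · rw [h2]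
    exact hq.mem.1
  · exact absurd (h1 ▸ hq.mem.1) (nR u hul)

/-- (3) a minimum lies below the `x`-average: `∑ u ∈ l.lv, x u r0 = 1`. PROOF as in (2). -/
theorem sum_root {x : V → V → ℝ} (hx : ∀ u v, x u v = x v u) (l r : HT V) (hO : (node l r).Ok)
    (hT : Tgt x (node l r)) (r0 : V) (hr : r0 ∉ (node l r).lv)
    (hu : ∀ v, v ≠ r0 → v ∈ (node l r).lv) :
    ∑ u ∈ l.lv, x u r0 = 1 ∧ ∑ u ∈ r.lv, x u r0 = 1 :=
  (sum_root_aux hx l r hO hT r0 hr hu).2

end HT

end CYC
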